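import Pool.Agent.Y868.TC.G1

/-! Schinzel's Goldbach-type hypothesis for almost all systems: the form in terms of `N`, `G` and the `F_i`. -/

set_option autoImplicit false

namespace Pool.Agent.Y868.TC.Gold

open Finset Filter
open Polynomial (X C)
open scoped Polynomial
open Pool.Agent.H373R2.T7 (pz Vz lamz mem_pz Vz_inv_small ev_L' Vz_inv_le Vz_pos)
open Pool.Agent.TH204.WR (rho hh vN model rho_le hh_nonneg prod_le_one' prod_nonneg' V_low)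
open Pool.Agent.Y868.TA Pool.Agent.Y868.TC

/-- the polynomial `X (P + a X + b) + c` -/
noncomputable def poly (P : ℤ[X]) (a b : ℕ) (c : ℤ) : ℤ[X] := X * (P + C (a : ℤ) * X + C (b : ℤ)) + C c

/-- the number of positive integers `n` for which `N - G(n)` and all the `F_i(n)` are positive primes -/
noncomputable def Q1 {g : ℕ} (N : ℕ) (G : ℤ[X]) (F : Fin g → ℤ[X]) : ℕ :=
  {n : ℕ | 1 ≤ n ∧ ((N : ℤ) - G.eval (n : ℤ)).toNat.Prime ∧ ∀ i, ((F i).eval (n : ℤ)).toNat.Prime}.ncard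

/-- there is no fixed prime divisor of the product of `N - G` and the `F_i` -/
def NoFixed {g : ℕ} (N : ℕ) (G : ℤ[X]) (F : Fin g → ℤ[X]) : Prop :=
  ∀ p : ℕ, p.Prime → ∃ n : ℤ, ¬ (p : ℤ) ∣ ((N : ℤ) - G.eval n) * ∏ i, (F i).eval n

/-- the number of zeros modulo `p` of the product of `N - G` and the `F_i` -/
noncomputable def omega {g : ℕ} (N : ℕ) (G : ℤ[X]) (F : Fin g → ℤ[X]) (p : ℕ) : ℕ :=
  #((range p).filter (fun n : ℕ => (p : ℤ) ∣ ((N : ℤ) - G.eval (n : ℤ)) * ∏ i, (F i).eval (n : ℤ)))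

/-- the singular series cut at `z` -/
noncomputable def sing {g : ℕ} (N : ℕ) (G : ℤ[X]) (F : Fin g → ℤ[X]) (z : ℕ) : ℝ :=
  ∏ p ∈ (Icc 1 z).filter Nat.Prime, (1 - (omega N G F p : ℝ) / p) / (1 - 1 / (p : ℝ)) ^ (g + 1)

/-- the main sum -/
noncomputable def mainSum {g : ℕ} (N : ℕ) (G : ℤ[X]) (F : Fin g → ℤ[X]) : ℝ :=
  ∑ n ∈ (Icc 1 N).filter (fun n : ℕ => 2 ≤ (N : ℤ) - G.eval (n : ℤ)),
    1 / (Real.log (((N : ℤ) - G.eval (n : ℤ) : ℤ) : ℝ) * ∏ i, Real.log (((F i).eval (n : ℤ) : ℤ) : ℝ))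

/-- the system -/
noncomputable def sysF {g : ℕ} (N : ℕ) (G : ℤ[X]) (F : Fin g → ℤ[X]) : Fin (g + 1) → ℤ[X] :=
  Fin.cons (C (N : ℤ) - G) F

lemma orig_sys {g : ℕ} (P : Fin (g + 1) → ℤ[X]) (N : ℕ) (c : Fin g → ℤ) (e : Fin (g + 1) → ℕ × ℕ) :
    orig P N c e = sysF N (poly (P 0) (e 0).1 (e 0).2 0) (fun i => poly (P i.succ) (e i.succ).1 (e i.succ).2 (c i)) := by
  unfold orig sysF poly G0
  simp

lemma rho_omega {g : ℕ} (N : ℕ) (G : ℤ[X]) (F : Fin g → ℤ[X]) (p : ℕ) :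
    rho (∏ i, sysF N G F i) 0 p = omega N G F p := by
  unfold rho omega sysF
  congr 1
  apply filter_congr
  intro n _
  rw [Fin.prod_univ_succ]
  simp only [Fin.cons_zero, Fin.cons_succ, Polynomial.eval_mul, Polynomial.eval_sub, Polynomial.eval_C, add_zero,
    Polynomial.eval_prod]

lemma dsys_sing {g : ℕ} (N : ℕ) (G : ℤ[X]) (F : Fin g → ℤ[X]) (z : ℕ) :
    dsys z (sysF N G F) = sing N G F z := by
  unfold dsys hh sing
  rw [Nat.add_sub_cancel, ← mul_assoc, ← pow_succ]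
  unfold Vz
  rw [← prod_inv_distrib, ← prod_pow, ← prod_mul_distrib]
  unfold pz
  refine prod_congr rfl fun p _ => ?_
  rw [rho_omega, inv_pow, div_eq_mul_inv _ ((1 - 1 / (p : ℝ)) ^ (g + 1)), mul_comm]

lemma Q1_eq {g : ℕ} (N : ℕ) (G : ℤ[X]) (F : Fin g → ℤ[X]) : Pool.Agent.Y868.TC.Q1 (sysF N G F) = Q1 N G F := by
  unfold Pool.Agent.Y868.TC.Q1 Q1 sysF
  congr 1
  ext n
  simp only [Set.mem_setOf_eq, Fin.forall_fin_succ, Fin.cons_zero, Fin.cons_succ, Polynomial.eval_sub, Polynomial.eval_C]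

lemma M1_eq {g : ℕ} (N : ℕ) (G : ℤ[X]) (F : Fin g → ℤ[X]) : M1 N (sysF N G F) = mainSum N G F := by
  unfold M1 mainSum lw sysF
  simp only [Fin.cons_zero, Polynomial.eval_sub, Polynomial.eval_C]
  refine sum_congr rfl fun n _ => ?_
  rw [Fin.prod_univ_succ]
  simp only [Fin.cons_zero, Fin.cons_succ, Polynomial.eval_sub, Polynomial.eval_C]
  rw [prod_div_distrib, prod_const_one, one_div_mul_one_div]

lemma rho_lt {g : ℕ} (N : ℕ) (G : ℤ[X]) (F : Fin g → ℤ[X]) (h : NoFixed N G F) (p : ℕ) (hp : p.Prime) :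
    rho (∏ i, sysF N G F i) 0 p < p := by
  rw [rho_omega]
  obtain ⟨n, hn⟩ := h p hp
  have h1 : omega N G F p ≤ #((range p).erase (n % (p : ℤ)).toNat) := by
    unfold omega
    apply card_le_card
    intro a ha
    rw [mem_filter] at ha
    rw [mem_erase]
    refine ⟨?_, ha.1⟩
    intro hcon
    apply hn
    have hp0 : (0 : ℤ) < p := by exact_mod_cast hp.pos
    have h2 : (a : ℤ) ≡ n [ZMOD p] := by
      rw [hcon, Int.toNat_of_nonneg (Int.emod_nonneg _ hp0.ne')]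
      exact Int.mod_modEq _ _
    have h3 : ∀ f : ℤ[X], (p : ℤ) ∣ f.eval n - f.eval (a : ℤ) := by
      intro f
      exact (h2.dvd).trans (Polynomial.sub_dvd_eval_sub _ _ _)
    have h4 := h3 ((C (N : ℤ) - G) * ∏ i, F i)
    simp only [Polynomial.eval_mul, Polynomial.eval_sub, Polynomial.eval_C, Polynomial.eval_prod] at h4
    have h5 := dvd_add h4 ha.2
    rwa [sub_add_cancel] at h5
  have h2 : (n % (p : ℤ)).toNat ∈ range p := by
    have hp0 : (0 : ℤ) < p := by exact_mod_cast hp.pos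
    rw [mem_range]
    have := Int.emod_lt_of_pos n hp0
    have := Int.emod_nonneg n hp0.ne'
    omega
  rw [card_erase_of_mem h2, card_range] at h1
  have := hp.pos
  omega

/-- **Schinzel's Goldbach-type hypothesis for every `N` and almost all systems.** -/
theorem final (g d U K : ℕ) (hd : 2 ≤ d) : ∃ C0 E1 : ℕ, ∀ E : ℕ, ∃ x0 : ℕ, ∀ x : ℕ, x0 ≤ x → ∀ z : ℕ,
    Real.log x ^ E1 ≤ z → (z : ℝ) ≤ Real.log x ^ E → ∀ D B N : ℕ, Real.log x ^ C0 ≤ D → (D : ℝ) ≤ (x : ℝ) ^ K →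
    (D : ℝ) * x ≤ B * Real.log x ^ K → (B : ℝ) ≤ D * x * Real.log x ^ K →
    (B : ℝ) * x ≤ N * Real.log x ^ K → (N : ℝ) * Real.log x ^ (U + 2) ≤ B * x →
    ∀ P : Fin (g + 1) → ℤ[X], (∀ i, (P i).natDegree + 1 ≤ d) → (∀ i j, 0 ≤ (P i).coeff j) →
    (∀ i, (((P i).eval (x : ℤ) : ℤ) : ℝ) ≤ B * Real.log x ^ K) →
    ∀ c : Fin g → ℤ, (∀ i, c i ≠ 0) → (∀ i, ((|c i| : ℤ) : ℝ) * Real.log x ^ (U + 2) ≤ B) →
    ∃ Bad ⊆ Fintype.piFinset (fun _ : Fin (g + 1) => Icc 1 D ×ˢ Icc 1 B),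
      (#Bad : ℝ) ≤ ((D : ℝ) * B) ^ (g + 1) / Real.log x ^ U ∧
      ∀ e ∈ Fintype.piFinset (fun _ : Fin (g + 1) => Icc 1 D ×ˢ Icc 1 B), e ∉ Bad →
        ∀ (G : ℤ[X]) (F : Fin g → ℤ[X]), G = poly (P 0) (e 0).1 (e 0).2 0 →
        (∀ i, F i = poly (P i.succ) (e i.succ).1 (e i.succ).2 (c i)) → NoFixed N G F →
        |(Q1 N G F : ℝ) - sing N G F z * mainSum N G F| ≤ sing N G F z * mainSum N G F / Real.log x ^ U := by
  obtain ⟨C0, E1, h⟩ := goldbach g d U K hd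
  refine ⟨C0, E1, fun E => ?_⟩
  obtain ⟨x0, h0⟩ := h E
  refine ⟨x0, fun x hx z hz1 hz2 D B N hD1 hD2 hDB hBD hNB hNU P hP hPc hPB c hc0 hc => ?_⟩
  obtain ⟨Bad, hB1, hB2, hB3⟩ := h0 x hx z hz1 hz2 D B N hD1 hD2 hDB hBD hNB hNU P hP hPc hPB c hc0 hc
  refine ⟨Bad, hB1, hB2, fun e he hbad G F hG hF hno => ?_⟩
  have hFe : F = fun i => poly (P i.succ) (e i.succ).1 (e i.succ).2 (c i) := funext hF
  subst hG
  subst hFe
  have h1 := hB3 e he hbad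
  rw [orig_sys] at h1
  have h2 := h1 (fun p hp => rho_lt N _ _ hno p (mem_pz.1 hp).2)
  rw [dsys_sing, Q1_eq, M1_eq] at h2
  exact h2

end Pool.Agent.Y868.TC.Gold
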