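import Pool.Agent.Y868.TC.H2

/-! Systems of polynomials, all windows: the form in terms of the polynomials. -/

set_option autoImplicit false

namespace Pool.Agent.Y868.TC.Sys

open Finset Filter
open Polynomial (X C)
open scoped Polynomial
open Pool.Agent.H373R2.T7 (pz Vz lamz mem_pz Vz_inv_small ev_L' Vz_inv_le Vz_pos)
open Pool.Agent.TH204.WR (rho hh vN model rho_le hh_nonneg prod_le_one' prod_nonneg' V_low)
open Pool.Agent.Y868.TA Pool.Agent.Y868.TC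

/-- the polynomial `X (P + a X + b) + c` -/
noncomputable def poly (P : ℤ[X]) (a b : ℕ) (c : ℤ) : ℤ[X] := X * (P + C (a : ℤ) * X + C (b : ℤ)) + C c

/-- the number of `m` with `u < m ≤ v` for which all `|f_i(m)|` are primes -/
noncomputable def count {k : ℕ} (f : Fin k → ℤ[X]) (u v : ℕ) : ℕ :=
  #((Ioc u v).filter (fun m : ℕ => ∀ i, ((f i).eval (m : ℤ)).natAbs.Prime))

/-- the product of the `f_i` has no fixed prime divisor -/
def NoFixed {k : ℕ} (f : Fin k → ℤ[X]) : Prop := ∀ p : ℕ, p.Prime → ∃ n : ℤ, ¬ (p : ℤ) ∣ ∏ i, (f i).eval n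

/-- the number of zeros modulo `p` of the product of the `f_i` -/
noncomputable def omega {k : ℕ} (f : Fin k → ℤ[X]) (p : ℕ) : ℕ :=
  #((range p).filter (fun n : ℕ => (p : ℤ) ∣ ∏ i, (f i).eval (n : ℤ)))

/-- the constant of Bateman and Horn cut at `z` -/
noncomputable def sing {k : ℕ} (f : Fin k → ℤ[X]) (z : ℕ) : ℝ :=
  ∏ p ∈ (Icc 1 z).filter Nat.Prime, (1 - (omega f p : ℝ) / p) / (1 - 1 / (p : ℝ)) ^ k

/-- the sum of `∏ 1 / log |f_i(m)|` over the `m` in `(u, v]` with all `|f_i(m)| ≥ 2` -/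
noncomputable def mainSum {k : ℕ} (f : Fin k → ℤ[X]) (u v : ℕ) : ℝ :=
  ∑ m ∈ (Ioc u v).filter (fun m : ℕ => ∀ i, 2 ≤ |(f i).eval (m : ℤ)|), ∏ i, 1 / Real.log (((|(f i).eval (m : ℤ)| : ℤ)) : ℝ)

lemma rho_omega {k : ℕ} (f : Fin k → ℤ[X]) (p : ℕ) : rho (∏ i, f i) 0 p = omega f p := by
  unfold rho omega
  congr 1
  apply filter_congr
  intro n _
  rw [Polynomial.eval_prod, add_zero]

lemma dsys_sing {k : ℕ} (hk : 1 ≤ k) (f : Fin k → ℤ[X]) (z : ℕ) : dsys z f = sing f z := by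
  unfold dsys hh sing
  rw [← mul_assoc, ← pow_succ, Nat.sub_add_cancel hk]
  unfold Vz
  rw [← prod_inv_distrib, ← prod_pow, ← prod_mul_distrib]
  unfold pz
  refine prod_congr rfl fun p _ => ?_
  rw [rho_omega, inv_pow, div_eq_mul_inv _ ((1 - 1 / (p : ℝ)) ^ k), mul_comm]

/-- few zeros -/
lemma rho_lt' (F : ℤ[X]) (p : ℕ) (hp : p.Prime) (n : ℤ) (hn : ¬ (p : ℤ) ∣ F.eval n) : rho F 0 p < p := by
  have h1 : rho F 0 p ≤ #((range p).erase (n % (p : ℤ)).toNat) := by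
    unfold rho
    apply card_le_card
    intro a ha
    rw [mem_filter] at ha
    rw [mem_erase]
    refine ⟨?_, ha.1⟩
    intro hcon
    apply hn
    have hp0 : (0 : ℤ) < p := by exact_mod_cast hp.pos
    have h2 : (a : ℤ) ≡ n [ZMOD p] := by
      rw [hcon, Int.toNat_of_nonneg (Int.emod_nonneg _ hp0.ne')]
      exact Int.mod_modEq _ _
    have h4 : (p : ℤ) ∣ F.eval n - F.eval (a : ℤ) := (h2.dvd).trans (Polynomial.sub_dvd_eval_sub _ _ _)
    have h5 := dvd_add h4 ha.2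
    rwa [add_zero, sub_add_cancel] at h5
  have h2 : (n % (p : ℤ)).toNat ∈ range p := by
    have hp0 : (0 : ℤ) < p := by exact_mod_cast hp.pos
    rw [mem_range]
    have := Int.emod_lt_of_pos n hp0
    have := Int.emod_nonneg n hp0.ne'
    omega
  rw [card_erase_of_mem h2, card_range] at h1
  have := hp.pos
  omega

/-- **The formula of Bateman and Horn for almost all systems, in all windows.** -/
theorem final (k d U K : ℕ) (hk : 1 ≤ k) (hd : 2 ≤ d) : ∃ C0 E1 : ℕ, ∀ E : ℕ, ∃ x0 : ℕ, ∀ x : ℕ, x0 ≤ x → ∀ z : ℕ,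
    Real.log x ^ E1 ≤ z → (z : ℝ) ≤ Real.log x ^ E → ∀ D B : ℕ, Real.log x ^ C0 ≤ D → (D : ℝ) ≤ (x : ℝ) ^ K →
    (D : ℝ) * x ≤ B * Real.log x ^ K → (B : ℝ) ≤ D * x * Real.log x ^ K →
    ∀ P : Fin k → ℤ[X], (∀ i, (P i).natDegree + 1 ≤ d) →
    (∀ i, ∀ m ∈ Icc 1 x, ((|(P i).eval (m : ℤ)| : ℤ) : ℝ) ≤ B * Real.log x ^ K) →
    ∀ c : Fin k → ℤ, (∀ i, c i ≠ 0) → (∀ i, ((|c i| : ℤ) : ℝ) ≤ B * x * Real.log x ^ K) →
    ∃ Bad ⊆ Fintype.piFinset (fun _ : Fin k => Icc 1 D ×ˢ Icc 1 B),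
      (#Bad : ℝ) ≤ ((D : ℝ) * B) ^ k / Real.log x ^ U ∧
      ∀ e ∈ Fintype.piFinset (fun _ : Fin k => Icc 1 D ×ˢ Icc 1 B), e ∉ Bad →
        ∀ f : Fin k → ℤ[X], (∀ i, f i = poly (P i) (e i).1 (e i).2 (c i)) → (∀ i, 1 ≤ (f i).natDegree) → NoFixed f →
        ∀ u v : ℕ, u ≤ v → v ≤ x →
          |(count f u v : ℝ) - sing f z * mainSum f u v| ≤ sing f z * x / Real.log x ^ U := by
  obtain ⟨C0, E1, h⟩ := sys_abs k d U K hk hd
  refine ⟨C0, E1, fun E => ?_⟩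
  obtain ⟨x0, h0⟩ := h E
  refine ⟨x0, fun x hx z hz1 hz2 D B hD1 hD2 hDB hBD P hP hPB c hc0 hc => ?_⟩
  obtain ⟨Bad, hB1, hB2, hB3⟩ := h0 x hx z hz1 hz2 D B hD1 hD2 hDB hBD P hP hPB c hc0 hc
  refine ⟨Bad, hB1, hB2, fun e he hbad f hf hf1 hno u v huv hvx => ?_⟩
  have hfe : mem1 P c e = f := by
    funext i
    rw [hf i]
    rfl
  have h1 := hB3 e he hbad
  rw [hfe] at h1
  have h2 := h1 hf1 (fun p hp => by
    obtain ⟨n, hn⟩ := hno p (mem_pz.1 hp).2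
    apply rho_lt' _ p (mem_pz.1 hp).2 n
    rwa [Polynomial.eval_prod]) u v huv hvx
  rw [dsys_sing hk] at h2
  unfold cntA lsum at h2
  unfold count mainSum
  convert h2

end Pool.Agent.Y868.TC.Sys
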