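import Pool.Agent.Y868.TC.P3
import Pool.Agent.Y868.TC.H3

/-! Systems of polynomials with prime arguments: the form in terms of the polynomials. -/

set_option autoImplicit false

namespace Pool.Agent.Y868.TC.Arg

open Finset Filter
open Polynomial (X C)
open scoped Polynomial
open Pool.Agent.H373R2.T7 (pz Vz lamz mem_pz Vz_inv_small ev_L' Vz_inv_le Vz_pos)
open Pool.Agent.TH204.WR (rho hh vN model rho_le hh_nonneg prod_le_one' prod_nonneg' V_low)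
open Pool.Agent.Y868.TA Pool.Agent.Y868.TC

/-- the polynomial `X (P + a X + b) + c` -/
noncomputable def poly (P : ℤ[X]) (a b : ℕ) (c : ℤ) : ℤ[X] := X * (P + C (a : ℤ) * X + C (b : ℤ)) + C c

/-- the number of primes `p` with `u < p ≤ v` for which all `|f_i(p)|` are primes -/
noncomputable def count {k : ℕ} (f : Fin k → ℤ[X]) (u v : ℕ) : ℕ :=
  #((Ioc u v).filter (fun p : ℕ => p.Prime ∧ ∀ i, ((f i).eval (p : ℤ)).natAbs.Prime))

/-- the product of `X` and the `f_i` has no fixed prime divisor -/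
def NoFixed {k : ℕ} (f : Fin k → ℤ[X]) : Prop := ∀ p : ℕ, p.Prime → ∃ n : ℤ, ¬ (p : ℤ) ∣ n * ∏ i, (f i).eval n

/-- the number of zeros modulo `p` of the product of `X` and the `f_i` -/
noncomputable def omega {k : ℕ} (f : Fin k → ℤ[X]) (p : ℕ) : ℕ :=
  #((range p).filter (fun n : ℕ => (p : ℤ) ∣ n * ∏ i, (f i).eval (n : ℤ)))

/-- the constant of Bateman and Horn of the system `X, f_1, …, f_k`, cut at `z` -/
noncomputable def sing {k : ℕ} (f : Fin k → ℤ[X]) (z : ℕ) : ℝ :=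
  ∏ p ∈ (Icc 1 z).filter Nat.Prime, (1 - (omega f p : ℝ) / p) / (1 - 1 / (p : ℝ)) ^ (k + 1)

/-- the sum of `1 / log m ∏ 1 / log |f_i(m)|` over the `m ≥ 2` in `(u, v]` with all `|f_i(m)| ≥ 2` -/
noncomputable def mainSum {k : ℕ} (f : Fin k → ℤ[X]) (u v : ℕ) : ℝ :=
  ∑ m ∈ (Ioc u v).filter (fun m : ℕ => 2 ≤ m ∧ ∀ i, 2 ≤ |(f i).eval (m : ℤ)|),
    1 / Real.log m * ∏ i, 1 / Real.log (((|(f i).eval (m : ℤ)| : ℤ)) : ℝ)

lemma rho_omega {k : ℕ} (f : Fin k → ℤ[X]) (p : ℕ) : rho (∏ i, fX f i) 0 p = omega f p := by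
  unfold rho omega
  congr 1
  apply filter_congr
  intro n _
  rw [prod_fX, Polynomial.eval_mul, Polynomial.eval_X, Polynomial.eval_prod, add_zero]

lemma dsys_sing {k : ℕ} (f : Fin k → ℤ[X]) (z : ℕ) : dsys z (fX f) = sing f z := by
  unfold dsys hh sing
  rw [Nat.add_sub_cancel, ← mul_assoc, ← pow_succ]
  unfold Vz
  rw [← prod_inv_distrib, ← prod_pow, ← prod_mul_distrib]
  unfold pz
  refine prod_congr rfl fun p _ => ?_
  rw [rho_omega, inv_pow, div_eq_mul_inv _ ((1 - 1 / (p : ℝ)) ^ (k + 1)), mul_comm]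

lemma count_eq {k : ℕ} (f : Fin k → ℤ[X]) (u v : ℕ) : cntA (fX f) (Ioc u v) = count f u v := by
  unfold cntA count
  congr 1
  apply filter_congr
  intro m _
  rw [Fin.forall_fin_succ]
  unfold fX
  simp only [Fin.cons_zero, Fin.cons_succ, Polynomial.eval_X, Int.natAbs_natCast]

lemma main_eq {k : ℕ} (f : Fin k → ℤ[X]) (u v : ℕ) : lsum (fX f) u v = mainSum f u v := by
  classical
  unfold lsum mainSum
  have e1 : (Ioc u v).filter (fun m : ℕ => ∀ i, 2 ≤ |(fX f i).eval (m : ℤ)|) =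
      (Ioc u v).filter (fun m : ℕ => 2 ≤ m ∧ ∀ i, 2 ≤ |(f i).eval (m : ℤ)|) := by
    apply filter_congr
    intro m _
    rw [Fin.forall_fin_succ]
    unfold fX
    simp only [Fin.cons_zero, Fin.cons_succ, Polynomial.eval_X]
    rw [abs_of_nonneg (by positivity : (0 : ℤ) ≤ (m : ℤ))]
    constructor
    · rintro ⟨h1, h2⟩; exact ⟨by exact_mod_cast h1, h2⟩
    · rintro ⟨h1, h2⟩; exact ⟨by exact_mod_cast h1, h2⟩
  have e2 : ∀ m : ℕ, ∏ i, 1 / Real.log (((|(fX f i).eval (m : ℤ)| : ℤ)) : ℝ) =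
      1 / Real.log m * ∏ i, 1 / Real.log (((|(f i).eval (m : ℤ)| : ℤ)) : ℝ) := by
    intro m
    rw [Fin.prod_univ_succ]
    unfold fX
    simp only [Fin.cons_zero, Fin.cons_succ, Polynomial.eval_X]
    rw [abs_of_nonneg (by positivity : (0 : ℤ) ≤ (m : ℤ))]
    push_cast
    rfl
  simp_rw [e2]
  convert rfl using 2
  exact e1.symm

/-- **The formula of Bateman and Horn with prime arguments for almost all systems, in all windows.** -/
theorem final (k d U K : ℕ) (hk : 1 ≤ k) (hd : 2 ≤ d) : ∃ C0 E1 : ℕ, ∀ E : ℕ, ∃ x0 : ℕ, ∀ x : ℕ, x0 ≤ x → ∀ z : ℕ,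
    Real.log x ^ E1 ≤ z → (z : ℝ) ≤ Real.log x ^ E → ∀ D B : ℕ, Real.log x ^ C0 ≤ D → (D : ℝ) ≤ (x : ℝ) ^ K →
    (D : ℝ) * x ≤ B * Real.log x ^ K → (B : ℝ) ≤ D * x * Real.log x ^ K →
    ∀ P : Fin k → ℤ[X], (∀ i, (P i).natDegree + 1 ≤ d) →
    (∀ i, ∀ m ∈ Icc 1 x, ((|(P i).eval (m : ℤ)| : ℤ) : ℝ) ≤ B * Real.log x ^ K) →
    ∀ c : Fin k → ℤ, (∀ i, c i ≠ 0) → (∀ i, ((|c i| : ℤ) : ℝ) ≤ B * x * Real.log x ^ K) →
    ∃ Bad ⊆ Fintype.piFinset (fun _ : Fin k => Icc 1 D ×ˢ Icc 1 B),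
      (#Bad : ℝ) ≤ ((D : ℝ) * B) ^ k / Real.log x ^ U ∧
      ∀ e ∈ Fintype.piFinset (fun _ : Fin k => Icc 1 D ×ˢ Icc 1 B), e ∉ Bad →
        ∀ f : Fin k → ℤ[X], (∀ i, f i = poly (P i) (e i).1 (e i).2 (c i)) → (∀ i, 1 ≤ (f i).natDegree) → NoFixed f →
        ∀ u v : ℕ, u ≤ v → v ≤ x →
          |(count f u v : ℝ) - sing f z * mainSum f u v| ≤ sing f z * x / Real.log x ^ U := by
  obtain ⟨C0, E1, h⟩ := sysP_abs k d U K hk hd
  refine ⟨C0, E1, fun E => ?_⟩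
  obtain ⟨x0, h0⟩ := h E
  refine ⟨x0, fun x hx z hz1 hz2 D B hD1 hD2 hDB hBD P hP hPB c hc0 hc => ?_⟩
  obtain ⟨Bad, hB1, hB2, hB3⟩ := h0 x hx z hz1 hz2 D B hD1 hD2 hDB hBD P hP hPB c hc0 hc
  refine ⟨Bad, hB1, hB2, fun e he hbad f hf hf1 hno u v huv hvx => ?_⟩
  have hfe : mem1 P c e = f := by
    funext i
    rw [hf i]
    rfl
  have h1 := hB3 e he hbad
  rw [hfe] at h1
  have h2 := h1 hf1 (fun p hp => by
    obtain ⟨n, hn⟩ := hno p (mem_pz.1 hp).2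
    apply Sys.rho_lt' _ p (mem_pz.1 hp).2 n
    rwa [prod_fX, Polynomial.eval_mul, Polynomial.eval_X, Polynomial.eval_prod]) u v huv hvx
  rw [dsys_sing, count_eq, main_eq] at h2
  exact h2

end Pool.Agent.Y868.TC.Arg
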