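import Pool.Agent.Y868.TC.P5
import Pool.Agent.Y868.TC.H3

/-! Every `n` as a sum of a prime and a value of a polynomial at a prime: the form in terms of the polynomial. -/

set_option autoImplicit false

namespace Pool.Agent.Y868.TC.Rep

open Finset Filter
open Polynomial (X C)
open scoped Polynomial
open Pool.Agent.H373R2.T7 (pz Vz lamz mem_pz Vz_inv_small ev_L' Vz_inv_le Vz_pos)
open Pool.Agent.TH204.WR (rho hh vN model rho_le hh_nonneg prod_le_one' prod_nonneg' V_low)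
open Pool.Agent.Y868.TA Pool.Agent.Y868.TC

/-- the polynomial `X (P + a X + b) + c` -/
noncomputable def poly (P : ℤ[X]) (a b : ℕ) (c : ℤ) : ℤ[X] := X * (P + C (a : ℤ) * X + C (b : ℤ)) + C c

/-- the number of representations `n = f(p) + p'` with primes `p, p'` -/
noncomputable def reps (n : ℤ) (f : ℤ[X]) : ℕ := {p : ℕ | p.Prime ∧ (n - f.eval (p : ℤ)).toNat.Prime}.ncard

/-- the product of `X` and `n - f` has no fixed prime divisor -/
def NoFixed (n : ℤ) (f : ℤ[X]) : Prop := ∀ p : ℕ, p.Prime → ∃ m : ℤ, ¬ (p : ℤ) ∣ m * (n - f.eval m)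

/-- the number of zeros modulo `p` of the product of `X` and `n - f` -/
noncomputable def omega (n : ℤ) (f : ℤ[X]) (p : ℕ) : ℕ :=
  #((range p).filter (fun m : ℕ => (p : ℤ) ∣ m * (n - f.eval (m : ℤ))))

/-- the singular series cut at `z` -/
noncomputable def sing (n : ℤ) (f : ℤ[X]) (z : ℕ) : ℝ :=
  ∏ p ∈ (Icc 1 z).filter Nat.Prime, (1 - (omega n f p : ℝ) / p) / (1 - 1 / (p : ℝ)) ^ 2

/-- the sum of `1 / (log m log (n - f(m)))` over `2 ≤ m ≤ x` with `n - f(m) ≥ 2` -/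
noncomputable def mainSum (n : ℤ) (f : ℤ[X]) (x : ℕ) : ℝ :=
  ∑ m ∈ (Icc 2 x).filter (fun m : ℕ => 2 ≤ n - f.eval (m : ℤ)),
    1 / (Real.log m * Real.log ((n - f.eval (m : ℤ) : ℤ) : ℝ))

/-- **Every `n`, almost all polynomials, prime arguments.** -/
theorem final (d U K : ℕ) (hd : 2 ≤ d) : ∃ C0 E1 : ℕ, ∀ E : ℕ, ∃ x0 : ℕ, ∀ x : ℕ, x0 ≤ x → ∀ z : ℕ,
    Real.log x ^ E1 ≤ z → (z : ℝ) ≤ Real.log x ^ E → ∀ D B : ℕ, Real.log x ^ C0 ≤ D → (D : ℝ) ≤ (x : ℝ) ^ K →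
    (D : ℝ) * x ≤ B * Real.log x ^ K → (B : ℝ) ≤ D * x * Real.log x ^ K →
    ∀ n c : ℤ, (B : ℝ) * x ≤ (n - c) * Real.log x ^ K → ((n : ℝ) - c) * Real.log x ^ (U + 2) ≤ B * x →
    ∀ P : ℤ[X], P.natDegree + 1 ≤ d → (∀ j, 0 ≤ P.coeff j) → ((P.eval (x : ℤ) : ℤ) : ℝ) ≤ B * Real.log x ^ K →
    ∃ Bad ⊆ Icc 1 D ×ˢ Icc 1 B, (#Bad : ℝ) ≤ (D : ℝ) * B / Real.log x ^ U ∧
      ∀ q ∈ Icc 1 D ×ˢ Icc 1 B, q ∉ Bad → ∀ f : ℤ[X], f = poly P q.1 q.2 c → NoFixed n f →
        |(reps n f : ℝ) - sing n f z * mainSum n f x| ≤ sing n f z * mainSum n f x / Real.log x ^ U := by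
  obtain ⟨C0, E1, h⟩ := gold_prime d U K hd
  refine ⟨C0, E1, fun E => ?_⟩
  obtain ⟨x0, h0⟩ := h E
  obtain ⟨x1, h1⟩ := ev_L' 1
  refine ⟨max (max x0 x1) 1, fun x hx z hz1 hz2 D B hD1 hD2 hDB hBD n c hnB hnU P hP hPc hPB => ?_⟩
  have hL1 := h1 x (le_trans (le_trans (le_max_right _ _) (le_max_left _ _)) hx)
  have hx1 : 1 ≤ x := le_trans (le_max_right _ _) hx
  have hnc : 0 ≤ n - c := by
    by_contra hcon
    push Not at hcon
    have h5 : ((n : ℝ) - c) ≤ -1 := by exact_mod_cast (by omega : n - c ≤ -1)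
    have h6 : 0 < Real.log x ^ K := by positivity
    have h7 : (0 : ℝ) ≤ (B : ℝ) * x := by positivity
    nlinarith
  obtain ⟨N, hN⟩ : ∃ N : ℕ, (N : ℤ) = n - c := ⟨(n - c).toNat, Int.toNat_of_nonneg hnc⟩
  have hNr : (N : ℝ) = n - c := by exact_mod_cast congrArg (fun t : ℤ => (t : ℝ)) hN
  obtain ⟨Bad, hB1, hB2, hB3⟩ := h0 x (le_trans (le_trans (le_max_left _ _) (le_max_left _ _)) hx) z hz1 hz2 D B N hD1 hD2 hDB hBD
    (by rw [hNr]; exact hnB) (by rw [hNr]; exact hnU) P hP hPc hPB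
  refine ⟨Bad, hB1, hB2, fun q hq hbad f hf hno => ?_⟩
  have hfe : ∀ m : ℤ, n - f.eval m = N - (G0 P q).eval m := by
    intro m
    rw [hf, hN]
    unfold poly G0
    simp only [Polynomial.eval_add, Polynomial.eval_mul, Polynomial.eval_X, Polynomial.eval_C]
    ring
  have h2 := hB3 q hq hbad (fun p hp => by
    obtain ⟨m, hm⟩ := hno p (mem_pz.1 hp).2
    apply Sys.rho_lt' _ p (mem_pz.1 hp).2 m
    rwa [Polynomial.eval_mul, Polynomial.eval_X, Polynomial.eval_sub, Polynomial.eval_C, ← hfe])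
  have e1 : RG N (G0 P q) = reps n f := by
    unfold RG reps
    simp only [hfe]
  have e2 : MG x N (G0 P q) = mainSum n f x := by
    unfold MG mainSum
    simp only [hfe]
  have e3 : dsys z (fX (fun _ : Fin 1 => C (N : ℤ) - G0 P q)) = sing n f z := by
    unfold dsys hh sing
    rw [Nat.add_sub_cancel, ← mul_assoc, ← pow_succ]
    unfold Vz
    rw [← prod_inv_distrib, ← prod_pow, ← prod_mul_distrib]
    unfold pz
    refine prod_congr rfl fun p _ => ?_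
    have e4 : rho (∏ i, fX (fun _ : Fin 1 => C (N : ℤ) - G0 P q) i) 0 p = omega n f p := by
      unfold rho omega
      congr 1
      apply filter_congr
      intro m _
      rw [prod_fX]
      simp only [Finset.univ_unique, prod_singleton]
      rw [Polynomial.eval_mul, Polynomial.eval_X, Polynomial.eval_sub, Polynomial.eval_C, ← hfe, add_zero]
    rw [e4, inv_pow, div_eq_mul_inv _ ((1 - 1 / (p : ℝ)) ^ 2), mul_comm]
  rw [e1, e2, e3] at h2
  exact h2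

end Pool.Agent.Y868.TC.Rep
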