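import Pool.Agent.Y868.TC.S3

/-! Schinzel's Goldbach-type hypothesis for almost all systems with given `N` and given constant terms. -/

set_option autoImplicit false

namespace Pool.Agent.Y868.TC

open Finset Filter
open Polynomial (X C)
open scoped Polynomial
open Pool.Agent.H373R2.T7 (pz Vz lamz mem_pz Vz_inv_small ev_L' Vz_inv_le Vz_pos)
open Pool.Agent.TH204.WR (rho hh vN model rho_le hh_nonneg prod_le_one' prod_nonneg' V_low)
open Pool.Agent.Y868.TA

/-- polynomials with nonnegative coefficients are nonnegative and nondecreasing -/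
lemma eval_nn (P : ℤ[X]) (h : ∀ j, 0 ≤ P.coeff j) (m : ℕ) : 0 ≤ P.eval (m : ℤ) := by
  rw [Polynomial.eval_eq_sum_range]
  exact sum_nonneg fun j _ => mul_nonneg (h j) (by positivity)

lemma eval_mono (P : ℤ[X]) (h : ∀ j, 0 ≤ P.coeff j) (m n : ℕ) (hmn : m ≤ n) : P.eval (m : ℤ) ≤ P.eval (n : ℤ) := by
  rw [Polynomial.eval_eq_sum_range, Polynomial.eval_eq_sum_range]
  refine sum_le_sum fun j _ => mul_le_mul_of_nonneg_left ?_ (h j)
  exact pow_le_pow_left₀ (by positivity) (by exact_mod_cast hmn) j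

/-- the polynomial without constant term -/
noncomputable def G0 (P : ℤ[X]) (q : ℕ × ℕ) : ℤ[X] := X * (P + C (q.1 : ℤ) * X + C (q.2 : ℤ))

lemma G0_eval (P : ℤ[X]) (q : ℕ × ℕ) (m : ℤ) : (G0 P q).eval m = m * (P.eval m + q.1 * m + q.2) := by
  unfold G0; simp

lemma G0_strict (P : ℤ[X]) (h : ∀ j, 0 ≤ P.coeff j) (q : ℕ × ℕ) (hq : 1 ≤ q.2) (m : ℕ) :
    (G0 P q).eval (m : ℤ) < (G0 P q).eval ((m + 1 : ℕ) : ℤ) := by
  rw [G0_eval, G0_eval]
  have h1 := eval_mono P h m (m + 1) (Nat.le_succ m)
  have h0 := eval_nn P h m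
  have hq' : (1 : ℤ) ≤ q.2 := by exact_mod_cast hq
  have hm : (0 : ℤ) ≤ m := by positivity
  have ha : (0 : ℤ) ≤ q.1 := by positivity
  push_cast at h1 ⊢
  nlinarith [mul_le_mul_of_nonneg_left h1 (by linarith : (0 : ℤ) ≤ (m : ℤ) + 1), mul_nonneg ha hm]

/-- the polynomials of the transformed system -/
noncomputable def PG {g : ℕ} (D B : ℕ) (P : Fin (g + 1) → ℤ[X]) : Fin (g + 1) → ℤ[X] :=
  Fin.cons (-(P 0) - C ((D : ℤ) + 1) * X - C ((B : ℤ) + 1)) (fun i => P i.succ)

/-- the constant terms of the transformed system -/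
def cG {g : ℕ} (N : ℕ) (c : Fin g → ℤ) : Fin (g + 1) → ℤ := Fin.cons (N : ℤ) c

/-- the reflection -/
def refl1 {g : ℕ} (D B : ℕ) (e : Fin (g + 1) → ℕ × ℕ) : Fin (g + 1) → ℕ × ℕ :=
  Function.update e 0 (D + 1 - (e 0).1, B + 1 - (e 0).2)

lemma refl1_mem {g : ℕ} (D B : ℕ) (e : Fin (g + 1) → ℕ × ℕ) (he : e ∈ bx D B (g + 1)) : refl1 D B e ∈ bx D B (g + 1) := by
  unfold bx at he ⊢
  rw [Fintype.mem_piFinset] at he ⊢
  intro i
  unfold refl1
  by_cases hi : i = 0
  · subst hi
    rw [Function.update_self]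
    have h1 := he 0
    rw [mem_product, mem_Icc, mem_Icc] at h1 ⊢
    constructor <;> constructor <;> simp only <;> omega
  · rw [Function.update_of_ne hi]
    exact he i

lemma refl1_refl1 {g : ℕ} (D B : ℕ) (e : Fin (g + 1) → ℕ × ℕ) (he : e ∈ bx D B (g + 1)) : refl1 D B (refl1 D B e) = e := by
  unfold bx at he
  rw [Fintype.mem_piFinset] at he
  have h1 := he 0
  rw [mem_product, mem_Icc, mem_Icc] at h1
  unfold refl1
  funext i
  by_cases hi : i = 0
  · subst hi
    rw [Function.update_self, Function.update_self]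
    ext <;> simp only <;> omega
  · rw [Function.update_of_ne hi, Function.update_of_ne hi]

/-- the members of the original system: `N - G` and the `F_i` -/
noncomputable def orig {g : ℕ} (P : Fin (g + 1) → ℤ[X]) (N : ℕ) (c : Fin g → ℤ) (e : Fin (g + 1) → ℕ × ℕ) : Fin (g + 1) → ℤ[X] :=
  Fin.cons (C (N : ℤ) - G0 (P 0) (e 0)) (fun i => G0 (P i.succ) (e i.succ) + C (c i))

lemma orig_eq {g : ℕ} (D B : ℕ) (P : Fin (g + 1) → ℤ[X]) (N : ℕ) (c : Fin g → ℤ) (e : Fin (g + 1) → ℕ × ℕ)
    (he : e ∈ bx D B (g + 1)) : mem1 (PG D B P) (cG N c) (refl1 D B e) = orig P N c e := by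
  unfold bx at he
  rw [Fintype.mem_piFinset] at he
  have h1 := he 0
  rw [mem_product, mem_Icc, mem_Icc] at h1
  funext i
  refine Fin.cases ?_ (fun j => ?_) i
  · unfold mem1 orig refl1 PG cG G0
    simp only [Fin.cons_zero, Function.update_self]
    have e1 : ((D + 1 - (e 0).1 : ℕ) : ℤ) = D + 1 - (e 0).1 := by
      rw [Nat.cast_sub (by omega)]; push_cast; ring
    have e2 : ((B + 1 - (e 0).2 : ℕ) : ℤ) = B + 1 - (e 0).2 := by
      rw [Nat.cast_sub (by omega)]; push_cast; ring
    rw [e1, e2]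
    simp only [Polynomial.C_add, Polynomial.C_sub, Polynomial.C_1]
    ring
  · unfold mem1 orig refl1 PG cG G0
    simp only [Fin.cons_succ, Function.update_of_ne (Fin.succ_ne_zero j)]

/-- the number of positive `n` for which `N - G(n)` and all `F_i(n)` are positive primes -/
noncomputable def Q1 {g : ℕ} (f : Fin (g + 1) → ℤ[X]) : ℕ :=
  {n : ℕ | 1 ≤ n ∧ ∀ i, ((f i).eval (n : ℤ)).toNat.Prime}.ncard

/-- the expected number without the constant -/
noncomputable def M1 {g : ℕ} (N : ℕ) (f : Fin (g + 1) → ℤ[X]) : ℝ :=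
  ∑ n ∈ (Icc 1 N).filter (fun n : ℕ => 2 ≤ (f 0).eval (n : ℤ)), lw f n

/-- **Schinzel's Goldbach-type hypothesis for almost all systems.** -/
theorem goldbach (g d U K : ℕ) (hd : 2 ≤ d) : ∃ C0 E1 : ℕ, ∀ E : ℕ, ∃ x0 : ℕ, ∀ x : ℕ, x0 ≤ x → ∀ z : ℕ,
    Real.log x ^ E1 ≤ z → (z : ℝ) ≤ Real.log x ^ E → ∀ D B N : ℕ, Real.log x ^ C0 ≤ D → (D : ℝ) ≤ (x : ℝ) ^ K →
    (D : ℝ) * x ≤ B * Real.log x ^ K → (B : ℝ) ≤ D * x * Real.log x ^ K →
    (B : ℝ) * x ≤ N * Real.log x ^ K → (N : ℝ) * Real.log x ^ (U + 2) ≤ B * x →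
    ∀ P : Fin (g + 1) → ℤ[X], (∀ i, (P i).natDegree + 1 ≤ d) → (∀ i j, 0 ≤ (P i).coeff j) →
    (∀ i, (((P i).eval (x : ℤ) : ℤ) : ℝ) ≤ B * Real.log x ^ K) →
    ∀ c : Fin g → ℤ, (∀ i, c i ≠ 0) → (∀ i, ((|c i| : ℤ) : ℝ) * Real.log x ^ (U + 2) ≤ B) →
    ∃ Bad ⊆ bx D B (g + 1), (#Bad : ℝ) ≤ ((D : ℝ) * B) ^ (g + 1) / Real.log x ^ U ∧
      ∀ e ∈ bx D B (g + 1), e ∉ Bad → (∀ p ∈ pz z, rho (∏ i, orig P N c e i) 0 p < p) →
        |(Q1 (orig P N c e) : ℝ) - dsys z (orig P N c e) * M1 N (orig P N c e)| ≤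
          dsys z (orig P N c e) * M1 N (orig P N c e) / Real.log x ^ U := by
  classical
  obtain ⟨U1, hU1⟩ : ∃ U1, U1 = U + 2 * K + g + 4 := ⟨_, rfl⟩
  obtain ⟨Q, hQ⟩ : ∃ Q, Q = 2 * ((g + 1) * d) := ⟨_, rfl⟩
  obtain ⟨C0, E1, hs⟩ := sys_final (g + 1) d U1 (K + 1) (by omega) hd
  refine ⟨C0 + K, E1, fun E => ?_⟩
  obtain ⟨x1, h1⟩ := hs E
  obtain ⟨x2, h2⟩ := Vz_inv_small E
  obtain ⟨x3, h3⟩ := ev_L' (64 * ((K : ℝ) + 5) ^ (g + 2) + (2 * (((g + 1) * d : ℕ) : ℝ)) ^ Q + 8 * (g + 2))
  obtain ⟨x4, h4⟩ := evt_polylog (U + 2 * K + Q + g + 10)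
  refine ⟨max (max x1 x2) (max (max x3 x4) 3), fun x hx z hz1 hz2 D B N hD1 hD2 hDB hBD hNB hNU P hP hPc hPB c hc0 hc => ?_⟩
  have b1 := h1 x (le_trans (le_trans (le_max_left _ _) (le_max_left _ _)) hx)
  have b2 := h2 x (le_trans (le_trans (le_max_right _ _) (le_max_left _ _)) hx)
  have b3 := h3 x (le_trans (le_trans (le_trans (le_max_left _ _) (le_max_left _ _)) (le_max_right _ _)) hx)
  have b4 := h4 x (le_trans (le_trans (le_trans (le_max_right _ _) (le_max_left _ _)) (le_max_right _ _)) hx)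
  have hx3 : 3 ≤ x := le_trans (le_trans (le_max_right _ _) (le_max_right _ _)) hx
  set L := Real.log x with hL
  have hK0 : (0 : ℝ) ≤ K := Nat.cast_nonneg _
  have hg0 : (0 : ℝ) ≤ g := Nat.cast_nonneg _
  have q1 : (0 : ℝ) < ((K : ℝ) + 5) ^ (g + 2) := by positivity
  have q1' : (1 : ℝ) ≤ ((K : ℝ) + 5) ^ (g + 2) := one_le_pow₀ (by linarith)
  have q2 : (0 : ℝ) ≤ (2 * (((g + 1) * d : ℕ) : ℝ)) ^ Q := by positivity
  have hL64 : 64 ≤ L := by linarith
  have hLK : 64 * ((K : ℝ) + 5) ^ (g + 2) ≤ L := by linarith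
  have hLQ : (2 * (((g + 1) * d : ℕ) : ℝ)) ^ Q ≤ L := by linarith
  have hLg : 8 * ((g : ℝ) + 2) ≤ L := by linarith
  have hL1 : 1 ≤ L := by linarith
  have hL0 : 0 < L := by linarith
  have hLp : ∀ n : ℕ, 0 < L ^ n := fun n => by positivity
  have hLp1 : ∀ n : ℕ, 1 ≤ L ^ n := fun n => one_le_pow₀ hL1
  have hLL : ∀ {i j : ℕ}, i ≤ j → L ^ i ≤ L ^ j := fun h => pow_le_pow_right₀ hL1 h
  have hx0 : (0 : ℝ) < x := by exact_mod_cast (by omega : 0 < x)
  have hx1r : (1 : ℝ) ≤ x := by exact_mod_cast (by omega : 1 ≤ x)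
  have hD1C : L ^ C0 ≤ D := (hLL (by omega)).trans hD1
  have hD1K : L ^ K ≤ D := (hLL (by omega)).trans hD1
  have hDr : (1 : ℝ) ≤ D := (hLp1 _).trans hD1K
  have hDn : 1 ≤ D := by exact_mod_cast hDr
  have hD0 : (0 : ℝ) < D := by linarith
  have hxB : (x : ℝ) ≤ B := by
    have h7 : (x : ℝ) * L ^ K ≤ B * L ^ K := by
      calc (x : ℝ) * L ^ K ≤ x * D := mul_le_mul_of_nonneg_left hD1K hx0.le
        _ = D * x := mul_comm _ _
        _ ≤ _ := hDB
    exact le_of_mul_le_mul_right h7 (hLp K)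
  have hBr : (1 : ℝ) ≤ B := hx1r.trans hxB
  have hBn : 1 ≤ B := by exact_mod_cast hBr
  have hB0 : (0 : ℝ) < B := by linarith
  have hN1 : 1 ≤ N := by
    rcases Nat.eq_zero_or_pos N with h | h
    · rw [h] at hNB
      push_cast at hNB
      have : 0 < (B : ℝ) * x := by positivity
      linarith
    · exact h
  have hNr : (0 : ℝ) < N := by exact_mod_cast hN1
  have hLK1 : L ^ (K + 1) = L ^ K * L := pow_succ _ _
  have hN_le : (N : ℝ) ≤ B * x := by
    have : (N : ℝ) * 1 ≤ N * L ^ (U + 2) := mul_le_mul_of_nonneg_left (hLp1 _) hNr.le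
    linarith
  -- sizes for the transformed system
  have hPx : ∀ i, ∀ m ∈ Icc 1 x, (((P i).eval (m : ℤ) : ℤ) : ℝ) ≤ B * L ^ K := by
    intro i m hm
    refine le_trans ?_ (hPB i)
    exact_mod_cast eval_mono (P i) (hPc i) m x (mem_Icc.1 hm).2
  have hPx0 : ∀ i, ∀ m : ℕ, (0 : ℝ) ≤ (((P i).eval (m : ℤ) : ℤ) : ℝ) := by
    intro i m
    exact_mod_cast eval_nn (P i) (hPc i) m
  have hBK : (B : ℝ) ≤ B * L ^ K := le_mul_of_one_le_right hB0.le (hLp1 _)
  have hBK1 : (B : ℝ) * L ^ K * 5 ≤ B * L ^ (K + 1) := by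
    rw [hLK1]
    have : 0 < (B : ℝ) * L ^ K := by positivity
    nlinarith
  have hPGb : ∀ i, ∀ m ∈ Icc 1 x, ((|(PG D B P i).eval (m : ℤ)| : ℤ) : ℝ) ≤ B * L ^ (K + 1) := by
    intro i m hm
    refine le_trans ?_ hBK1
    have hmx : (m : ℝ) ≤ x := by exact_mod_cast (mem_Icc.1 hm).2
    refine Fin.cases ?_ (fun j => ?_) i
    · unfold PG
      simp only [Fin.cons_zero, Polynomial.eval_sub, Polynomial.eval_neg, Polynomial.eval_mul, Polynomial.eval_C, Polynomial.eval_X]
      push_cast
      have h5 := hPx 0 m hm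
      have h6 := hPx0 0 m
      have h7 : (D : ℝ) * m ≤ B * L ^ K := (mul_le_mul_of_nonneg_left hmx hD0.le).trans hDB
      have h8 : (m : ℝ) ≤ B * L ^ K := by linarith
      have h9 : (0 : ℝ) ≤ m := Nat.cast_nonneg _
      have h10 : (0 : ℝ) ≤ D * m := by positivity
      rw [abs_le]
      constructor
      · linarith
      · linarith
    · unfold PG
      simp only [Fin.cons_succ]
      have h5 := hPx j.succ m hm
      have h6 := eval_nn (P j.succ) (hPc _) m
      rw [abs_of_nonneg h6]
      have : 0 < (B : ℝ) * L ^ K := by positivity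
      linarith
  have hPGd : ∀ i, (PG D B P i).natDegree + 1 ≤ d := by
    intro i
    refine Fin.cases ?_ (fun j => ?_) i
    · unfold PG
      simp only [Fin.cons_zero]
      have h5 : (-(P 0) - C ((D : ℤ) + 1) * X - C ((B : ℤ) + 1)).natDegree ≤ d - 1 := by
        refine (Polynomial.natDegree_sub_le _ _).trans (max_le ?_ ?_)
        · refine (Polynomial.natDegree_sub_le _ _).trans (max_le ?_ ?_)
          · rw [Polynomial.natDegree_neg]
            have := hP 0
            omega
          · refine (Polynomial.natDegree_C_mul_le _ _).trans ?_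
            rw [Polynomial.natDegree_X]; omega
        · rw [Polynomial.natDegree_C]; omega
      omega
    · unfold PG
      simp only [Fin.cons_succ]
      exact hP _
  have hcr : ∀ i, ((|c i| : ℤ) : ℝ) ≤ B := by
    intro i
    have h5 := hc i
    have h6 : (0 : ℝ) ≤ ((|c i| : ℤ) : ℝ) := by exact_mod_cast abs_nonneg (c i)
    have : ((|c i| : ℤ) : ℝ) * 1 ≤ ((|c i| : ℤ) : ℝ) * L ^ (U + 2) := mul_le_mul_of_nonneg_left (hLp1 _) h6
    linarith
  obtain ⟨Bad1, hB1s, hB1c, hB1⟩ := b1 z hz1 hz2 D B hD1C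
    (hD2.trans (pow_le_pow_right₀ hx1r (Nat.le_succ _)))
    (hDB.trans (mul_le_mul_of_nonneg_left (hLL (Nat.le_succ _)) hB0.le))
    (hBD.trans (mul_le_mul_of_nonneg_left (hLL (Nat.le_succ _)) (by positivity)))
    (PG D B P) hPGd hPGb (cG N c) (by
      intro i
      refine Fin.cases ?_ (fun j => ?_) i
      · unfold cG; simp only [Fin.cons_zero]; exact_mod_cast (by omega : N ≠ 0)
      · unfold cG; simp only [Fin.cons_succ]; exact hc0 j) (by
      intro i
      have h5 : (B : ℝ) * x ≤ B * x * L ^ (K + 1) := le_mul_of_one_le_right (by positivity) (hLp1 _)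
      refine Fin.cases ?_ (fun j => ?_) i
      · unfold cG; simp only [Fin.cons_zero]
        rw [abs_of_nonneg (by positivity : (0 : ℤ) ≤ (N : ℤ))]
        push_cast
        linarith
      · unfold cG; simp only [Fin.cons_succ]
        have h6 : (B : ℝ) * 1 ≤ B * x := mul_le_mul_of_nonneg_left hx1r hB0.le
        have := hcr j
        linarith) ∅
  -- the other exceptional sets
  obtain ⟨t0, ht0⟩ : ∃ t0 : ℕ, t0 = ⌊(N : ℝ) / x⌋₊ := ⟨_, rfl⟩
  obtain ⟨tt, htt⟩ : ∃ tt : Fin (g + 1) → ℕ, tt = Fin.cons t0 (fun i => (c i).natAbs + 3) := ⟨_, rfl⟩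
  have httB : ∀ i, (tt i : ℝ) ≤ B / L ^ (U + 1) := by
    intro i
    rw [htt]
    refine Fin.cases ?_ (fun j => ?_) i
    · simp only [Fin.cons_zero]
      have h5 : (t0 : ℝ) ≤ N / x := by rw [ht0]; exact Nat.floor_le (by positivity)
      refine h5.trans ?_
      rw [div_le_div_iff₀ hx0 (hLp _)]
      have h6 : (N : ℝ) * L ^ (U + 1) ≤ N * L ^ (U + 2) := mul_le_mul_of_nonneg_left (hLL (by omega)) hNr.le
      linarith
    · simp only [Fin.cons_succ]
      push_cast
      rw [le_div_iff₀ (hLp _)]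
      have h5 := hc j
      have h6 : ((c j).natAbs : ℝ) = ((|c j| : ℤ) : ℝ) := Nat.cast_natAbs (c j)
      rw [h6]
      have h6' : (0 : ℝ) ≤ ((|c j| : ℤ) : ℝ) := by exact_mod_cast abs_nonneg (c j)
      have h7 : ((|c j| : ℤ) : ℝ) * L ^ (U + 1) ≤ B / 2 := by
        rw [show U + 2 = U + 1 + 1 by ring, pow_succ] at h5
        have h8 : 0 ≤ ((|c j| : ℤ) : ℝ) * L ^ (U + 1) := mul_nonneg h6' (hLp _).le
        nlinarith
      have h8 : 3 * L ^ (U + 1) ≤ B / 2 := by
        have h9 : L ^ (U + 1) * L ≤ x := by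
          rw [← pow_succ]
          exact (hLL (by omega)).trans b4
        have h10 : 0 < L ^ (U + 1) := hLp _
        nlinarith
      linarith
  set BadJ : Fin (g + 1) → Finset (Fin (g + 1) → ℕ × ℕ) := fun i => (bx D B (g + 1)).filter (fun e => (e i).2 ≤ tt i) with hBadJ
  have hBadJc : ∀ i, (#(BadJ i) : ℝ) ≤ ((D : ℝ) * B) ^ (g + 1) / L ^ (U + 1) := by
    intro i
    have h5 := fiber_count D B (g + 1) hDn hBn i (BadJ i) (filter_subset _ _) (D * tt i) (by
      intro e he
      calc #((Icc 1 D ×ˢ Icc 1 B).filter (fun q => Function.update e i q ∈ BadJ i)) ≤ #(Icc 1 D ×ˢ Icc 1 (tt i)) := by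
            apply card_le_card
            intro q hq
            rw [mem_filter, mem_product] at hq
            have h6 := (mem_filter.1 hq.2).2
            rw [Function.update_self] at h6
            rw [mem_product]
            exact ⟨hq.1.1, mem_Icc.2 ⟨(mem_Icc.1 hq.1.2).1, h6⟩⟩
        _ = D * tt i := by rw [card_product, Nat.card_Icc, Nat.card_Icc, Nat.add_sub_cancel, Nat.add_sub_cancel])
    have hDBr : (0 : ℝ) < (D : ℝ) * B := by positivity
    have h6 : (#(BadJ i) : ℝ) * (D * B) ≤ (D * tt i) * ((D : ℝ) * B) ^ (g + 1) := by exact_mod_cast h5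
    have h7 : (D : ℝ) * tt i ≤ D * (B / L ^ (U + 1)) := mul_le_mul_of_nonneg_left (httB i) hD0.le
    have h8 : (#(BadJ i) : ℝ) * (D * B) ≤ (((D : ℝ) * B) ^ (g + 1) / L ^ (U + 1)) * (D * B) := by
      calc (#(BadJ i) : ℝ) * (D * B) ≤ (D * tt i) * ((D : ℝ) * B) ^ (g + 1) := h6
        _ ≤ (D * (B / L ^ (U + 1))) * ((D : ℝ) * B) ^ (g + 1) := mul_le_mul_of_nonneg_right h7 (by positivity)
        _ = _ := by ring
    exact le_of_mul_le_mul_right h8 hDBr
  refine ⟨Bad1.image (refl1 D B) ∪ univ.biUnion BadJ, ?_, ?_, ?_⟩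
  · apply union_subset
    · intro e he
      rw [mem_image] at he
      obtain ⟨e0, he0, rfl⟩ := he
      exact refl1_mem D B e0 (hB1s he0)
    · intro e he
      rw [mem_biUnion] at he
      obtain ⟨i, _, hi⟩ := he
      exact (mem_filter.1 hi).1
  · have g1 : (#(Bad1.image (refl1 D B) ∪ univ.biUnion BadJ) : ℝ) ≤ #Bad1 + ∑ i, (#(BadJ i) : ℝ) := by
      have a1 := card_union_le (Bad1.image (refl1 D B)) (univ.biUnion BadJ)
      have a2 : #(Bad1.image (refl1 D B)) ≤ #Bad1 := card_image_le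
      have a3 : #(univ.biUnion BadJ) ≤ ∑ i, #(BadJ i) := card_biUnion_le
      exact_mod_cast (by omega : #(Bad1.image (refl1 D B) ∪ univ.biUnion BadJ) ≤ #Bad1 + ∑ i, #(BadJ i))
    have g2 : ∑ i, (#(BadJ i) : ℝ) ≤ ((g : ℝ) + 1) * (((D : ℝ) * B) ^ (g + 1) / L ^ (U + 1)) := by
      refine (sum_le_sum fun i _ => hBadJc i).trans (le_of_eq ?_)
      rw [sum_const, card_univ, Fintype.card_fin, nsmul_eq_mul]
      push_cast
      ring
    have g3 : ((D : ℝ) * B) ^ (g + 1) / L ^ U1 ≤ ((D : ℝ) * B) ^ (g + 1) / L ^ (U + 1) :=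
      div_le_div_of_nonneg_left (by positivity) (hLp _) (hLL (by omega))
    have g4 : ((g : ℝ) + 2) * (((D : ℝ) * B) ^ (g + 1) / L ^ (U + 1)) ≤ ((D : ℝ) * B) ^ (g + 1) / L ^ U := by
      rw [pow_succ L U]
      have e1 : ((g : ℝ) + 2) * (((D : ℝ) * B) ^ (g + 1) / (L ^ U * L)) = (((g : ℝ) + 2) / L) * (((D : ℝ) * B) ^ (g + 1) / L ^ U) := by
        field_simp
      rw [e1]
      calc (((g : ℝ) + 2) / L) * (((D : ℝ) * B) ^ (g + 1) / L ^ U) ≤ 1 * (((D : ℝ) * B) ^ (g + 1) / L ^ U) := by
            apply mul_le_mul_of_nonneg_right _ (by positivity)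
            rw [div_le_one hL0]
            linarith
        _ = _ := one_mul _
    linarith
  · intro e he hbad hrho
    rw [mem_union, not_or] at hbad
    obtain ⟨hbad1, hbad2⟩ := hbad
    have he' := refl1_mem D B e he
    have hn1 : refl1 D B e ∉ Bad1 := by
      intro h
      apply hbad1
      rw [mem_image]
      exact ⟨_, h, refl1_refl1 D B e he⟩
    have hbig : ∀ i, tt i < (e i).2 := by
      intro i
      by_contra hcon
      push Not at hcon
      apply hbad2
      rw [mem_biUnion]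
      exact ⟨i, mem_univ i, mem_filter.2 ⟨he, hcon⟩⟩
    have hebox := fun i => Fintype.mem_piFinset.1 he i
    have hf := orig_eq D B P N c e he
    have key := hB1 (refl1 D B e) he' hn1
    rw [hf] at key
    set f := orig P N c e with hfd
    have hf0 : f 0 = C (N : ℤ) - G0 (P 0) (e 0) := by rw [hfd]; rfl
    have hfs : ∀ j : Fin g, f j.succ = G0 (P j.succ) (e j.succ) + C (c j) := fun j => by rw [hfd]; rfl
    -- the first member
    have hf0e : ∀ m : ℕ, (f 0).eval (m : ℤ) = N - m * ((P 0).eval (m : ℤ) + (e 0).1 * m + (e 0).2) := by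
      intro m
      rw [hf0, Polynomial.eval_sub, Polynomial.eval_C, G0_eval]
    have hfse : ∀ (j : Fin g) (m : ℕ), (f j.succ).eval (m : ℤ) = m * ((P j.succ).eval (m : ℤ) + (e j.succ).1 * m + (e j.succ).2) + c j := by
      intro j m
      rw [hfs, Polynomial.eval_add, Polynomial.eval_C, G0_eval]
    have he01 : 1 ≤ (e 0).1 ∧ (e 0).1 ≤ D := mem_Icc.1 (mem_product.1 (hebox 0)).1
    have he02 : 1 ≤ (e 0).2 ∧ (e 0).2 ≤ B := mem_Icc.1 (mem_product.1 (hebox 0)).2
    have hdec : ∀ m : ℕ, (f 0).eval ((m + 1 : ℕ) : ℤ) < (f 0).eval (m : ℤ) := by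
      intro m
      have := G0_strict (P 0) (hPc 0) (e 0) he02.1 m
      rw [hf0, Polynomial.eval_sub, Polynomial.eval_sub, Polynomial.eval_C, Polynomial.eval_C]
      linarith
    have hdec' : ∀ m n : ℕ, m < n → (f 0).eval (n : ℤ) < (f 0).eval (m : ℤ) := by
      intro m n hmn
      induction n, hmn using Nat.le_induction with
      | base => exact hdec m
      | succ n _ ih => exact (hdec n).trans ih
    -- beyond `x` the first member is negative
    have hneg : (f 0).eval (((x : ℕ) : ℤ)) < 0 := by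
      rw [hf0e]
      have h5 : (t0 : ℕ) < (e 0).2 := by
        have := hbig 0
        rw [htt] at this
        simpa using this
      have h6 : (N : ℝ) / x < (e 0).2 := by
        have h7 := Nat.lt_floor_add_one ((N : ℝ) / x)
        rw [← ht0] at h7
        have h8 : ((t0 : ℕ) : ℝ) + 1 ≤ (e 0).2 := by exact_mod_cast h5
        linarith
      rw [div_lt_iff₀ hx0] at h6
      have h7 : (N : ℤ) < (e 0).2 * x := by exact_mod_cast h6
      have h8 := eval_nn (P 0) (hPc 0) x
      have h9 : (0 : ℤ) ≤ x * ((P 0).eval (x : ℤ) + (e 0).1 * x) := by positivity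
      nlinarith
    -- the last `n` with `N - G(n) ≥ 3`
    have hfs3 : ∀ (j : Fin g) (m : ℕ), 1 ≤ m → 3 ≤ (f j.succ).eval (m : ℤ) := by
      intro j m hm
      rw [hfse]
      have h5 : (c j).natAbs + 3 < (e j.succ).2 := by
        have := hbig j.succ
        rw [htt] at this
        simpa using this
      have h6 : |c j| + 3 < ((e j.succ).2 : ℤ) := by
        have : (((c j).natAbs + 3 : ℕ) : ℤ) < ((e j.succ).2 : ℤ) := by exact_mod_cast h5
        push_cast at this
        exact this
      have h7 := eval_nn (P j.succ) (hPc _) m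
      have h8 : (1 : ℤ) ≤ m := by exact_mod_cast hm
      have h9 := neg_abs_le (c j)
      have h10 : (0 : ℤ) ≤ (P j.succ).eval (m : ℤ) + (e j.succ).1 * m := by positivity
      have h11 : (0 : ℤ) ≤ |c j| := abs_nonneg _
      nlinarith
    obtain ⟨v, hv⟩ : ∃ v, v = #((Icc 1 x).filter (fun n : ℕ => 3 ≤ (f 0).eval (n : ℤ))) := ⟨_, rfl⟩
    have hvset : (Icc 1 x).filter (fun n : ℕ => 3 ≤ (f 0).eval (n : ℤ)) = Ioc 0 v := by
      have hdown : ∀ m n : ℕ, m ≤ n → 3 ≤ (f 0).eval (n : ℤ) → 3 ≤ (f 0).eval (m : ℤ) := by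
        intro m n hmn h
        rcases hmn.eq_or_lt with rfl | hlt
        · exact h
        · exact h.trans (hdec' m n hlt).le
      have h5 : Ioc 0 v ⊆ (Icc 1 x).filter (fun n : ℕ => 3 ≤ (f 0).eval (n : ℤ)) := by
        intro n hn
        rw [mem_Ioc] at hn
        by_contra hcon
        have h6 : (Icc 1 x).filter (fun n : ℕ => 3 ≤ (f 0).eval (n : ℤ)) ⊆ Ioo 0 n := by
          intro m hm
          rw [mem_filter, mem_Icc] at hm
          rw [mem_Ioo]
          refine ⟨by omega, ?_⟩
          by_contra hmn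
          push Not at hmn
          apply hcon
          rw [mem_filter, mem_Icc]
          exact ⟨⟨by omega, by omega⟩, hdown n m hmn hm.2⟩
        have h7 := card_le_card h6
        rw [← hv, Nat.card_Ioo] at h7
        omega
      exact (eq_of_subset_of_card_le h5 (by rw [← hv, Nat.card_Ioc]; omega)).symm
    have hv3 : ∀ m ∈ Ioc 0 v, 3 ≤ (f 0).eval (m : ℤ) := by
      intro m hm
      rw [← hvset] at hm
      exact (mem_filter.1 hm).2
    have hvx : v < x := by
      by_contra hcon
      push Not at hcon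
      have h5 := hv3 x (mem_Ioc.2 ⟨by omega, hcon⟩)
      linarith
    have hall3 : ∀ i, ∀ m ∈ Ioc 0 v, 3 ≤ (f i).eval (m : ℤ) := by
      intro i m hm
      refine Fin.cases ?_ (fun j => ?_) i
      · exact hv3 m hm
      · exact hfs3 j m (by rw [mem_Ioc] at hm; omega)
    -- `v` is large
    have hvlow : (x : ℝ) / (4 * L ^ (2 * K)) ≤ v := by
      obtain ⟨y, hy⟩ : ∃ y : ℕ, y = ⌊(x : ℝ) / (4 * L ^ (2 * K))⌋₊ + 1 := ⟨_, rfl⟩
      have hyr : (x : ℝ) / (4 * L ^ (2 * K)) ≤ y := by
        have := Nat.lt_floor_add_one ((x : ℝ) / (4 * L ^ (2 * K)))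
        rw [hy]
        push_cast
        linarith
      have hy2 : (y : ℝ) ≤ x / (4 * L ^ (2 * K)) + 1 := by
        have := Nat.floor_le (show 0 ≤ (x : ℝ) / (4 * L ^ (2 * K)) by positivity)
        rw [hy]
        push_cast
        linarith
      have hone : 1 ≤ (x : ℝ) / (64 * L ^ (2 * K)) := by
        rw [le_div_iff₀ (by positivity), one_mul]
        calc 64 * L ^ (2 * K) ≤ L * L ^ (2 * K) := mul_le_mul_of_nonneg_right hL64 (hLp _).le
          _ = L ^ (2 * K + 1) := by rw [pow_succ]; ring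
          _ ≤ _ := (hLL (by omega)).trans b4
      have hy3 : (y : ℝ) ≤ (17 / 64) * (x / L ^ (2 * K)) := by
        have e1 : (x : ℝ) / (4 * L ^ (2 * K)) = (1 / 4) * (x / L ^ (2 * K)) := by field_simp
        have e2 : (x : ℝ) / (64 * L ^ (2 * K)) = (1 / 64) * (x / L ^ (2 * K)) := by field_simp
        rw [e1] at hy2
        rw [e2] at hone
        linarith
      have hyx : y ≤ x := by
        have h5 : (x : ℝ) / L ^ (2 * K) ≤ x := div_le_self hx0.le (hLp1 _)
        have : (y : ℝ) ≤ x := by linarith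
        exact_mod_cast this
      have hy1 : 1 ≤ y := by omega
      have h5 : 3 ≤ (f 0).eval (y : ℤ) := by
        rw [hf0e]
        have h6 := hPx 0 y (mem_Icc.2 ⟨hy1, hyx⟩)
        have h7 : ((e 0).1 : ℝ) * y ≤ B * L ^ K := by
          calc ((e 0).1 : ℝ) * y ≤ D * x := by
                apply mul_le_mul (by exact_mod_cast he01.2) (by exact_mod_cast hyx) (by positivity) hD0.le
            _ ≤ _ := hDB
        have h8 : ((e 0).2 : ℝ) ≤ B * L ^ K := by
          have : ((e 0).2 : ℝ) ≤ B := by exact_mod_cast he02.2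
          linarith
        have h9 : (y : ℝ) * ((((P 0).eval (y : ℤ) : ℤ) : ℝ) + (e 0).1 * y + (e 0).2) ≤ (51 / 64) * N := by
          calc (y : ℝ) * ((((P 0).eval (y : ℤ) : ℤ) : ℝ) + (e 0).1 * y + (e 0).2) ≤
              ((17 / 64) * (x / L ^ (2 * K))) * (3 * (B * L ^ K)) := by
                apply mul_le_mul hy3 (by linarith) _ (by positivity)
                have := hPx0 0 y
                positivity
            _ = (51 / 64) * ((B * x) / L ^ K) := by
                rw [two_mul, pow_add]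
                have := (hLp K).ne'
                field_simp
                norm_num
            _ ≤ (51 / 64) * N := by
                apply mul_le_mul_of_nonneg_left _ (by norm_num)
                rw [div_le_iff₀ (hLp K)]
                exact hNB
        have h10 : (64 : ℝ) ≤ N := by
          have h11 : (x : ℝ) * L ^ K ≤ N * L ^ K := by
            have h13 : L ^ K ≤ x := (hLL (by omega)).trans b4
            have h12 : (x : ℝ) * L ^ K ≤ x * B :=
              mul_le_mul_of_nonneg_left (h13.trans hxB) hx0.le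
            linarith
          have h12 : (x : ℝ) ≤ N := le_of_mul_le_mul_right h11 (hLp K)
          have h13 : L ≤ x := by
            have := (hLL (show 1 ≤ U + 2 * K + Q + g + 10 by omega)).trans b4
            rwa [pow_one] at this
          linarith
        have h11 : (3 : ℝ) ≤ ((N - y * ((P 0).eval (y : ℤ) + (e 0).1 * y + (e 0).2) : ℤ) : ℝ) := by
          push_cast
          linarith
        exact_mod_cast h11
      have h6 : y ∈ Ioc 0 v := by
        rw [← hvset, mem_filter, mem_Icc]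
        exact ⟨⟨hy1, hyx⟩, h5⟩
      have h7 : (y : ℝ) ≤ v := by exact_mod_cast (mem_Ioc.1 h6).2
      linarith
    have hxQ : L ^ (U + 2 * K + Q + g + 10) ≤ x := b4
    have hvpos : 0 < v := by
      have : (0 : ℝ) < v := lt_of_lt_of_le (by positivity) hvlow
      exact_mod_cast this
    obtain ⟨-, key2⟩ := key 0 v hvpos hvx.le hall3
    have key3 := key2 hrho
    set S := dsys z f with hS
    set Mv := ∑ m ∈ Ioc 0 v, lw f m with hMv
    -- size of the members
    have hz1' : 1 ≤ z := by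
      have : (1 : ℝ) ≤ z := (hLp1 _).trans hz1
      exact_mod_cast this
    have hV := b2 z hz1' hz2
    have hfdeg : ∀ i, (f i).natDegree ≤ d := by
      intro i
      have h5 := mem1_deg hd (PG D B P) hPGd (cG N c) (refl1 D B e) i
      rwa [hf] at h5
    have hSlow := dsys_low z (g + 1) d (by omega) (by omega) f hfdeg hrho L hV hL1
    rw [← hQ, ← hS] at hSlow
    have hGd : (0 : ℝ) < (2 * (((g + 1) * d : ℕ) : ℝ)) ^ Q := by
      have : (1 : ℝ) ≤ (((g + 1) * d : ℕ) : ℝ) := by
        exact_mod_cast (by nlinarith : 1 ≤ (g + 1) * d)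
      positivity
    have hSl : 1 / L ^ (Q + 1) ≤ S := by
      refine le_trans ?_ hSlow
      apply one_div_le_one_div_of_le (by positivity)
      rw [pow_succ, mul_comm (L ^ Q)]
      exact mul_le_mul_of_nonneg_right hLQ (hLp _).le
    have hS0 : 0 < S := lt_of_lt_of_le (by positivity) hSl
    have hsz : ∀ i, ∀ m ∈ Ioc 0 v, Real.log (((f i).eval (m : ℤ) : ℤ) : ℝ) ≤ (K + 5) * L := by
      intro i m hm
      have h3' : (3 : ℝ) ≤ (((f i).eval (m : ℤ) : ℤ) : ℝ) := by exact_mod_cast hall3 i m hm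
      have hm1 := mem_Ioc.1 hm
      have hmx : m ∈ Icc 1 x := mem_Icc.2 ⟨by omega, by omega⟩
      have hmr : (m : ℝ) ≤ x := by exact_mod_cast (mem_Icc.1 hmx).2
      have hup : (((f i).eval (m : ℤ) : ℤ) : ℝ) ≤ (x : ℝ) ^ (K + 5) := by
        have hBx : (B : ℝ) * L ^ K ≤ x ^ (K + 3) := by
          have h5 : L ^ K ≤ x := (hLL (by omega)).trans hxQ
          calc (B : ℝ) * L ^ K ≤ (D * x * L ^ K) * L ^ K := mul_le_mul_of_nonneg_right hBD (hLp _).le
            _ = D * x * L ^ (2 * K) := by rw [two_mul, pow_add]; ring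
            _ ≤ x ^ K * x * x := by
                apply mul_le_mul (mul_le_mul_of_nonneg_right hD2 hx0.le) _ (hLp _).le (by positivity)
                exact (hLL (by omega)).trans hxQ
            _ = x ^ (K + 2) := by ring
            _ ≤ x ^ (K + 3) := pow_le_pow_right₀ hx1r (by omega)
        have hx4 : (4 : ℝ) ≤ x := by
          have h13 := (hLL (show 1 ≤ U + 2 * K + Q + g + 10 by omega)).trans hxQ
          rw [pow_one] at h13
          linarith
        refine Fin.cases ?_ (fun j => ?_) i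
        · rw [hf0e]
          have h5 : (0 : ℝ) ≤ (m : ℝ) * ((((P 0).eval (m : ℤ) : ℤ) : ℝ) + (e 0).1 * m + (e 0).2) := by
            have := hPx0 0 m
            positivity
          push_cast
          have h6 : (B : ℝ) * x ≤ x ^ (K + 5) := by
            calc (B : ℝ) * x ≤ (B * L ^ K) * x := mul_le_mul_of_nonneg_right hBK hx0.le
              _ ≤ x ^ (K + 3) * x := mul_le_mul_of_nonneg_right hBx hx0.le
              _ = x ^ (K + 4) := by ring
              _ ≤ x ^ (K + 5) := pow_le_pow_right₀ hx1r (by omega)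
          linarith
        · rw [hfse]
          push_cast
          have hej := hebox j.succ
          rw [mem_product, mem_Icc, mem_Icc] at hej
          have h5 := hPx j.succ m hmx
          have h5' := hPx0 j.succ m
          have h7 : ((e j.succ).1 : ℝ) * m ≤ B * L ^ K := by
            calc ((e j.succ).1 : ℝ) * m ≤ D * x := by
                  apply mul_le_mul (by exact_mod_cast hej.1.2) hmr (by positivity) hD0.le
              _ ≤ _ := hDB
          have h8 : ((e j.succ).2 : ℝ) ≤ B * L ^ K := by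
            have : ((e j.succ).2 : ℝ) ≤ B := by exact_mod_cast hej.2.2
            linarith
          have h9 : ((c j : ℤ) : ℝ) ≤ B := by
            have : ((c j : ℤ) : ℝ) ≤ ((|c j| : ℤ) : ℝ) := by exact_mod_cast le_abs_self (c j)
            have := hcr j
            linarith
          have h10 : (m : ℝ) * ((((P j.succ).eval (m : ℤ) : ℤ) : ℝ) + (e j.succ).1 * m + (e j.succ).2) ≤ x * (3 * (B * L ^ K)) := by
            apply mul_le_mul hmr (by linarith) (by positivity) hx0.le
          have h11 : (x : ℝ) * (3 * (B * L ^ K)) + B ≤ x ^ (K + 5) := by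
            have h12 : (B : ℝ) ≤ x * (B * L ^ K) := by
              calc (B : ℝ) ≤ B * L ^ K := hBK
                _ = 1 * (B * L ^ K) := (one_mul _).symm
                _ ≤ x * (B * L ^ K) := mul_le_mul_of_nonneg_right hx1r (by positivity)
            calc (x : ℝ) * (3 * (B * L ^ K)) + B ≤ 4 * (x * (B * L ^ K)) := by linarith
              _ ≤ x * (x * x ^ (K + 3)) := by
                  apply mul_le_mul hx4 _ (by positivity) hx0.le
                  exact mul_le_mul_of_nonneg_left hBx hx0.le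
              _ = x ^ (K + 5) := by ring
          linarith
      have h5 := Real.log_le_log (by linarith) hup
      rw [Real.log_pow] at h5
      push_cast at h5
      exact h5
    have hlwlow : ∀ m ∈ Ioc 0 v, 1 / ((K + 5) * L) ^ (g + 1) ≤ lw f m := by
      intro m hm
      unfold lw
      have h5 : ∏ _i : Fin (g + 1), 1 / (((K : ℝ) + 5) * L) = 1 / ((K + 5) * L) ^ (g + 1) := by
        rw [prod_const, card_univ, Fintype.card_fin, one_div_pow]
      rw [← h5]
      apply Finset.prod_le_prod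
      · intro i _; positivity
      · intro i _
        apply one_div_le_one_div_of_le _ (hsz i m hm)
        have h3' : (3 : ℝ) ≤ (((f i).eval (m : ℤ) : ℤ) : ℝ) := by exact_mod_cast hall3 i m hm
        exact Real.log_pos (by linarith)
    have hMlow : x / (L ^ (2 * K + g + 2)) ≤ Mv := by
      have h5 : (v : ℝ) * (1 / ((K + 5) * L) ^ (g + 1)) ≤ Mv := by
        calc (v : ℝ) * (1 / ((K + 5) * L) ^ (g + 1)) = ∑ _m ∈ Ioc 0 v, 1 / (((K : ℝ) + 5) * L) ^ (g + 1) := by
              rw [sum_const, Nat.card_Ioc, nsmul_eq_mul, Nat.sub_zero]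
          _ ≤ Mv := sum_le_sum hlwlow
      refine le_trans ?_ h5
      calc (x : ℝ) / (L ^ (2 * K + g + 2)) = (x / (4 * L ^ (2 * K))) * (4 / L ^ (g + 2)) := by
            rw [show 2 * K + g + 2 = 2 * K + (g + 2) by ring, pow_add]
            field_simp
        _ ≤ v * (1 / ((K + 5) * L) ^ (g + 1)) := by
            apply mul_le_mul hvlow _ (by positivity) (by positivity)
            rw [mul_pow, div_le_div_iff₀ (by positivity) (by positivity), one_mul, pow_succ L (g + 1)]
            have h6 : ((K : ℝ) + 5) ^ (g + 1) ≤ ((K : ℝ) + 5) ^ (g + 2) := pow_le_pow_right₀ (by linarith) (by omega)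
            have h7 : 4 * ((K : ℝ) + 5) ^ (g + 1) ≤ L := by linarith
            calc 4 * (((K : ℝ) + 5) ^ (g + 1) * L ^ (g + 1)) = (4 * ((K : ℝ) + 5) ^ (g + 1)) * L ^ (g + 1) := by ring
              _ ≤ L * L ^ (g + 1) := mul_le_mul_of_nonneg_right h7 (hLp _).le
              _ = _ := by ring
    -- the three error terms
    have hMv0 : 0 < Mv := lt_of_lt_of_le (by positivity) hMlow
    have hSM : 0 < S * Mv / L ^ U := by positivity
    have err1 : S * x / L ^ U1 ≤ (1 / 4) * (S * Mv / L ^ U) := by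
      have e1 : S * x / L ^ U1 = (1 / L ^ 2) * (S * (x / (L ^ (2 * K + g + 2))) / L ^ U) := by
        rw [hU1, show U + 2 * K + g + 4 = U + (2 * K + g + 2) + 2 by ring, pow_add L (U + (2 * K + g + 2)) 2, pow_add L U (2 * K + g + 2)]
        field_simp
      rw [e1]
      apply mul_le_mul
      · apply one_div_le_one_div_of_le (by norm_num)
        nlinarith
      · apply div_le_div_of_nonneg_right _ (hLp _).le
        exact mul_le_mul_of_nonneg_left hMlow hS0.le
      · positivity
      · norm_num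
    have hbigSM : 8 * (1 + 2 * S) ≤ S * Mv / L ^ U := by
      have h5 : L ^ (Q + 1) * S ≥ 1 := by
        rw [div_le_iff₀ (hLp _)] at hSl
        linarith
      have h6 : L ^ (Q + U + 8) ≤ Mv := by
        refine le_trans ?_ hMlow
        rw [le_div_iff₀ (hLp _), ← pow_add]
        exact (hLL (by omega)).trans hxQ
      rw [le_div_iff₀ (hLp _)]
      have h7 : S * L ^ (Q + U + 8) ≤ S * Mv := mul_le_mul_of_nonneg_left h6 hS0.le
      refine le_trans ?_ h7
      have e1 : S * L ^ (Q + U + 8) = (L ^ (Q + 1) * S) * L ^ U * L ^ 7 := by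
        rw [show Q + U + 8 = Q + 1 + U + 7 by ring, pow_add L (Q + 1 + U) 7, pow_add L (Q + 1) U]
        ring
      have h8 : (16 : ℝ) ≤ L ^ 7 / 2 := by
        have : L ≤ L ^ 7 := le_self_pow₀ hL1 (by norm_num)
        linarith
      have h9 : L ^ U * 8 ≤ (L ^ (Q + 1) * S) * L ^ U * (L ^ 7 / 2) := by
        have h10 : L ^ U * 1 ≤ L ^ U * (L ^ (Q + 1) * S) := mul_le_mul_of_nonneg_left h5 (hLp _).le
        have h11 := mul_le_mul h10 (show (8 : ℝ) ≤ L ^ 7 / 2 by linarith) (by norm_num) (by positivity)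
        linarith
      have h10 : L ^ U * (16 * S) ≤ (L ^ (Q + 1) * S) * L ^ U * (L ^ 7 / 2) := by
        have h11 : (1 : ℝ) ≤ L ^ (Q + 1) := hLp1 _
        have h12 : 16 * 1 ≤ (L ^ 7 / 2) * L ^ (Q + 1) := mul_le_mul h8 h11 (by norm_num) (by positivity)
        have h13 := mul_le_mul_of_nonneg_left h12 (show 0 ≤ L ^ U * S by positivity)
        linarith
      rw [e1]
      linarith
    -- comparison of `Q1` and the count
    have hQset : (cnt f (Ioc 0 v) : ℝ) ≤ Q1 f ∧ (Q1 f : ℝ) ≤ cnt f (Ioc 0 v) + 1 := by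
      have hsub1 : (((Ioc 0 v).filter (fun m : ℕ => ∀ i, ((f i).eval (m : ℤ)).toNat.Prime) : Finset ℕ) : Set ℕ) ⊆
          {n : ℕ | 1 ≤ n ∧ ∀ i, ((f i).eval (n : ℤ)).toNat.Prime} := by
        intro m hm
        rw [mem_coe, mem_filter, mem_Ioc] at hm
        exact ⟨by omega, hm.2⟩
      obtain ⟨w0, hw0⟩ : ∃ w0 : ℕ, w0 = v + 1 := ⟨_, rfl⟩
      have hsub2 : {n : ℕ | 1 ≤ n ∧ ∀ i, ((f i).eval (n : ℤ)).toNat.Prime} ⊆
          ((insert w0 ((Ioc 0 v).filter (fun m : ℕ => ∀ i, ((f i).eval (m : ℤ)).toNat.Prime)) : Finset ℕ) : Set ℕ) := by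
        rintro n ⟨hn1, hn2⟩
        rw [mem_coe, mem_insert, mem_filter, mem_Ioc]
        by_cases hnv : n ≤ v
        · exact Or.inr ⟨⟨by omega, hnv⟩, hn2⟩
        · left
          by_contra hne
          have h5 : v + 1 < n := by omega
          have h6 := hn2 0
          have h7 : (f 0).eval ((v + 1 : ℕ) : ℤ) ≤ 2 := by
            by_contra hcon
            push Not at hcon
            have h8 : v + 1 ∈ Ioc 0 v := by
              rw [← hvset, mem_filter, mem_Icc]
              exact ⟨⟨by omega, by omega⟩, by omega⟩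
            rw [mem_Ioc] at h8
            omega
          have h8 := hdec' (v + 1) n h5
          have h9 : (f 0).eval (n : ℤ) ≤ 1 := by omega
          have h10 : ((f 0).eval (n : ℤ)).toNat ≤ 1 := by omega
          have := h6.two_le
          omega
      have hfin : ((insert w0 ((Ioc 0 v).filter (fun m : ℕ => ∀ i, ((f i).eval (m : ℤ)).toNat.Prime)) : Finset ℕ) : Set ℕ).Finite :=
        finite_toSet _
      have a1 := Set.ncard_le_ncard hsub1 (hfin.subset hsub2)
      have a2 := Set.ncard_le_ncard hsub2 hfin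
      rw [Set.ncard_coe_finset] at a1 a2
      have a3 := card_insert_le w0 ((Ioc 0 v).filter (fun m : ℕ => ∀ i, ((f i).eval (m : ℤ)).toNat.Prime))
      unfold Q1 cnt
      constructor
      · exact_mod_cast a1
      · exact_mod_cast a2.trans a3
    -- comparison of the main terms
    have hMcomp : Mv ≤ M1 N f ∧ M1 N f ≤ Mv + 2 := by
      have hvN : v ≤ N := by
        have h5 := hv3 v (mem_Ioc.2 ⟨hvpos, le_rfl⟩)
        rw [hf0e] at h5
        have h6 := eval_nn (P 0) (hPc 0) v
        have h7 : (0 : ℤ) ≤ v := by positivity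
        have h8 : (1 : ℤ) ≤ (e 0).2 := by exact_mod_cast he02.1
        have h9 : (0 : ℤ) ≤ v * ((P 0).eval (v : ℤ) + (e 0).1 * v) := by positivity
        have h10 : (v : ℤ) ≤ N := by nlinarith
        exact_mod_cast h10
      have hsub1 : Ioc 0 v ⊆ (Icc 1 N).filter (fun n : ℕ => 2 ≤ (f 0).eval (n : ℤ)) := by
        intro m hm
        have h5 := hv3 m hm
        rw [mem_Ioc] at hm
        rw [mem_filter, mem_Icc]
        exact ⟨⟨by omega, by omega⟩, by omega⟩
      have hnn : ∀ m ∈ (Icc 1 N).filter (fun n : ℕ => 2 ≤ (f 0).eval (n : ℤ)), 0 ≤ lw f m := by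
        intro m hm
        rw [mem_filter, mem_Icc] at hm
        unfold lw
        apply prod_nonneg
        intro i _
        apply one_div_nonneg.2
        apply Real.log_nonneg
        refine Fin.cases ?_ (fun j => ?_) i
        · exact_mod_cast (by omega : (1 : ℤ) ≤ (f 0).eval (m : ℤ))
        · have := hfs3 j m hm.1.1
          exact_mod_cast (by omega : (1 : ℤ) ≤ (f j.succ).eval (m : ℤ))
      constructor
      · exact sum_le_sum_of_subset_of_nonneg hsub1 (fun m hm _ => hnn m hm)
      · have hsub2 : (Icc 1 N).filter (fun n : ℕ => 2 ≤ (f 0).eval (n : ℤ)) ⊆ insert (v + 1) (Ioc 0 v) := by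
          intro n hn
          rw [mem_filter, mem_Icc] at hn
          rw [mem_insert, mem_Ioc]
          by_cases hnv : n ≤ v
          · exact Or.inr ⟨by omega, hnv⟩
          · left
            by_contra hne
            have h5 : v + 1 < n := by omega
            have h7 : (f 0).eval ((v + 1 : ℕ) : ℤ) ≤ 2 := by
              by_contra hcon
              push Not at hcon
              have h8 : v + 1 ∈ Ioc 0 v := by
                rw [← hvset, mem_filter, mem_Icc]
                exact ⟨⟨by omega, by omega⟩, by omega⟩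
              rw [mem_Ioc] at h8
              omega
            have h8 := hdec' (v + 1) n h5
            omega
        by_cases hv1 : v + 1 ∈ (Icc 1 N).filter (fun n : ℕ => 2 ≤ (f 0).eval (n : ℤ))
        · have h5 : (Icc 1 N).filter (fun n : ℕ => 2 ≤ (f 0).eval (n : ℤ)) = insert (v + 1) (Ioc 0 v) := by
            apply subset_antisymm hsub2
            intro n hn
            rw [mem_insert] at hn
            rcases hn with rfl | hn
            · exact hv1
            · exact hsub1 hn
          unfold M1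
          rw [h5, sum_insert (by rw [mem_Ioc]; omega)]
          have h6 : lw f (v + 1) ≤ 2 := by
            unfold lw
            have h7 : ∀ i, 0 ≤ 1 / Real.log (((f i).eval ((v + 1 : ℕ) : ℤ) : ℤ) : ℝ) := by
              intro i
              apply one_div_nonneg.2
              apply Real.log_nonneg
              rw [mem_filter] at hv1
              refine Fin.cases ?_ (fun j => ?_) i
              · exact_mod_cast (by omega : (1 : ℤ) ≤ (f 0).eval ((v + 1 : ℕ) : ℤ))
              · have := hfs3 j (v + 1) (by omega)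
                exact_mod_cast (by omega : (1 : ℤ) ≤ (f j.succ).eval ((v + 1 : ℕ) : ℤ))
            rw [Fin.prod_univ_succ]
            have h8 : ∏ i : Fin g, 1 / Real.log (((f i.succ).eval ((v + 1 : ℕ) : ℤ) : ℤ) : ℝ) ≤ 1 := by
              apply prod_le_one (fun i _ => h7 _)
              intro j _
              have h3' : (3 : ℝ) ≤ (((f j.succ).eval ((v + 1 : ℕ) : ℤ) : ℤ) : ℝ) := by exact_mod_cast hfs3 j (v + 1) (by omega)
              have h9 : 1 ≤ Real.log (((f j.succ).eval ((v + 1 : ℕ) : ℤ) : ℤ) : ℝ) := by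
                rw [← Real.log_exp 1]
                apply Real.log_le_log (Real.exp_pos _)
                have := Real.exp_one_lt_d9
                linarith
              rw [div_le_one (by linarith)]
              exact h9
            have h9 : 1 / Real.log (((f 0).eval ((v + 1 : ℕ) : ℤ) : ℤ) : ℝ) ≤ 2 := by
              rw [mem_filter] at hv1
              have h2' : (2 : ℝ) ≤ (((f 0).eval ((v + 1 : ℕ) : ℤ) : ℤ) : ℝ) := by exact_mod_cast hv1.2
              have h10 : Real.log 2 ≤ Real.log (((f 0).eval ((v + 1 : ℕ) : ℤ) : ℤ) : ℝ) := Real.log_le_log (by norm_num) h2'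
              have h11 := Real.log_two_gt_d9
              rw [div_le_iff₀ (by linarith)]
              linarith
            calc _ ≤ (2 : ℝ) * 1 := mul_le_mul h9 h8 (prod_nonneg fun i _ => h7 _) (by norm_num)
              _ = 2 := mul_one _
          linarith
        · have h5 : (Icc 1 N).filter (fun n : ℕ => 2 ≤ (f 0).eval (n : ℤ)) ⊆ Ioc 0 v := by
            intro n hn
            have h6 := hsub2 hn
            rw [mem_insert] at h6
            rcases h6 with rfl | h6
            · exact absurd hn hv1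
            · exact h6
          have h6 : M1 N f ≤ Mv := by
            apply sum_le_sum_of_subset_of_nonneg h5
            intro m hm _
            exact hnn m (hsub1 hm)
          linarith
    have k1 := abs_le.1 key3
    have hfinal : S * Mv / L ^ U ≤ S * M1 N f / L ^ U := by
      apply div_le_div_of_nonneg_right _ (hLp _).le
      exact mul_le_mul_of_nonneg_left hMcomp.1 hS0.le
    have hm1 : S * Mv ≤ S * M1 N f := mul_le_mul_of_nonneg_left hMcomp.1 hS0.le
    have hm2 : S * M1 N f ≤ S * Mv + 2 * S := by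
      have := mul_le_mul_of_nonneg_left hMcomp.2 hS0.le
      linarith
    refine le_trans ?_ hfinal
    rw [abs_le]
    constructor
    · linarith [k1.1, hQset.1]
    · linarith [k1.2, hQset.2]

end Pool.Agent.Y868.TC
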