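import Pool.Agent.Y868.TC.S3

/-! Systems of polynomials, absolute values of the members: windows with a given sign pattern. -/

set_option autoImplicit false

namespace Pool.Agent.Y868.TC

open Finset Filter
open Polynomial (X C)
open scoped Polynomial
open Pool.Agent.H373R2.T7 (pz Vz lamz mem_pz Vz_inv_small ev_L' Vz_inv_le Vz_pos)
open Pool.Agent.TH204.WR (rho hh vN model rho_le hh_nonneg prod_le_one' prod_nonneg' V_low)
open Pool.Agent.Y868.TA

/-- the sign -/
def sg (b : Bool) : ℤ := if b then 1 else -1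

/-- reflected coefficients -/
def reflS {k : ℕ} (σ : Fin k → Bool) (D B : ℕ) (e : Fin k → ℕ × ℕ) : Fin k → ℕ × ℕ :=
  fun i => if σ i then e i else (D + 1 - (e i).1, B + 1 - (e i).2)

/-- reflected polynomials -/
noncomputable def PS {k : ℕ} (σ : Fin k → Bool) (D B : ℕ) (P : Fin k → ℤ[X]) : Fin k → ℤ[X] :=
  fun i => if σ i then P i else -(P i) - C ((D : ℤ) + 1) * X - C ((B : ℤ) + 1)

/-- reflected constants -/
def cS {k : ℕ} (σ : Fin k → Bool) (c : Fin k → ℤ) : Fin k → ℤ := fun i => if σ i then c i else -c i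

lemma reflS_mem {k : ℕ} (σ : Fin k → Bool) (D B : ℕ) (e : Fin k → ℕ × ℕ) (he : e ∈ bx D B k) : reflS σ D B e ∈ bx D B k := by
  unfold bx at he ⊢
  rw [Fintype.mem_piFinset] at he ⊢
  intro i
  have h1 := he i
  unfold reflS
  rw [mem_product, mem_Icc, mem_Icc] at h1 ⊢
  split_ifs
  · exact h1
  · constructor <;> constructor <;> simp only <;> omega

lemma reflS_reflS {k : ℕ} (σ : Fin k → Bool) (D B : ℕ) (e : Fin k → ℕ × ℕ) (he : e ∈ bx D B k) :
    reflS σ D B (reflS σ D B e) = e := by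
  unfold bx at he
  rw [Fintype.mem_piFinset] at he
  funext i
  have h1 := he i
  rw [mem_product, mem_Icc, mem_Icc] at h1
  unfold reflS
  split_ifs
  · rfl
  · ext <;> simp only <;> omega

lemma mem1_S {k : ℕ} (σ : Fin k → Bool) (D B : ℕ) (P : Fin k → ℤ[X]) (c : Fin k → ℤ) (e : Fin k → ℕ × ℕ) (he : e ∈ bx D B k) :
    mem1 (PS σ D B P) (cS σ c) (reflS σ D B e) = fun i => C (sg (σ i)) * mem1 P c e i := by
  unfold bx at he
  rw [Fintype.mem_piFinset] at he
  funext i
  have h1 := he i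
  rw [mem_product, mem_Icc, mem_Icc] at h1
  unfold mem1 PS cS reflS sg
  by_cases h : σ i
  · simp only [h, if_true, Polynomial.C_1, one_mul]
  · simp only [h, if_false, Bool.false_eq_true]
    have e1 : ((D + 1 - (e i).1 : ℕ) : ℤ) = D + 1 - (e i).1 := by
      rw [Nat.cast_sub (by omega)]; push_cast; ring
    have e2 : ((B + 1 - (e i).2 : ℕ) : ℤ) = B + 1 - (e i).2 := by
      rw [Nat.cast_sub (by omega)]; push_cast; ring
    rw [e1, e2]
    simp only [Polynomial.C_add, Polynomial.C_sub, Polynomial.C_1, Polynomial.C_neg]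
    ring

lemma sg_sq (b : Bool) : sg b = 1 ∨ sg b = -1 := by
  unfold sg
  split_ifs
  · exact Or.inl rfl
  · exact Or.inr rfl

lemma rho_sg {k : ℕ} (σ : Fin k → Bool) (f : Fin k → ℤ[X]) (p : ℕ) :
    rho (∏ i, C (sg (σ i)) * f i) 0 p = rho (∏ i, f i) 0 p := by
  unfold rho
  congr 1
  apply filter_congr
  intro n _
  rw [add_zero, add_zero, prod_mul_distrib, Polynomial.eval_mul, Polynomial.eval_prod]
  simp only [Polynomial.eval_C]
  have h1 : (∏ i, sg (σ i)) = 1 ∨ (∏ i, sg (σ i)) = -1 := by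
    have gen : ∀ s : Finset (Fin k), (∏ i ∈ s, sg (σ i)) = 1 ∨ (∏ i ∈ s, sg (σ i)) = -1 := by
      intro s
      induction s using Finset.induction_on with
      | empty => exact Or.inl prod_empty
      | insert j s hj ih =>
        rw [prod_insert hj]
        rcases sg_sq (σ j) with h | h <;> rcases ih with h' | h' <;> rw [h, h'] <;> norm_num
    exact gen univ
  rcases h1 with h | h
  · rw [h, one_mul]
  · rw [h, neg_one_mul, dvd_neg]

lemma dsys_sg {k : ℕ} (z : ℕ) (σ : Fin k → Bool) (f : Fin k → ℤ[X]) : dsys z (fun i => C (sg (σ i)) * f i) = dsys z f := by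
  unfold dsys hh
  congr 2
  refine prod_congr rfl fun p _ => ?_
  rw [rho_sg]

lemma lw_sg {k : ℕ} (σ : Fin k → Bool) (f : Fin k → ℤ[X]) (m : ℕ) : lw (fun i => C (sg (σ i)) * f i) m = lw f m := by
  unfold lw
  refine prod_congr rfl fun i _ => ?_
  rw [Polynomial.eval_mul, Polynomial.eval_C]
  rcases sg_sq (σ i) with h | h
  · rw [h, one_mul]
  · rw [h, neg_one_mul]
    push_cast
    rw [Real.log_neg_eq_log]

/-- the number of `m` for which all `|f_i(m)|` are primes -/
noncomputable def cntA {k : ℕ} (f : Fin k → ℤ[X]) (T : Finset ℕ) : ℕ :=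
  #(T.filter (fun m : ℕ => ∀ i, ((f i).eval (m : ℤ)).natAbs.Prime))

lemma cnt_sg {k : ℕ} (σ : Fin k → Bool) (f : Fin k → ℤ[X]) (T : Finset ℕ)
    (h : ∀ i, ∀ m ∈ T, 0 ≤ sg (σ i) * (f i).eval (m : ℤ)) : cnt (fun i => C (sg (σ i)) * f i) T = cntA f T := by
  unfold cnt cntA
  congr 1
  apply filter_congr
  intro m hm
  refine forall_congr' fun i => ?_
  have h1 := h i m hm
  rw [Polynomial.eval_mul, Polynomial.eval_C]
  have h2 : (sg (σ i) * (f i).eval (m : ℤ)).toNat = ((f i).eval (m : ℤ)).natAbs := by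
    rcases sg_sq (σ i) with h | h
    · rw [h] at h1 ⊢; omega
    · rw [h] at h1 ⊢; omega
  rw [h2]

/-- **Systems, windows with a given sign pattern.** -/
theorem sys_sign (k d U K : ℕ) (hk : 1 ≤ k) (hd : 2 ≤ d) : ∃ C0 E1 : ℕ, ∀ E : ℕ, ∃ x0 : ℕ, ∀ x : ℕ, x0 ≤ x → ∀ z : ℕ,
    Real.log x ^ E1 ≤ z → (z : ℝ) ≤ Real.log x ^ E → ∀ D B : ℕ, Real.log x ^ C0 ≤ D → (D : ℝ) ≤ (x : ℝ) ^ K →
    (D : ℝ) * x ≤ B * Real.log x ^ K → (B : ℝ) ≤ D * x * Real.log x ^ K →
    ∀ P : Fin k → ℤ[X], (∀ i, (P i).natDegree + 1 ≤ d) →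
    (∀ i, ∀ m ∈ Icc 1 x, ((|(P i).eval (m : ℤ)| : ℤ) : ℝ) ≤ B * Real.log x ^ K) →
    ∀ c : Fin k → ℤ, (∀ i, c i ≠ 0) → (∀ i, ((|c i| : ℤ) : ℝ) ≤ B * x * Real.log x ^ K) →
    ∃ Bad ⊆ bx D B k, (#Bad : ℝ) ≤ ((D : ℝ) * B) ^ k / Real.log x ^ U ∧
      ∀ e ∈ bx D B k, e ∉ Bad → (∀ p ∈ pz z, rho (∏ i, mem1 P c e i) 0 p < p) →
        ∀ (σ : Fin k → Bool) (u v : ℕ), u < v → v ≤ x → (∀ i, ∀ m ∈ Ioc u v, 3 ≤ sg (σ i) * (mem1 P c e i).eval (m : ℤ)) →
          |(cntA (mem1 P c e) (Ioc u v) : ℝ) - dsys z (mem1 P c e) * ∑ m ∈ Ioc u v, lw (mem1 P c e) m| ≤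
          dsys z (mem1 P c e) * x / Real.log x ^ U := by
  classical
  obtain ⟨C0, E1, h0⟩ := sys_final k d (U + 1) (K + 1) hk hd
  refine ⟨C0 + K, E1, fun E => ?_⟩
  obtain ⟨x1, h1⟩ := h0 E
  obtain ⟨x2, h2⟩ := ev_L' (4 + 2 ^ k : ℝ)
  refine ⟨max (max x1 x2) 3, fun x hx z hz1 hz2 D B hD1 hD2 hDB hBD P hP hPB c hc0 hc => ?_⟩
  have b1 := h1 x (le_trans (le_trans (le_max_left _ _) (le_max_left _ _)) hx)
  have b2 := h2 x (le_trans (le_trans (le_max_right _ _) (le_max_left _ _)) hx)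
  have hx3 : 3 ≤ x := le_trans (le_max_right _ _) hx
  set L := Real.log x with hL
  have h2k : (0 : ℝ) < 2 ^ k := by positivity
  have hL4 : 4 ≤ L := by linarith
  have hL2k : (2 : ℝ) ^ k ≤ L := by linarith
  have hL1 : 1 ≤ L := by linarith
  have hL0 : 0 < L := by linarith
  have hLp : ∀ n : ℕ, 0 < L ^ n := fun n => by positivity
  have hLp1 : ∀ n : ℕ, 1 ≤ L ^ n := fun n => one_le_pow₀ hL1
  have hLL : ∀ {i j : ℕ}, i ≤ j → L ^ i ≤ L ^ j := fun h => pow_le_pow_right₀ hL1 h
  have hx0 : (0 : ℝ) < x := by exact_mod_cast (by omega : 0 < x)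
  have hx1r : (1 : ℝ) ≤ x := by exact_mod_cast (by omega : 1 ≤ x)
  have hD1C : L ^ C0 ≤ D := (hLL (by omega)).trans hD1
  have hD1K : L ^ K ≤ D := (hLL (by omega)).trans hD1
  have hDr : (1 : ℝ) ≤ D := (hLp1 _).trans hD1K
  have hD0 : (0 : ℝ) < D := by linarith
  have hxB : (x : ℝ) ≤ B := by
    have h7 : (x : ℝ) * L ^ K ≤ B * L ^ K := by
      calc (x : ℝ) * L ^ K ≤ x * D := mul_le_mul_of_nonneg_left hD1K hx0.le
        _ = D * x := mul_comm _ _
        _ ≤ _ := hDB
    exact le_of_mul_le_mul_right h7 (hLp K)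
  have hBr : (1 : ℝ) ≤ B := hx1r.trans hxB
  have hB0 : (0 : ℝ) < B := by linarith
  have hBK : (B : ℝ) ≤ B * L ^ K := le_mul_of_one_le_right hB0.le (hLp1 K)
  have hmain : ∀ σ : Fin k → Bool, ∃ Bad ⊆ bx D B k, (#Bad : ℝ) ≤ ((D : ℝ) * B) ^ k / L ^ (U + 1) ∧
      ∀ e ∈ bx D B k, e ∉ Bad → (∀ p ∈ pz z, rho (∏ i, mem1 P c e i) 0 p < p) →
        ∀ (u v : ℕ), u < v → v ≤ x → (∀ i, ∀ m ∈ Ioc u v, 3 ≤ sg (σ i) * (mem1 P c e i).eval (m : ℤ)) →
          |(cntA (mem1 P c e) (Ioc u v) : ℝ) - dsys z (mem1 P c e) * ∑ m ∈ Ioc u v, lw (mem1 P c e) m| ≤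
          dsys z (mem1 P c e) * x / L ^ (U + 1) := by
    intro σ
    obtain ⟨Bad, hB1, hB2, hB3⟩ := b1 z hz1 hz2 D B hD1C
      (hD2.trans (pow_le_pow_right₀ hx1r (Nat.le_succ _)))
      (hDB.trans (mul_le_mul_of_nonneg_left (hLL (Nat.le_succ _)) hB0.le))
      (hBD.trans (mul_le_mul_of_nonneg_left (hLL (Nat.le_succ _)) (by positivity)))
      (PS σ D B P) (by
        intro i
        unfold PS
        split_ifs
        · exact hP i
        · have h5 : (-(P i) - C ((D : ℤ) + 1) * X - C ((B : ℤ) + 1)).natDegree ≤ d - 1 := by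
            refine (Polynomial.natDegree_sub_le _ _).trans (max_le ?_ ?_)
            · refine (Polynomial.natDegree_sub_le _ _).trans (max_le ?_ ?_)
              · rw [Polynomial.natDegree_neg]
                have := hP i
                omega
              · refine (Polynomial.natDegree_C_mul_le _ _).trans ?_
                rw [Polynomial.natDegree_X]; omega
            · rw [Polynomial.natDegree_C]; omega
          omega) (by
        intro i m hm
        have h5 := hPB i m hm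
        unfold PS
        split_ifs
        · exact h5.trans (mul_le_mul_of_nonneg_left (hLL (Nat.le_succ _)) hB0.le)
        · rw [Polynomial.eval_sub, Polynomial.eval_sub, Polynomial.eval_neg, Polynomial.eval_mul, Polynomial.eval_C, Polynomial.eval_X,
            Polynomial.eval_C]
          rw [mem_Icc] at hm
          have hmr : (m : ℝ) ≤ x := by exact_mod_cast hm.2
          have h6 : |(-(P i).eval (m : ℤ) - ((D : ℤ) + 1) * m - ((B : ℤ) + 1))| ≤ |(P i).eval (m : ℤ)| + ((D : ℤ) + 1) * m + ((B : ℤ) + 1) := by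
            have h7 := abs_sub (-(P i).eval (m : ℤ) - ((D : ℤ) + 1) * m) ((B : ℤ) + 1)
            have h8 := abs_sub (-(P i).eval (m : ℤ)) (((D : ℤ) + 1) * m)
            rw [abs_neg] at h8
            rw [abs_of_nonneg (by positivity : (0 : ℤ) ≤ ((D : ℤ) + 1) * m)] at h8
            rw [abs_of_nonneg (by positivity : (0 : ℤ) ≤ (B : ℤ) + 1)] at h7
            linarith
          have h7 : (((|(-(P i).eval (m : ℤ) - ((D : ℤ) + 1) * m - ((B : ℤ) + 1))| : ℤ)) : ℝ) ≤
              ((|(P i).eval (m : ℤ)| : ℤ) : ℝ) + (D + 1) * m + (B + 1) := by exact_mod_cast h6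
          have h8 : (D : ℝ) * m ≤ B * L ^ K := (mul_le_mul_of_nonneg_left hmr hD0.le).trans hDB
          calc (((|(-(P i).eval (m : ℤ) - ((D : ℤ) + 1) * m - ((B : ℤ) + 1))| : ℤ)) : ℝ)
              ≤ ((|(P i).eval (m : ℤ)| : ℤ) : ℝ) + (D + 1) * m + (B + 1) := h7
            _ ≤ B * L ^ K + (B * L ^ K + x) + (B + 1) := by
                have : ((D : ℝ) + 1) * m = D * m + m := by ring
                linarith
            _ ≤ (4 + 1) * (B * L ^ K) := by linarith
            _ ≤ B * L ^ (K + 1) := by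
                rw [pow_succ]
                have h9 : (4 + 1 : ℝ) ≤ L := by
                  have : (1 : ℝ) ≤ 2 ^ k := one_le_pow₀ (by norm_num)
                  linarith
                calc (4 + 1 : ℝ) * (B * L ^ K) ≤ L * (B * L ^ K) := mul_le_mul_of_nonneg_right h9 (by positivity)
                  _ = B * (L ^ K * L) := by ring)
      (cS σ c) (by
        intro i
        unfold cS
        split_ifs
        · exact hc0 i
        · exact neg_ne_zero.2 (hc0 i)) (by
        intro i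
        have h5 : ((|c i| : ℤ) : ℝ) ≤ B * x * L ^ (K + 1) :=
          (hc i).trans (mul_le_mul_of_nonneg_left (hLL (Nat.le_succ _)) (by positivity))
        unfold cS
        split_ifs
        · exact h5
        · rw [abs_neg]; exact h5) ∅
    refine ⟨Bad.image (reflS σ D B), ?_, ?_, ?_⟩
    · intro e he
      rw [mem_image] at he
      obtain ⟨e0, he0, rfl⟩ := he
      exact reflS_mem σ D B e0 (hB1 he0)
    · refine le_trans ?_ hB2
      exact_mod_cast card_image_le
    · intro e he hbad hrho u v huv hvx h3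
      have he' := reflS_mem σ D B e he
      have hn1 : reflS σ D B e ∉ Bad := by
        intro h
        apply hbad
        rw [mem_image]
        exact ⟨_, h, reflS_reflS σ D B e he⟩
      have key := hB3 (reflS σ D B e) he' hn1 u v huv hvx
      rw [mem1_S σ D B P c e he] at key
      have key2 := (key (fun i m hm => by
        rw [Polynomial.eval_mul, Polynomial.eval_C]
        exact h3 i m hm)).2 (fun p hp => by
        rw [rho_sg]
        exact hrho p hp)
      rw [dsys_sg, cnt_sg σ _ _ (fun i m hm => by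
        have := h3 i m hm
        linarith)] at key2
      simp only [lw_sg] at key2
      exact key2
  choose Bad hB1 hB2 hB3 using hmain
  refine ⟨univ.biUnion Bad, ?_, ?_, ?_⟩
  · intro e he
    rw [mem_biUnion] at he
    obtain ⟨σ, _, hσ⟩ := he
    exact hB1 σ hσ
  · calc (#(univ.biUnion Bad) : ℝ) ≤ ∑ σ, (#(Bad σ) : ℝ) := by exact_mod_cast card_biUnion_le
      _ ≤ ∑ _σ : Fin k → Bool, ((D : ℝ) * B) ^ k / L ^ (U + 1) := sum_le_sum fun σ _ => hB2 σ
      _ = 2 ^ k * (((D : ℝ) * B) ^ k / L ^ (U + 1)) := by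
          rw [sum_const, card_univ, Fintype.card_fun, Fintype.card_bool, Fintype.card_fin, nsmul_eq_mul]
          push_cast
          ring
      _ = (2 ^ k / L) * (((D : ℝ) * B) ^ k / L ^ U) := by
          rw [pow_succ]
          field_simp
      _ ≤ 1 * (((D : ℝ) * B) ^ k / L ^ U) := by
          apply mul_le_mul_of_nonneg_right _ (by positivity)
          rw [div_le_one hL0]
          exact hL2k
      _ = _ := one_mul _
  · intro e he hbad hrho σ u v huv hvx h3
    have hn : e ∉ Bad σ := by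
      intro h
      apply hbad
      rw [mem_biUnion]
      exact ⟨σ, mem_univ _, h⟩
    refine (hB3 σ e he hn hrho u v huv hvx h3).trans ?_
    have hz1' : 1 ≤ z := by
      have : (1 : ℝ) ≤ z := (hLp1 _).trans hz1
      exact_mod_cast this
    have hds : 0 ≤ dsys z (mem1 P c e) := by
      unfold dsys
      exact mul_nonneg (by have := Vz_pos z; positivity) (hh_nonneg _ _ _ hz1')
    exact div_le_div_of_nonneg_left (by positivity) (hLp _) (hLL (Nat.le_succ _))

end Pool.Agent.Y868.TC
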