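import Pool.Agent.Y868.TC.H1

/-! Systems of polynomials, absolute values of the members: all windows. -/

set_option autoImplicit false

namespace Pool.Agent.Y868.TC

open Finset Filter
open Polynomial (X C)
open scoped Polynomial
open Pool.Agent.H373R2.T7 (pz Vz lamz mem_pz Vz_inv_small ev_L' Vz_inv_le Vz_pos)
open Pool.Agent.TH204.WR (rho hh vN model rho_le hh_nonneg prod_le_one' prod_nonneg' V_low)
open Pool.Agent.Y868.TA

/-- a nonconstant polynomial takes a value at most `deg` times -/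
lemma value_le (g : ℤ[X]) (hg : 1 ≤ g.natDegree) (j : ℤ) (S : Finset ℕ) (hS : ∀ m ∈ S, g.eval (m : ℤ) = j) : #S ≤ g.natDegree := by
  classical
  have hne : g - C j ≠ 0 := by
    intro h
    have h1 : g = C j := by linear_combination h
    rw [h1, Polynomial.natDegree_C] at hg
    omega
  have h1 : #S ≤ #((g - C j).roots.toFinset) := by
    apply card_le_card_of_injOn (fun m : ℕ => (m : ℤ))
    · intro m hm
      rw [mem_coe, Multiset.mem_toFinset, Polynomial.mem_roots hne, Polynomial.IsRoot.def, Polynomial.eval_sub, Polynomial.eval_C,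
        hS m hm, sub_self]
    · intro a _ b _ hab
      simpa using hab
  refine h1.trans ((Multiset.toFinset_card_le _).trans ((Polynomial.card_roots' _).trans ?_))
  exact le_of_eq Polynomial.natDegree_sub_C

/-- the number of changes of sign is at most the degree -/
lemma sign_le (g : ℤ[X]) (S : Finset ℕ) (hS : ∀ m ∈ S, g.eval ((m : ℤ) - 1) * g.eval (m : ℤ) < 0) : #S ≤ g.natDegree := by
  classical
  rcases S.eq_empty_or_nonempty with h | ⟨m0, hm0⟩
  · rw [h, card_empty]; exact Nat.zero_le _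
  set F : ℝ[X] := g.map (Int.castRingHom ℝ) with hF
  have hFe : ∀ m : ℤ, F.eval (m : ℝ) = ((g.eval m : ℤ) : ℝ) := by
    intro m
    rw [hF]
    simp
  have hne : F ≠ 0 := by
    intro h
    have h1 := hS m0 hm0
    have h2 := hFe (m0 : ℤ)
    rw [h, Polynomial.eval_zero] at h2
    have h3 : g.eval (m0 : ℤ) = 0 := by exact_mod_cast h2.symm
    rw [h3, mul_zero] at h1
    exact lt_irrefl _ h1
  have hroot : ∀ m ∈ S, ∃ y : ℝ, (m : ℝ) - 1 < y ∧ y < m ∧ y ∈ F.roots.toFinset := by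
    intro m hm
    have h1 : F.eval ((m : ℝ) - 1) * F.eval (m : ℝ) < 0 := by
      have h2 := hFe ((m : ℤ) - 1)
      have h3 := hFe (m : ℤ)
      push_cast at h2 h3
      rw [h2, h3]
      exact_mod_cast hS m hm
    have hcont : ContinuousOn (fun y : ℝ => F.eval y) (Set.Icc ((m : ℝ) - 1) (m : ℝ)) := F.continuous.continuousOn
    have hex : ∃ y ∈ Set.Ioo ((m : ℝ) - 1) (m : ℝ), F.eval y = 0 := by
      rcases mul_neg_iff.1 h1 with ⟨h2, h3⟩ | ⟨h2, h3⟩
      · obtain ⟨y, hy1, hy2⟩ := intermediate_value_Ioo' (by linarith : (m : ℝ) - 1 ≤ m) hcont ⟨h3, h2⟩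
        exact ⟨y, hy1, hy2⟩
      · obtain ⟨y, hy1, hy2⟩ := intermediate_value_Ioo (by linarith : (m : ℝ) - 1 ≤ m) hcont ⟨h2, h3⟩
        exact ⟨y, hy1, hy2⟩
    obtain ⟨y, hy, hy0⟩ := hex
    refine ⟨y, hy.1, hy.2, ?_⟩
    rw [Multiset.mem_toFinset, Polynomial.mem_roots hne, Polynomial.IsRoot.def, hy0]
  choose! y hy1 hy2 hy3 using hroot
  have hcard : #S ≤ #(F.roots.toFinset) := by
    apply card_le_card_of_injOn y
    · intro m hm
      exact hy3 m hm
    · intro m hm m' hm' hyy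
      have a1 := hy1 m hm
      have a2 := hy2 m hm
      have a3 := hy1 m' hm'
      have a4 := hy2 m' hm'
      rw [hyy] at a1 a2
      have g1 : (m : ℝ) < m' + 1 := by linarith
      have g2 : (m' : ℝ) < m + 1 := by linarith
      have g3 : m < m' + 1 := by exact_mod_cast g1
      have g4 : m' < m + 1 := by exact_mod_cast g2
      omega
  refine hcard.trans ((Multiset.toFinset_card_le _).trans ((Polynomial.card_roots' _).trans ?_))
  exact le_of_eq (Polynomial.natDegree_map_eq_of_injective Int.cast_injective g)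

open Classical in
/-- the breakpoints -/
noncomputable def BP {k : ℕ} (f : Fin k → ℤ[X]) (u v : ℕ) : Finset ℕ :=
  (Ioc u v).filter (fun m : ℕ => ∃ i, |(f i).eval (m : ℤ)| ≤ 2 ∨ (f i).eval ((m : ℤ) - 1) * (f i).eval (m : ℤ) < 0)

lemma BP_card {k d : ℕ} (f : Fin k → ℤ[X]) (h1 : ∀ i, 1 ≤ (f i).natDegree) (hd : ∀ i, (f i).natDegree ≤ d) (u v : ℕ) :
    #(BP f u v) ≤ 6 * (k * d) := by
  classical
  have hsub : BP f u v ⊆ univ.biUnion (fun i : Fin k => ((Icc (-2 : ℤ) 2).biUnion
      (fun j => (Ioc u v).filter (fun m : ℕ => (f i).eval (m : ℤ) = j))) ∪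
      (Ioc u v).filter (fun m : ℕ => (f i).eval ((m : ℤ) - 1) * (f i).eval (m : ℤ) < 0)) := by
    intro m hm
    unfold BP at hm
    rw [mem_filter] at hm
    obtain ⟨hm1, i, hi⟩ := hm
    rw [mem_biUnion]
    refine ⟨i, mem_univ _, ?_⟩
    rw [mem_union]
    rcases hi with hi | hi
    · left
      rw [mem_biUnion]
      rw [abs_le] at hi
      exact ⟨_, mem_Icc.2 hi, mem_filter.2 ⟨hm1, rfl⟩⟩
    · right
      exact mem_filter.2 ⟨hm1, hi⟩
  refine (card_le_card hsub).trans (card_biUnion_le.trans ?_)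
  calc _ ≤ ∑ _i : Fin k, 6 * d := by
        refine sum_le_sum fun i _ => ?_
        refine (card_union_le _ _).trans ?_
        have a1 : #((Icc (-2 : ℤ) 2).biUnion (fun j => (Ioc u v).filter (fun m : ℕ => (f i).eval (m : ℤ) = j))) ≤ 5 * d := by
          refine card_biUnion_le.trans ?_
          calc ∑ j ∈ Icc (-2 : ℤ) 2, #((Ioc u v).filter (fun m : ℕ => (f i).eval (m : ℤ) = j)) ≤ ∑ _j ∈ Icc (-2 : ℤ) 2, d := by
                refine sum_le_sum fun j _ => ?_
                exact (value_le (f i) (h1 i) j _ (fun m hm => (mem_filter.1 hm).2)).trans (hd i)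
            _ = 5 * d := by rw [sum_const]; rfl
        have a2 : #((Ioc u v).filter (fun m : ℕ => (f i).eval ((m : ℤ) - 1) * (f i).eval (m : ℤ) < 0)) ≤ d :=
          (sign_le (f i) _ (fun m hm => (mem_filter.1 hm).2)).trans (hd i)
        omega
    _ = 6 * (k * d) := by
        rw [sum_const, card_univ, Fintype.card_fin, smul_eq_mul]; ring

/-- sums over all windows from sums over windows without breakpoints -/
lemma windows_union (h : ℕ → ℝ) (S : Finset ℕ) (E M : ℝ) (hE : 0 ≤ E) (hM : 0 ≤ M) (V : ℕ)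
    (hwin : ∀ u v, u < v → v ≤ V → (∀ m ∈ Ioc u v, m ∉ S) → |∑ m ∈ Ioc u v, h m| ≤ E)
    (hpt : ∀ m, 1 ≤ m → m ≤ V → |h m| ≤ M) (n : ℕ) :
    ∀ u v, u ≤ v → v ≤ V → #(S ∩ Ioc u v) ≤ n → |∑ m ∈ Ioc u v, h m| ≤ (n + 1) * E + n * M := by
  induction n with
  | zero =>
    intro u v huv hvV hc
    rcases huv.eq_or_lt with h1 | h1
    · rw [h1, Ioc_self, sum_empty, abs_zero]
      push_cast
      linarith
    · have h2 := hwin u v h1 hvV (by
        intro m hm hmS
        have h3 : m ∈ S ∩ Ioc u v := mem_inter.2 ⟨hmS, hm⟩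
        have h4 := card_pos.2 ⟨m, h3⟩
        omega)
      push_cast
      linarith
  | succ n ih =>
    intro u v huv hvV hc
    by_cases hne : (S ∩ Ioc u v).Nonempty
    · obtain ⟨s, hs, hmin⟩ : ∃ s ∈ S ∩ Ioc u v, ∀ t ∈ S ∩ Ioc u v, s ≤ t := ⟨_, min'_mem _ hne, fun t ht => min'_le _ _ ht⟩
      have hs1 := mem_inter.1 hs
      have hs2 := mem_Ioc.1 hs1.2
      obtain ⟨r, rfl⟩ : ∃ r, s = r + 1 := ⟨s - 1, by omega⟩
      have e1 : ∑ m ∈ Ioc u v, h m = ∑ m ∈ Ioc u r, h m + (h (r + 1) + ∑ m ∈ Ioc (r + 1) v, h m) := by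
        rw [← sum_Ioc_consecutive h (show u ≤ r by omega) (show r ≤ v by omega),
          ← sum_Ioc_consecutive h (show r ≤ r + 1 by omega) (show r + 1 ≤ v by omega), Nat.Ioc_succ_singleton, sum_singleton]
      have a1 : |∑ m ∈ Ioc u r, h m| ≤ E := by
        rcases (show u ≤ r by omega).eq_or_lt with h1 | h1
        · rw [h1, Ioc_self, sum_empty, abs_zero]; exact hE
        · apply hwin u r h1 (by omega)
          intro m hm hmS
          rw [mem_Ioc] at hm
          have := hmin m (mem_inter.2 ⟨hmS, mem_Ioc.2 ⟨hm.1, by omega⟩⟩)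
          omega
      have a2 : |h (r + 1)| ≤ M := hpt _ (by omega) (by omega)
      have a3 : |∑ m ∈ Ioc (r + 1) v, h m| ≤ (n + 1) * E + n * M := by
        apply ih (r + 1) v (by omega) hvV
        have h1 : S ∩ Ioc (r + 1) v ⊂ S ∩ Ioc u v := by
          rw [ssubset_iff_of_subset (by
            intro m hm
            rw [mem_inter, mem_Ioc] at hm ⊢
            exact ⟨hm.1, by omega, hm.2.2⟩)]
          refine ⟨r + 1, hs, ?_⟩
          intro hcon
          rw [mem_inter, mem_Ioc] at hcon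
          omega
        have := card_lt_card h1
        omega
      rw [e1]
      refine (abs_add_le _ _).trans ?_
      have a4 := abs_add_le (h (r + 1)) (∑ m ∈ Ioc (r + 1) v, h m)
      push_cast
      linarith
    · rw [not_nonempty_iff_eq_empty] at hne
      have h1 := ih u v huv hvV (by rw [hne, card_empty]; exact Nat.zero_le _)
      push_cast
      linarith

open Classical in
/-- the sum of the weights over the `m` at which all `|f_i(m)| ≥ 2` -/
noncomputable def lsum {k : ℕ} (f : Fin k → ℤ[X]) (u v : ℕ) : ℝ :=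
  ∑ m ∈ (Ioc u v).filter (fun m : ℕ => ∀ i, 2 ≤ |(f i).eval (m : ℤ)|), ∏ i, 1 / Real.log (((|(f i).eval (m : ℤ)| : ℤ)) : ℝ)

/-- **Systems of polynomials, all windows.** -/
theorem sys_abs (k d U K : ℕ) (hk : 1 ≤ k) (hd : 2 ≤ d) : ∃ C0 E1 : ℕ, ∀ E : ℕ, ∃ x0 : ℕ, ∀ x : ℕ, x0 ≤ x → ∀ z : ℕ,
    Real.log x ^ E1 ≤ z → (z : ℝ) ≤ Real.log x ^ E → ∀ D B : ℕ, Real.log x ^ C0 ≤ D → (D : ℝ) ≤ (x : ℝ) ^ K →
    (D : ℝ) * x ≤ B * Real.log x ^ K → (B : ℝ) ≤ D * x * Real.log x ^ K →
    ∀ P : Fin k → ℤ[X], (∀ i, (P i).natDegree + 1 ≤ d) →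
    (∀ i, ∀ m ∈ Icc 1 x, ((|(P i).eval (m : ℤ)| : ℤ) : ℝ) ≤ B * Real.log x ^ K) →
    ∀ c : Fin k → ℤ, (∀ i, c i ≠ 0) → (∀ i, ((|c i| : ℤ) : ℝ) ≤ B * x * Real.log x ^ K) →
    ∃ Bad ⊆ bx D B k, (#Bad : ℝ) ≤ ((D : ℝ) * B) ^ k / Real.log x ^ U ∧
      ∀ e ∈ bx D B k, e ∉ Bad → (∀ i, 1 ≤ (mem1 P c e i).natDegree) → (∀ p ∈ pz z, rho (∏ i, mem1 P c e i) 0 p < p) →
        ∀ (u v : ℕ), u ≤ v → v ≤ x →
          |(cntA (mem1 P c e) (Ioc u v) : ℝ) - dsys z (mem1 P c e) * lsum (mem1 P c e) u v| ≤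
          dsys z (mem1 P c e) * x / Real.log x ^ U := by
  classical
  obtain ⟨Q, hQ⟩ : ∃ Q, Q = 2 * (k * d) := ⟨_, rfl⟩
  obtain ⟨C0, E1, h0⟩ := sys_sign k d (U + 1) K hk hd
  refine ⟨C0 + K, E1, fun E => ?_⟩
  obtain ⟨x1, h1⟩ := h0 E
  obtain ⟨x2, h2⟩ := Vz_inv_small E
  obtain ⟨x3, h3⟩ := ev_L' ((2 * ((k * d : ℕ) : ℝ)) ^ Q + 2 * (6 * (k * d) + 1) + 24 * (k * d) * 2 ^ k)
  obtain ⟨x4, h4⟩ := evt_polylog (U + Q + 4)
  refine ⟨max (max x1 x2) (max (max x3 x4) 3), fun x hx z hz1 hz2 D B hD1 hD2 hDB hBD P hP hPB c hc0 hc => ?_⟩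
  have b1 := h1 x (le_trans (le_trans (le_max_left _ _) (le_max_left _ _)) hx)
  have b2 := h2 x (le_trans (le_trans (le_max_right _ _) (le_max_left _ _)) hx)
  have b3 := h3 x (le_trans (le_trans (le_trans (le_max_left _ _) (le_max_left _ _)) (le_max_right _ _)) hx)
  have b4 := h4 x (le_trans (le_trans (le_trans (le_max_right _ _) (le_max_left _ _)) (le_max_right _ _)) hx)
  have hx3 : 3 ≤ x := le_trans (le_trans (le_max_right _ _) (le_max_right _ _)) hx
  set L := Real.log x with hL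
  have hkd1 : 1 ≤ k * d := by nlinarith
  have hkdr : (1 : ℝ) ≤ (k : ℝ) * d := by exact_mod_cast hkd1
  have h2k : (1 : ℝ) ≤ 2 ^ k := one_le_pow₀ (by norm_num)
  have q1 : (0 : ℝ) ≤ (2 * ((k * d : ℕ) : ℝ)) ^ Q := by positivity
  have q2 : (24 : ℝ) ≤ 24 * (k * d) * 2 ^ k := by nlinarith
  have hLQ : (2 * ((k * d : ℕ) : ℝ)) ^ Q ≤ L := by nlinarith
  have hLS : 2 * (6 * ((k : ℝ) * d) + 1) ≤ L := by linarith
  have hLT : 24 * ((k : ℝ) * d) * 2 ^ k ≤ L := by nlinarith
  have hL1 : 1 ≤ L := by linarith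
  have hL0 : 0 < L := by linarith
  have hLp : ∀ n : ℕ, 0 < L ^ n := fun n => by positivity
  have hLp1 : ∀ n : ℕ, 1 ≤ L ^ n := fun n => one_le_pow₀ hL1
  have hLL : ∀ {i j : ℕ}, i ≤ j → L ^ i ≤ L ^ j := fun h => pow_le_pow_right₀ hL1 h
  have hx0 : (0 : ℝ) < x := by exact_mod_cast (by omega : 0 < x)
  have hz1' : 1 ≤ z := by
    have : (1 : ℝ) ≤ z := (hLp1 _).trans hz1
    exact_mod_cast this
  obtain ⟨Bad, hB1, hB2, hB3⟩ := b1 z hz1 hz2 D B ((hLL (by omega)).trans hD1) hD2 hDB hBD P hP hPB c hc0 hc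
  refine ⟨Bad, hB1, hB2.trans ?_, ?_⟩
  · exact div_le_div_of_nonneg_left (by positivity) (hLp _) (hLL (Nat.le_succ _))
  · intro e he hbad hdeg1 hrho u v huv hvx
    have key := hB3 e he hbad hrho
    set f := mem1 P c e with hf
    have hdeg : ∀ i, (f i).natDegree ≤ d := fun i => mem1_deg hd P hP c e i
    have hV := b2 z hz1' hz2
    have hSlow := dsys_low z k d hk (by omega) f hdeg hrho L hV hL1
    rw [← hQ] at hSlow
    set S := dsys z f with hS
    have hSl : 1 / L ^ (Q + 1) ≤ S := by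
      refine le_trans ?_ hSlow
      have hGd : (0 : ℝ) < (2 * ((k * d : ℕ) : ℝ)) ^ Q := by
        have : (1 : ℝ) ≤ ((k * d : ℕ) : ℝ) := by exact_mod_cast hkd1
        positivity
      apply one_div_le_one_div_of_le (by positivity)
      rw [pow_succ, mul_comm (L ^ Q)]
      exact mul_le_mul_of_nonneg_right hLQ (hLp _).le
    have hS0 : 0 < S := lt_of_lt_of_le (by positivity) hSl
    -- the summand
    set h : ℕ → ℝ := fun m => (if (∀ i, ((f i).eval (m : ℤ)).natAbs.Prime) then (1 : ℝ) else 0) -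
      S * (if (∀ i, 2 ≤ |(f i).eval (m : ℤ)|) then ∏ i, 1 / Real.log (((|(f i).eval (m : ℤ)| : ℤ)) : ℝ) else 0) with hh'
    have hsum : ∀ u v : ℕ, ∑ m ∈ Ioc u v, h m = (cntA f (Ioc u v) : ℝ) - S * lsum f u v := by
      intro u v
      rw [hh']
      simp only
      rw [sum_sub_distrib, ← mul_sum, ← sum_filter]
      unfold cntA lsum
      rw [← sum_filter, card_eq_sum_ones]
      push_cast
      rfl
    have hlwabs : ∀ m : ℕ, ∏ i, 1 / Real.log (((|(f i).eval (m : ℤ)| : ℤ)) : ℝ) = lw f m := by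
      intro m
      unfold lw
      refine prod_congr rfl fun i _ => ?_
      push_cast
      rw [Real.log_abs]
    have hwin : ∀ u v, u < v → v ≤ x → (∀ m ∈ Ioc u v, m ∉ BP f 0 x) → |∑ m ∈ Ioc u v, h m| ≤ S * x / L ^ (U + 1) := by
      intro u v huv hvx hno
      have hno' : ∀ m ∈ Ioc u v, ∀ i, 3 ≤ |(f i).eval (m : ℤ)| ∧ 0 ≤ (f i).eval ((m : ℤ) - 1) * (f i).eval (m : ℤ) := by
        intro m hm i
        have h1 := hno m hm
        unfold BP at h1
        rw [mem_filter, mem_Ioc] at h1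
        rw [mem_Ioc] at hm
        push Not at h1
        have h2 := h1 ⟨by omega, by omega⟩ i
        exact ⟨by omega, h2.2⟩
      obtain ⟨σ, hσ⟩ : ∃ σ : Fin k → Bool, σ = fun i => decide (0 < (f i).eval ((u + 1 : ℕ) : ℤ)) := ⟨_, rfl⟩
      have hpos : ∀ i, ∀ m ∈ Ioc u v, 3 ≤ sg (σ i) * (f i).eval (m : ℤ) := by
        intro i m hm
        rw [mem_Ioc] at hm
        obtain ⟨hm1, hm2⟩ := hm
        induction m, (show u + 1 ≤ m by omega) using Nat.le_induction with
        | base =>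
          have h1 := (hno' (u + 1) (mem_Ioc.2 ⟨by omega, by omega⟩) i).1
          rw [hσ]
          unfold sg
          by_cases h2 : 0 < (f i).eval ((u + 1 : ℕ) : ℤ)
          · simp only [h2, decide_true, if_true, one_mul]
            rw [abs_of_pos h2] at h1
            exact h1
          · simp only [h2, decide_false, Bool.false_eq_true, if_false]
            rw [abs_of_nonpos (not_lt.1 h2)] at h1
            linarith
        | succ m hm3 ih =>
          have h1 := ih (by omega) (by omega)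
          have h2 := hno' (m + 1) (mem_Ioc.2 ⟨by omega, by omega⟩) i
          have h3 : (((m + 1 : ℕ) : ℤ) - 1) = (m : ℤ) := by push_cast; ring
          rw [h3] at h2
          obtain ⟨h4, h5⟩ := h2
          rcases sg_sq (σ i) with h6 | h6
          · rw [h6] at h1 ⊢
            rcases abs_cases ((f i).eval ((m + 1 : ℕ) : ℤ)) with ⟨h7, h8⟩ | ⟨h7, h8⟩
            · rw [h7] at h4; linarith
            · exfalso
              have : (f i).eval (m : ℤ) * (f i).eval ((m + 1 : ℕ) : ℤ) < 0 := mul_neg_of_pos_of_neg (by linarith) h8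
              linarith
          · rw [h6] at h1 ⊢
            rcases abs_cases ((f i).eval ((m + 1 : ℕ) : ℤ)) with ⟨h7, h8⟩ | ⟨h7, h8⟩
            · exfalso
              rw [h7] at h4
              have : (f i).eval (m : ℤ) * (f i).eval ((m + 1 : ℕ) : ℤ) < 0 := mul_neg_of_neg_of_pos (by linarith) (by linarith)
              linarith
            · rw [h7] at h4; linarith
      have h1 := key σ u v huv hvx hpos
      rw [hsum]
      have h2 : lsum f u v = ∑ m ∈ Ioc u v, lw f m := by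
        unfold lsum
        rw [filter_true_of_mem]
        · exact sum_congr rfl fun m _ => hlwabs m
        · intro m hm i
          have := (hno' m hm i).1
          omega
      rw [h2]
      exact h1
    have hpt : ∀ m, 1 ≤ m → m ≤ x → |h m| ≤ 1 + S * 2 ^ k := by
      intro m _ _
      rw [hh']
      simp only
      have g1 : |(if (∀ i, ((f i).eval (m : ℤ)).natAbs.Prime) then (1 : ℝ) else 0)| ≤ 1 := by
        split_ifs <;> norm_num
      have g2 : |S * (if (∀ i, 2 ≤ |(f i).eval (m : ℤ)|) then ∏ i, 1 / Real.log (((|(f i).eval (m : ℤ)| : ℤ)) : ℝ) else 0)| ≤ S * 2 ^ k := by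
        rw [abs_mul, abs_of_pos hS0]
        apply mul_le_mul_of_nonneg_left _ hS0.le
        split_ifs with h5
        · rw [abs_prod]
          calc ∏ i, |1 / Real.log (((|(f i).eval (m : ℤ)| : ℤ)) : ℝ)| ≤ ∏ _i : Fin k, (2 : ℝ) := by
                apply Finset.prod_le_prod
                · intro i _; exact abs_nonneg _
                · intro i _
                  have h6 : (2 : ℝ) ≤ ((|(f i).eval (m : ℤ)| : ℤ) : ℝ) := by exact_mod_cast h5 i
                  have h7 : Real.log 2 ≤ Real.log ((|(f i).eval (m : ℤ)| : ℤ) : ℝ) := Real.log_le_log (by norm_num) h6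
                  have h8 := Real.log_two_gt_d9
                  rw [abs_of_nonneg (by positivity), div_le_iff₀ (by linarith)]
                  linarith
            _ = 2 ^ k := by rw [prod_const, card_univ, Fintype.card_fin]
        · rw [abs_zero]; positivity
      calc _ ≤ |(if (∀ i, ((f i).eval (m : ℤ)).natAbs.Prime) then (1 : ℝ) else 0)| +
          |S * (if (∀ i, 2 ≤ |(f i).eval (m : ℤ)|) then ∏ i, 1 / Real.log (((|(f i).eval (m : ℤ)| : ℤ)) : ℝ) else 0)| := abs_sub _ _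
        _ ≤ _ := add_le_add g1 g2
    have hBP := BP_card f hdeg1 hdeg 0 x
    have key2 := windows_union h (BP f 0 x) (S * x / L ^ (U + 1)) (1 + S * 2 ^ k) (by positivity) (by positivity) x hwin hpt
      (6 * (k * d)) u v huv hvx ((card_le_card inter_subset_left).trans hBP)
    rw [hsum] at key2
    refine key2.trans ?_
    push_cast
    have g1 : (6 * ((k : ℝ) * d) + 1) * (S * x / L ^ (U + 1)) ≤ (1 / 2) * (S * x / L ^ U) := by
      have e1 : (6 * ((k : ℝ) * d) + 1) * (S * x / L ^ (U + 1)) = ((6 * ((k : ℝ) * d) + 1) / L) * (S * x / L ^ U) := by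
        rw [pow_succ]; field_simp
      rw [e1]
      apply mul_le_mul_of_nonneg_right _ (by positivity)
      rw [div_le_iff₀ hL0]
      linarith
    have g2 : 6 * ((k : ℝ) * d) * (1 + S * 2 ^ k) ≤ (1 / 2) * (S * x / L ^ U) := by
      have h5 : 1 ≤ S * L ^ (Q + 1) := by
        rw [div_le_iff₀ (hLp _)] at hSl
        exact hSl
      have h6 : L ^ (Q + 3) ≤ x / L ^ U := by
        rw [le_div_iff₀ (hLp _), ← pow_add]
        exact (hLL (by omega)).trans b4
      have h7 : S * L ^ (Q + 3) ≤ S * x / L ^ U := by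
        rw [mul_div_assoc]
        exact mul_le_mul_of_nonneg_left h6 hS0.le
      refine le_trans ?_ (mul_le_mul_of_nonneg_left h7 (by norm_num))
      have h8 : (12 * ((k : ℝ) * d)) ≤ L := by
        have : 12 * ((k : ℝ) * d) * 1 ≤ 24 * ((k : ℝ) * d) * 2 ^ k := by
          apply mul_le_mul (by linarith) h2k (by norm_num) (by positivity)
        linarith
      have h9 : 12 * ((k : ℝ) * d) * 1 ≤ L * (S * L ^ (Q + 1)) := mul_le_mul h8 h5 (by norm_num) hL0.le
      have h10 : 24 * ((k : ℝ) * d) * 2 ^ k * S ≤ L * S := mul_le_mul_of_nonneg_right hLT hS0.le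
      have h11 : L * S ≤ S * L ^ (Q + 2) := by
        rw [mul_comm]
        apply mul_le_mul_of_nonneg_left _ hS0.le
        exact le_self_pow₀ hL1 (by omega)
      have h12 : L * (S * L ^ (Q + 1)) = S * L ^ (Q + 2) := by ring
      have h13 : 4 * (S * L ^ (Q + 2)) ≤ S * L ^ (Q + 3) := by
        have : S * L ^ (Q + 3) = L * (S * L ^ (Q + 2)) := by ring
        rw [this]
        apply mul_le_mul_of_nonneg_right _ (by positivity)
        linarith
      have e1 : 6 * ((k : ℝ) * d) * (1 + S * 2 ^ k) = (1 / 2) * (12 * ((k : ℝ) * d) * 1) + (1 / 4) * (24 * ((k : ℝ) * d) * 2 ^ k * S) := by ring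
      rw [e1]
      have h14 : 0 < S * L ^ (Q + 2) := by positivity
      linarith
    linarith

end Pool.Agent.Y868.TC
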