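import Pool.Agent.Y868.TC.H2
import Pool.Agent.H373R2.T7.Crt
import Pool.Agent.H373R2.T7.Bonf

/-! The primes and their sieve model along the arguments `m` for which `F(m)` has no small prime divisor. -/

set_option autoImplicit false

namespace Pool.Agent.Y868.TC

open Finset Filter
open Polynomial (X C)
open scoped Polynomial
open Pool.Agent.H373R2.T7 (pz Vz lamz mem_pz Vz_inv_small ev_L' Vz_inv_le Vz_pos es es_le bonf_ind crt_aux)
open Pool.Agent.TH204.WR (rho hh vN model rho_le rho_le_deg hh_nonneg prod_le_one' prod_nonneg' V_low)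
open Pool.Agent.Y868.TA
open H343E (Fam card_mod)

/-- the residue classes modulo `∏ p` at which all `p ∣ F` -/
noncomputable def ZS (F : ℤ[X]) (S : Finset ℕ) : Finset ℕ :=
  (range (∏ p ∈ S, p)).filter (fun s : ℕ => ∀ p ∈ S, (p : ℤ) ∣ F.eval (s : ℤ))

lemma dvd_mod (F : ℤ[X]) (p a b : ℕ) (h : a ≡ b [MOD p]) : (p : ℤ) ∣ F.eval (a : ℤ) ↔ (p : ℤ) ∣ F.eval (b : ℤ) := by
  have h1 : (p : ℤ) ∣ (b : ℤ) - a := (Nat.modEq_iff_dvd).1 h
  have h2 : (p : ℤ) ∣ F.eval (b : ℤ) - F.eval (a : ℤ) := h1.trans (Polynomial.sub_dvd_eval_sub _ _ _)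
  constructor
  · intro h3
    have := dvd_add h2 h3
    rwa [sub_add_cancel] at this
  · intro h3
    have := dvd_sub h3 h2
    rwa [sub_sub_cancel] at this

lemma ZS_card (F : ℤ[X]) (S : Finset ℕ) (hS : ∀ p ∈ S, p.Prime) : #(ZS F S) = ∏ p ∈ S, rho F 0 p := by
  classical
  have h := crt_aux (fun p a => (p : ℤ) ∣ F.eval (a : ℤ)) S hS 1 le_rfl (fun p hp h => (hS p hp).one_lt.ne' (Nat.dvd_one.1 h)) 0
  rw [one_mul] at h
  have h1 : ZS F S = (range (∏ p ∈ S, p)).filter (fun n => n ≡ 0 [MOD 1] ∧ ∀ p ∈ S, (p : ℤ) ∣ F.eval ((n % p : ℕ) : ℤ)) := by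
    unfold ZS
    apply filter_congr
    intro n _
    constructor
    · intro h2
      exact ⟨Nat.modEq_one, fun p hp => (dvd_mod F p _ _ (Nat.mod_modEq n p)).2 (h2 p hp)⟩
    · rintro ⟨_, h2⟩ p hp
      exact (dvd_mod F p _ _ (Nat.mod_modEq n p)).1 (h2 p hp)
  rw [h1, h]
  refine prod_congr rfl fun p _ => ?_
  unfold rho
  simp only [add_zero]

lemma sum_ZS (F : ℤ[X]) (S : Finset ℕ) (hS : ∀ p ∈ S, p.Prime) (g : ℕ → ℝ) (y : ℕ) :
    ∑ m ∈ (Icc 1 y).filter (fun m : ℕ => ∀ p ∈ S, (p : ℤ) ∣ F.eval (m : ℤ)), g m = ∑ s ∈ ZS F S, cs g y (∏ p ∈ S, p) s := by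
  classical
  have hd : 0 < ∏ p ∈ S, p := prod_pos fun p hp => (hS p hp).pos
  unfold cs
  rw [← sum_fiberwise_of_maps_to (s := (Icc 1 y).filter (fun m : ℕ => ∀ p ∈ S, (p : ℤ) ∣ F.eval (m : ℤ))) (t := ZS F S)
    (g := fun m => m % ∏ p ∈ S, p)]
  · refine sum_congr rfl fun s hs => ?_
    unfold ZS at hs
    rw [mem_filter, mem_range] at hs
    apply sum_congr _ (fun _ _ => rfl)
    ext m
    simp only [mem_filter]
    constructor
    · rintro ⟨⟨h1, h2⟩, h3⟩
      refine ⟨h1, ?_⟩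
      rw [← h3]
      exact (Nat.mod_modEq m _).symm
    · rintro ⟨h1, h2⟩
      refine ⟨⟨h1, fun p hp => ?_⟩, ?_⟩
      · exact (dvd_mod F p _ _ (h2.of_dvd (dvd_prod_of_mem _ hp))).2 (hs.2 p hp)
      · have h3 : m % (∏ p ∈ S, p) = s % (∏ p ∈ S, p) := h2
        rw [h3, Nat.mod_eq_of_lt hs.1]
  · intro m hm
    rw [mem_filter] at hm
    unfold ZS
    rw [mem_filter, mem_range]
    refine ⟨Nat.mod_lt _ hd, fun p hp => ?_⟩
    exact (dvd_mod F p _ _ ((Nat.mod_modEq m _).of_dvd (dvd_prod_of_mem _ hp))).2 (hm.2 p hp)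

/-- the sum of the reciprocals of the primes -/
lemma sum_inv_le (z : ℕ) : ∑ p ∈ pz z, 1 / (p : ℝ) ≤ Real.log (Vz z)⁻¹ := by
  unfold Vz
  rw [Real.log_inv, Real.log_prod (fun p hp => by
    have h1 := (mem_pz.1 hp).2.two_le
    have h2 : (2 : ℝ) ≤ p := by exact_mod_cast h1
    have h3 : 1 / (p : ℝ) ≤ 1 / 2 := one_div_le_one_div_of_le (by norm_num) h2
    linarith), ← sum_neg_distrib]
  refine sum_le_sum fun p hp => ?_
  have h1 := (mem_pz.1 hp).2.two_le
  have h2 : (2 : ℝ) ≤ p := by exact_mod_cast h1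
  have h3 : 1 / (p : ℝ) ≤ 1 / 2 := one_div_le_one_div_of_le (by norm_num) h2
  have h4 := Real.log_le_sub_one_of_pos (show 0 < 1 - 1 / (p : ℝ) by linarith)
  linarith

lemma prod_prime_inj (T : Finset ℕ) (hT : ∀ p ∈ T, p.Prime) :
    ∀ S ∈ T.powerset, ∀ S' ∈ T.powerset, ∏ p ∈ S, p = ∏ p ∈ S', p → S = S' := by
  intro S hS S' hS' h
  have h1 := Nat.primeFactors_prod (s := S) (fun p hp => hT p (mem_powerset.1 hS hp))
  have h2 := Nat.primeFactors_prod (s := S') (fun p hp => hT p (mem_powerset.1 hS' hp))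
  rw [← h1, ← h2, h]

lemma prod_le_pow' (z : ℕ) (hz : 1 ≤ z) (S : Finset ℕ) (hS : S ⊆ pz z) (r : ℕ) (hr : #S ≤ r) : ∏ p ∈ S, p ≤ z ^ r := by
  calc ∏ p ∈ S, p ≤ ∏ _p ∈ S, z := Finset.prod_le_prod' fun p hp => (mem_pz.1 (hS hp)).1
    _ = z ^ #S := by rw [prod_const]
    _ ≤ z ^ r := Nat.pow_le_pow_right hz hr

/-- the choice of the number of prime factors -/
lemma pick_r (c1 E : ℕ) : ∃ l0 : ℝ, ∀ L : ℝ, l0 ≤ L → ∃ r : ℕ, (c1 : ℝ) * Real.log L ≤ r ∧ (r : ℝ) ≤ c1 * Real.log L + 1 ∧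
    L ^ (E * r) ≤ Real.exp (L / 8) := by
  obtain ⟨M, hM⟩ : ∃ M : ℝ, M = 48 * E * (c1 + 1) + 1 := ⟨_, rfl⟩
  refine ⟨Real.exp M, fun L hL => ?_⟩
  have hM1 : 1 ≤ M := by rw [hM]; have : (0 : ℝ) ≤ 48 * E * (c1 + 1) := by positivity
                         linarith
  have hL0 : 0 < L := (Real.exp_pos _).trans_le hL
  have hl : M ≤ Real.log L := by
    rw [Real.le_log_iff_exp_le hL0]; exact hL
  set l := Real.log L with hl'
  have hl0 : 0 < l := by linarith
  refine ⟨⌈(c1 : ℝ) * l⌉₊, Nat.le_ceil _, (Nat.ceil_lt_add_one (by positivity)).le, ?_⟩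
  have hr : ((⌈(c1 : ℝ) * l⌉₊ : ℕ) : ℝ) ≤ c1 * l + 1 := (Nat.ceil_lt_add_one (by positivity)).le
  set r := ⌈(c1 : ℝ) * l⌉₊ with hr'
  have h1 : L ^ (E * r) = Real.exp (E * r * l) := by
    rw [← Real.exp_log hL0, ← hl', ← Real.exp_nat_mul]
    push_cast
    rfl
  rw [h1]
  apply Real.exp_le_exp.2
  have h2 : l ^ 3 / 6 ≤ L := by
    have := Real.pow_div_factorial_le_exp l hl0.le 3
    rw [Real.exp_log hL0] at this
    simpa [Nat.factorial] using this
  have h3 : (E : ℝ) * r * l ≤ E * (c1 + 1) * l ^ 2 := by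
    have h4 : (r : ℝ) ≤ (c1 + 1) * l := by
      have : (1 : ℝ) ≤ l := by linarith
      nlinarith
    calc (E : ℝ) * r * l ≤ E * ((c1 + 1) * l) * l := by gcongr
      _ = _ := by ring
  have h5 : 48 * ((E : ℝ) * (c1 + 1)) ≤ l := by linarith
  have h6 : 48 * ((E : ℝ) * (c1 + 1)) * l ^ 2 ≤ l * l ^ 2 := mul_le_mul_of_nonneg_right h5 (by positivity)
  have h7 : l * l ^ 2 = l ^ 3 := by ring
  linarith

open Classical in
/-- **The primes and their model at the arguments with rough values.** -/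
theorem pa (d0 U : ℕ) : ∃ E0 : ℕ, ∀ E : ℕ, ∃ x0 : ℕ, ∀ x : ℕ, x0 ≤ x → ∀ z : ℕ, Real.log x ^ E0 ≤ z → (z : ℝ) ≤ Real.log x ^ E →
    ∀ F : ℤ[X], F.natDegree ≤ d0 → ∀ y : ℕ, y ≤ x →
    |∑ m ∈ Icc 1 y, FF z m * (if ∀ p ∈ pz z, ¬ (p : ℤ) ∣ F.eval (m : ℤ) then (1 : ℝ) else 0)| ≤ x / Real.log x ^ U := by
  obtain ⟨c1, hc1⟩ : ∃ c1, c1 = 3 * d0 + U + 5 := ⟨_, rfl⟩
  obtain ⟨a0, ha0⟩ : ∃ a0, a0 = d0 * c1 + 1 := ⟨_, rfl⟩
  obtain ⟨B, E0, hbv⟩ := bv_FF (U + a0 + 2)
  refine ⟨E0 + a0, fun E => ?_⟩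
  obtain ⟨Y0, h0⟩ := hbv E
  obtain ⟨l0, hl0⟩ := pick_r c1 E
  obtain ⟨x2, h2⟩ := Vz_inv_small E
  obtain ⟨x3, h3⟩ := ev_L' (max l0 (Real.exp d0 + 16))
  obtain ⟨x4, h4⟩ := evt_polylog (2 * (U + B + a0 + 6))
  refine ⟨max (max (Y0 ^ 2) x2) (max (max x3 x4) 3), fun x hx z hz1 hz2 F hF y hy => ?_⟩
  have b1 := le_trans (le_trans (le_max_left _ _) (le_max_left _ _)) hx
  have b2 := h2 x (le_trans (le_trans (le_max_right _ _) (le_max_left _ _)) hx)
  have b3 := h3 x (le_trans (le_trans (le_trans (le_max_left _ _) (le_max_left _ _)) (le_max_right _ _)) hx)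
  have b4 := h4 x (le_trans (le_trans (le_trans (le_max_right _ _) (le_max_left _ _)) (le_max_right _ _)) hx)
  have hx3 : 3 ≤ x := le_trans (le_trans (le_max_right _ _) (le_max_right _ _)) hx
  set L := Real.log x with hL
  have hLl0 : l0 ≤ L := (le_max_left _ _).trans b3
  have hLd : Real.exp d0 + 16 ≤ L := (le_max_right _ _).trans b3
  have hed : Real.exp d0 ≤ L := by linarith
  have hL16 : 16 ≤ L := by have := Real.exp_pos (d0 : ℝ); linarith
  have hL1 : 1 ≤ L := by linarith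
  have hL0 : 0 < L := by linarith
  have hLp : ∀ n : ℕ, 0 < L ^ n := fun n => by positivity
  have hLp1 : ∀ n : ℕ, 1 ≤ L ^ n := fun n => one_le_pow₀ hL1
  have hLL : ∀ {i j : ℕ}, i ≤ j → L ^ i ≤ L ^ j := fun h => pow_le_pow_right₀ hL1 h
  have hx0 : (0 : ℝ) < x := by exact_mod_cast (by omega : 0 < x)
  have hx1 : 1 ≤ x := by omega
  have hexp : Real.exp L = x := Real.exp_log hx0
  have hz1' : 1 ≤ z := by
    have : (1 : ℝ) ≤ z := (hLp1 _).trans hz1
    exact_mod_cast this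
  have hV := b2 z hz1' hz2
  have hFF : ∀ m ≤ x, |FF z m| ≤ L := fun m hm => FF_abs z m x hx1 hm hV
  have hyr : (y : ℝ) ≤ x := by exact_mod_cast hy
  -- short sums
  by_cases hys : (y : ℝ) < x / L ^ (U + 1)
  · calc |∑ m ∈ Icc 1 y, FF z m * (if ∀ p ∈ pz z, ¬ (p : ℤ) ∣ F.eval (m : ℤ) then (1 : ℝ) else 0)| ≤ ∑ m ∈ Icc 1 y, L := by
          refine (abs_sum_le_sum_abs _ _).trans (sum_le_sum fun m hm => ?_)
          rw [mem_Icc] at hm
          rw [abs_mul]
          have h5 : |(if ∀ p ∈ pz z, ¬ (p : ℤ) ∣ F.eval (m : ℤ) then (1 : ℝ) else 0)| ≤ 1 := by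
            split_ifs <;> norm_num
          calc _ ≤ L * 1 := mul_le_mul (hFF m (hm.2.trans hy)) h5 (abs_nonneg _) hL0.le
            _ = L := mul_one _
      _ = y * L := by rw [sum_const, Nat.card_Icc, nsmul_eq_mul, Nat.add_sub_cancel]
      _ ≤ (x / L ^ (U + 1)) * L := mul_le_mul_of_nonneg_right hys.le hL0.le
      _ = x / L ^ U := by rw [pow_succ]; field_simp
  push Not at hys
  -- a fixed prime divisor
  by_cases hfix : ∃ p ∈ pz z, ¬ rho F 0 p < p
  · obtain ⟨p, hp, hpr⟩ := hfix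
    have h5 : ∀ m : ℕ, (p : ℤ) ∣ F.eval (m : ℤ) := by
      intro m
      have hpp := (mem_pz.1 hp).2
      have h6 : rho F 0 p = p := le_antisymm (rho_le F 0 p) (not_lt.1 hpr)
      unfold rho at h6
      have h7 : (range p).filter (fun a : ℕ => (p : ℤ) ∣ F.eval (a : ℤ) + 0) = range p := by
        apply eq_of_subset_of_card_le (filter_subset _ _)
        rw [h6, card_range]
      have h8 : m % p ∈ (range p).filter (fun a : ℕ => (p : ℤ) ∣ F.eval (a : ℤ) + 0) := by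
        rw [h7, mem_range]; exact Nat.mod_lt _ hpp.pos
      have h9 := (mem_filter.1 h8).2
      rw [add_zero] at h9
      exact (dvd_mod F p _ _ (Nat.mod_modEq m p)).1 h9
    have h6 : ∑ m ∈ Icc 1 y, FF z m * (if ∀ p ∈ pz z, ¬ (p : ℤ) ∣ F.eval (m : ℤ) then (1 : ℝ) else 0) = 0 := by
      apply sum_eq_zero
      intro m _
      rw [if_neg (by intro h; exact h p hp (h5 m)), mul_zero]
    rw [h6, abs_zero]
    positivity
  push Not at hfix
  have hrho : ∀ p ∈ pz z, rho F 0 p ≤ d0 := fun p hp => (rho_le_deg F 0 p (mem_pz.1 hp).2 (hfix p hp)).trans hF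
  -- the parameter
  obtain ⟨r, hr1, hr2, hr3⟩ := hl0 L hLl0
  obtain ⟨A, hA⟩ : ∃ A : ℝ, A = L ^ a0 := ⟨_, rfl⟩
  have hA1 : 1 ≤ A := by rw [hA]; exact hLp1 _
  have hAz : A ≤ z := by rw [hA]; exact (hLL (by omega)).trans hz1
  have hlogL : 0 ≤ Real.log L := Real.log_nonneg hL1
  have hexpl : Real.exp (Real.log L) = L := Real.exp_log hL0
  have hdr : (d0 : ℝ) ^ r ≤ A := by
    have h5 : (d0 : ℝ) ≤ Real.exp d0 := by have := Real.add_one_le_exp (d0 : ℝ); linarith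
    calc (d0 : ℝ) ^ r ≤ (Real.exp d0) ^ r := pow_le_pow_left₀ (by positivity) h5 r
      _ = Real.exp (r * d0) := by rw [← Real.exp_nat_mul]
      _ ≤ Real.exp ((d0 * c1 : ℕ) * Real.log L + d0) := by
          apply Real.exp_le_exp.2
          push_cast
          nlinarith [mul_le_mul_of_nonneg_right hr2 (Nat.cast_nonneg (α := ℝ) d0)]
      _ = L ^ (d0 * c1) * Real.exp d0 := by rw [Real.exp_add, Real.exp_nat_mul, hexpl]
      _ ≤ L ^ (d0 * c1) * L := mul_le_mul_of_nonneg_left hed (hLp _).le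
      _ = A := by rw [hA, ha0, pow_succ]
  have hdr' : ∀ j ≤ r, ∀ S ∈ (pz z).powersetCard j, (#(ZS F S) : ℝ) ≤ A := by
    intro j hj S hS
    rw [mem_powersetCard] at hS
    rw [ZS_card F S (fun p hp => (mem_pz.1 (hS.1 hp)).2)]
    rcases Nat.eq_zero_or_pos d0 with h5 | h5
    · rcases S.eq_empty_or_nonempty with h6 | ⟨p, hp⟩
      · rw [h6, prod_empty]; exact_mod_cast hA1
      · have h7 : ∏ p ∈ S, rho F 0 p = 0 := prod_eq_zero hp (by have := hrho p (hS.1 hp); omega)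
        rw [h7]; push_cast; linarith
    · have h6 : ∏ p ∈ S, rho F 0 p ≤ d0 ^ r := by
        calc ∏ p ∈ S, rho F 0 p ≤ ∏ _p ∈ S, d0 := Finset.prod_le_prod' fun p hp => hrho p (hS.1 hp)
          _ = d0 ^ #S := by rw [prod_const]
          _ ≤ d0 ^ r := Nat.pow_le_pow_right h5 (by rw [hS.2]; exact hj)
      exact (by exact_mod_cast h6 : ((∏ p ∈ S, rho F 0 p : ℕ) : ℝ) ≤ (d0 : ℝ) ^ r).trans hdr
  -- the moduli
  obtain ⟨Kd, hKd⟩ : ∃ Kd, Kd = z ^ r := ⟨_, rfl⟩
  have hKr : (Kd : ℝ) ≤ Real.exp (L / 8) := by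
    rw [hKd]
    push_cast
    calc (z : ℝ) ^ r ≤ (L ^ E) ^ r := pow_le_pow_left₀ (by positivity) hz2 r
      _ = L ^ (E * r) := by rw [← pow_mul]
      _ ≤ _ := hr3
  have hsq : Real.exp (L / 2) ^ 2 = x := by rw [← Real.exp_nat_mul, ← hexp]; congr 1; push_cast; ring
  have hNs : L ^ (U + B + a0 + 6) ≤ Real.exp (L / 2) := by
    have h5 : (L ^ (U + B + a0 + 6)) ^ 2 ≤ Real.exp (L / 2) ^ 2 := by
      rw [hsq, ← pow_mul, mul_comm]; exact b4
    exact le_of_sq_le_sq h5 (Real.exp_pos _).le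
  have hK2 : (Kd : ℝ) ^ 2 ≤ Real.exp (L / 2) := by
    calc (Kd : ℝ) ^ 2 ≤ Real.exp (L / 8) ^ 2 := pow_le_pow_left₀ (Nat.cast_nonneg _) hKr 2
      _ = Real.exp (L / 4) := by rw [← Real.exp_nat_mul]; congr 1; push_cast; ring
      _ ≤ _ := Real.exp_le_exp.2 (by linarith)
  have hKd1 : (1 : ℝ) ≤ Kd := by rw [hKd]; exact_mod_cast Nat.one_le_pow _ _ hz1'
  have hK1 : (Kd : ℝ) ≤ Real.exp (L / 2) := by nlinarith
  have hxsq : (x : ℝ) = Real.exp (L / 2) * Real.exp (L / 2) := by rw [← hsq]; ring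
  have hKx : (Kd : ℝ) ^ 2 * L ^ (U + B + a0 + 6) ≤ x := by
    rw [hxsq]; exact mul_le_mul hK2 hNs (hLp _).le (Real.exp_pos _).le
  have hyB : (Kd : ℝ) ^ 2 ≤ y / L ^ B := by
    rw [le_div_iff₀ (hLp B)]
    refine le_trans ?_ hys
    rw [le_div_iff₀ (hLp _)]
    calc (Kd : ℝ) ^ 2 * L ^ B * L ^ (U + 1) = (Kd : ℝ) ^ 2 * L ^ (B + (U + 1)) := by rw [pow_add]; ring
      _ ≤ (Kd : ℝ) ^ 2 * L ^ (U + B + a0 + 6) := mul_le_mul_of_nonneg_left (hLL (by omega)) (by positivity)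
      _ ≤ x := hKx
  have hxy2 : x ≤ y ^ 2 := by
    have h5 : Real.exp (L / 2) ≤ y := by
      refine le_trans ?_ hys
      rw [le_div_iff₀ (hLp _), hxsq]
      exact mul_le_mul_of_nonneg_left ((hLL (by omega)).trans hNs) (Real.exp_pos _).le
    have h6 : (x : ℝ) ≤ (y : ℝ) ^ 2 := by
      rw [← hsq]; exact pow_le_pow_left₀ (Real.exp_pos _).le h5 2
    exact_mod_cast h6
  have hY0 : Y0 ≤ y := by
    by_contra hcon
    push Not at hcon
    have h5 : y ^ 2 < Y0 ^ 2 := Nat.pow_lt_pow_left hcon (by norm_num)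
    omega
  -- the family
  have hTp : ∀ p ∈ pz z, p.Prime := fun p hp => (mem_pz.1 hp).2
  obtain ⟨Lf, hLf⟩ : ∃ Lf : ℕ → Finset ℕ, Lf = fun d => if (Squarefree d ∧ d.primeFactors ⊆ pz z ∧ #d.primeFactors ≤ r) then
      (ZS F d.primeFactors).filter (fun s => s.Coprime d) else ∅ := ⟨_, rfl⟩
  have hpf : ∀ S ⊆ pz z, (∏ p ∈ S, p).primeFactors = S := fun S hS => Nat.primeFactors_prod (fun p hp => hTp p (hS hp))
  have hsqf : ∀ S ⊆ pz z, Squarefree (∏ p ∈ S, p) := by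
    intro S hS
    exact Finset.squarefree_prod_of_pairwise_isCoprime (fun p hp q hq hpq => by
      rw [Function.onFun, Nat.coprime_iff_isRelPrime.symm]
      exact (Nat.coprime_primes (hTp p (hS hp)) (hTp q (hS hq))).2 hpq) (fun p hp => (hTp p (hS hp)).prime.squarefree)
  have hFam : Fam A Lf := by
    constructor
    · intro d a ha
      rw [hLf] at ha
      simp only at ha
      split_ifs at ha with h5
      · rw [mem_filter] at ha
        unfold ZS at ha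
        rw [mem_filter, mem_range, Nat.prod_primeFactors_of_squarefree h5.1] at ha
        exact ⟨ha.1.1, ha.2⟩
      · exact absurd ha (notMem_empty _)
    · intro d
      rw [hLf]
      simp only
      split_ifs with h5
      · refine le_trans ?_ (hdr' #d.primeFactors h5.2.2 d.primeFactors (mem_powersetCard.2 ⟨h5.2.1, rfl⟩))
        exact_mod_cast card_filter_le _ _
      · rw [card_empty]; push_cast; linarith
  have hbvA := h0 x z ((hLL (by omega)).trans hz1) hz2 y hY0 hy hxy2 A hA1 hAz Kd (le_trans (by nlinarith) hyB)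
    (hyB.trans (by
      rw [mul_div_assoc]
      exact le_mul_of_one_le_left (by positivity) hA1)) Lf hFam
  -- the sum over the classes of one modulus
  have hone : ∀ j ≤ r, ∀ S ∈ (pz z).powersetCard j, ∑ s ∈ ZS F S, |cs (FF z) y (∏ p ∈ S, p) s| ≤
      ∑ a ∈ Lf (∏ p ∈ S, p), |cs (FF z) y (∏ p ∈ S, p) a| + A * L := by
    intro j hj S hS
    have hS' := mem_powersetCard.1 hS
    have e1 : Lf (∏ p ∈ S, p) = (ZS F S).filter (fun s => s.Coprime (∏ p ∈ S, p)) := by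
      rw [hLf]
      simp only [hpf S hS'.1]
      rw [if_pos ⟨hsqf S hS'.1, hS'.1, by omega⟩]
    rw [e1, ← sum_filter_add_sum_filter_not (ZS F S) (fun s => s.Coprime (∏ p ∈ S, p))]
    have h5 : ∑ s ∈ (ZS F S).filter (fun s => ¬ s.Coprime (∏ p ∈ S, p)), |cs (FF z) y (∏ p ∈ S, p) s| ≤ A * L := by
      calc ∑ s ∈ (ZS F S).filter (fun s => ¬ s.Coprime (∏ p ∈ S, p)), |cs (FF z) y (∏ p ∈ S, p) s| ≤
          ∑ _s ∈ (ZS F S).filter (fun s => ¬ s.Coprime (∏ p ∈ S, p)), L := by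
            refine sum_le_sum fun s hs => ?_
            obtain ⟨hs1, hs2⟩ := mem_filter.1 hs
            rw [Nat.Prime.not_coprime_iff_dvd] at hs2
            obtain ⟨p, hp, hps, hpd⟩ := hs2
            have hpS : p ∈ S := by
              have : p ∈ (∏ p ∈ S, p).primeFactors := Nat.mem_primeFactors.2 ⟨hp, hpd, (hsqf S hS'.1).ne_zero⟩
              rwa [hpf S hS'.1] at this
            exact nc_class z _ s x y p hp (mem_pz.1 (hS'.1 hpS)).1 hpd hps hx1 hy
        _ = #((ZS F S).filter (fun s => ¬ s.Coprime (∏ p ∈ S, p))) * L := by rw [sum_const, nsmul_eq_mul]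
        _ ≤ A * L := by
            apply mul_le_mul_of_nonneg_right _ hL0.le
            refine le_trans ?_ (hdr' j hj S hS)
            exact_mod_cast card_filter_le _ _
    linarith
  -- sums over the sets of primes
  have hset : ∀ g : ℕ → ℝ, (∀ d, 0 ≤ g d) → ∑ j ∈ range r, ∑ S ∈ (pz z).powersetCard j, g (∏ p ∈ S, p) ≤ ∑ d ∈ Icc 1 Kd, g d := by
    intro g hg
    have h5 : ∑ j ∈ range r, ∑ S ∈ (pz z).powersetCard j, g (∏ p ∈ S, p) =
        ∑ S ∈ (range r).biUnion (fun j => (pz z).powersetCard j), g (∏ p ∈ S, p) := by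
      rw [sum_biUnion]
      intro i _ j _ hij
      rw [Function.onFun, disjoint_left]
      intro S hS hS'
      rw [mem_powersetCard] at hS hS'
      exact hij (hS.2.symm.trans hS'.2)
    rw [h5]
    have h6 : Set.InjOn (fun S : Finset ℕ => ∏ p ∈ S, p) ((range r).biUnion (fun j => (pz z).powersetCard j) : Finset (Finset ℕ)) := by
      intro S hS S' hS' h
      rw [mem_coe, mem_biUnion] at hS hS'
      obtain ⟨j, _, hj⟩ := hS
      obtain ⟨j', _, hj'⟩ := hS'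
      exact prod_prime_inj (pz z) hTp S (mem_powerset.2 (mem_powersetCard.1 hj).1) S' (mem_powerset.2 (mem_powersetCard.1 hj').1) h
    rw [← sum_image (f := g) (g := fun S : Finset ℕ => ∏ p ∈ S, p) h6]
    apply sum_le_sum_of_subset_of_nonneg
    · intro d hd
      rw [mem_image] at hd
      obtain ⟨S, hS, rfl⟩ := hd
      rw [mem_biUnion] at hS
      obtain ⟨j, hj, hjS⟩ := hS
      rw [mem_range] at hj
      rw [mem_powersetCard] at hjS
      rw [mem_Icc]
      refine ⟨Nat.pos_of_ne_zero (hsqf S hjS.1).ne_zero, ?_⟩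
      rw [hKd]
      exact prod_le_pow' z hz1' S hjS.1 r (by omega)
    · intro d _ _; exact hg d
  have hcardr : (#((pz z).powersetCard r) : ℝ) ≤ Kd := by
    have h5 : #((pz z).powersetCard r) ≤ #(Icc 1 Kd) := by
      apply card_le_card_of_injOn (fun S : Finset ℕ => ∏ p ∈ S, p)
      · intro S hS
        rw [mem_coe, mem_powersetCard] at hS
        rw [mem_coe, mem_Icc]
        refine ⟨Nat.pos_of_ne_zero (hsqf S hS.1).ne_zero, ?_⟩
        rw [hKd]
        exact prod_le_pow' z hz1' S hS.1 r (by omega)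
      · intro S hS S' hS' h
        rw [mem_coe] at hS hS'
        exact prod_prime_inj (pz z) hTp S (mem_powerset.2 (mem_powersetCard.1 hS).1) S' (mem_powerset.2 (mem_powersetCard.1 hS').1) h
    rw [Nat.card_Icc, Nat.add_sub_cancel] at h5
    exact_mod_cast h5
  -- Bonferroni
  have hbon := fun m : ℕ => bonf_ind (fun p (m : ℕ) => (p : ℤ) ∣ F.eval (m : ℤ)) (pz z) r m
  obtain ⟨I, hI⟩ : ∃ I : Finset ℕ → ℕ → ℝ, I = fun (S : Finset ℕ) (m : ℕ) => (if ∀ p ∈ S, (p : ℤ) ∣ F.eval (m : ℤ) then (1 : ℝ) else 0) :=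
    ⟨fun (S : Finset ℕ) (m : ℕ) => (if ∀ p ∈ S, (p : ℤ) ∣ F.eval (m : ℤ) then (1 : ℝ) else 0), rfl⟩
  have hI0 : ∀ S m, 0 ≤ I S m := by
    intro S m; rw [hI]; simp only; split_ifs <;> norm_num
  have hsumI : ∀ S ⊆ pz z, ∀ g : ℕ → ℝ, ∑ m ∈ Icc 1 y, g m * I S m = ∑ s ∈ ZS F S, cs g y (∏ p ∈ S, p) s := by
    intro S hS g
    rw [← sum_ZS F S (fun p hp => hTp p (hS hp)), sum_filter]
    refine sum_congr rfl fun m _ => ?_
    rw [hI]
    simp only
    split_ifs
    · rw [mul_one]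
    · rw [mul_zero]
  have hdec : |∑ m ∈ Icc 1 y, FF z m * (if ∀ p ∈ pz z, ¬ (p : ℤ) ∣ F.eval (m : ℤ) then (1 : ℝ) else 0)| ≤
      |∑ m ∈ Icc 1 y, FF z m * ∑ j ∈ range r, (-1 : ℝ) ^ j * ∑ S ∈ (pz z).powersetCard j, I S m| +
      ∑ m ∈ Icc 1 y, L * ∑ S ∈ (pz z).powersetCard r, I S m := by
    have e1 : ∑ m ∈ Icc 1 y, FF z m * (if ∀ p ∈ pz z, ¬ (p : ℤ) ∣ F.eval (m : ℤ) then (1 : ℝ) else 0) =
        ∑ m ∈ Icc 1 y, FF z m * ∑ j ∈ range r, (-1 : ℝ) ^ j * ∑ S ∈ (pz z).powersetCard j, I S m +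
        ∑ m ∈ Icc 1 y, FF z m * ((if ∀ p ∈ pz z, ¬ (p : ℤ) ∣ F.eval (m : ℤ) then (1 : ℝ) else 0) -
          ∑ j ∈ range r, (-1 : ℝ) ^ j * ∑ S ∈ (pz z).powersetCard j, I S m) := by
      rw [← sum_add_distrib]
      refine sum_congr rfl fun m _ => ?_
      ring
    rw [e1]
    refine (abs_add_le _ _).trans (add_le_add le_rfl ?_)
    refine (abs_sum_le_sum_abs _ _).trans (sum_le_sum fun m hm => ?_)
    rw [mem_Icc] at hm
    rw [abs_mul]
    apply mul_le_mul (hFF m (hm.2.trans hy)) _ (abs_nonneg _) hL0.le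
    have h5 := hbon m
    rw [hI]
    convert h5
    rfl
  -- the main part
  have hmain : |∑ m ∈ Icc 1 y, FF z m * ∑ j ∈ range r, (-1 : ℝ) ^ j * ∑ S ∈ (pz z).powersetCard j, I S m| ≤
      A * y / L ^ (U + a0 + 2) + Kd * (A * L) := by
    have e1 : ∑ m ∈ Icc 1 y, FF z m * ∑ j ∈ range r, (-1 : ℝ) ^ j * ∑ S ∈ (pz z).powersetCard j, I S m =
        ∑ j ∈ range r, (-1 : ℝ) ^ j * ∑ S ∈ (pz z).powersetCard j, ∑ m ∈ Icc 1 y, FF z m * I S m := by
      have e2 : ∀ m, FF z m * ∑ j ∈ range r, (-1 : ℝ) ^ j * ∑ S ∈ (pz z).powersetCard j, I S m =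
          ∑ j ∈ range r, (-1 : ℝ) ^ j * ∑ S ∈ (pz z).powersetCard j, FF z m * I S m := by
        intro m
        rw [mul_sum]
        refine sum_congr rfl fun j _ => ?_
        rw [mul_sum, mul_sum, mul_sum]
        refine sum_congr rfl fun S _ => ?_
        ring
      simp_rw [e2]
      rw [sum_comm]
      refine sum_congr rfl fun j _ => ?_
      rw [← mul_sum, sum_comm]
    rw [e1]
    calc |∑ j ∈ range r, (-1 : ℝ) ^ j * ∑ S ∈ (pz z).powersetCard j, ∑ m ∈ Icc 1 y, FF z m * I S m|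
        ≤ ∑ j ∈ range r, ∑ S ∈ (pz z).powersetCard j, (∑ a ∈ Lf (∏ p ∈ S, p), |cs (FF z) y (∏ p ∈ S, p) a| + A * L) := by
          refine (abs_sum_le_sum_abs _ _).trans (sum_le_sum fun j hj => ?_)
          rw [mem_range] at hj
          rw [abs_mul, abs_pow, abs_neg, abs_one, one_pow, one_mul]
          refine (abs_sum_le_sum_abs _ _).trans (sum_le_sum fun S hS => ?_)
          rw [hsumI S (mem_powersetCard.1 hS).1]
          exact (abs_sum_le_sum_abs _ _).trans (hone j hj.le S hS)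
      _ ≤ ∑ d ∈ Icc 1 Kd, (∑ a ∈ Lf d, |cs (FF z) y d a| + A * L) :=
          hset (fun d => ∑ a ∈ Lf d, |cs (FF z) y d a| + A * L) (fun d => by positivity)
      _ = ∑ d ∈ Icc 1 Kd, ∑ a ∈ Lf d, |cs (FF z) y d a| + Kd * (A * L) := by
          rw [sum_add_distrib, sum_const, Nat.card_Icc, Nat.add_sub_cancel, nsmul_eq_mul]
      _ ≤ _ := by linarith
  -- the error
  have hes : es (fun p => (rho F 0 p : ℝ) / p) (pz z) r ≤ 1 / L ^ (U + 5) := by
    refine (es_le (fun p _ => by positivity) r).trans ?_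
    have h5 : ∑ p ∈ pz z, (rho F 0 p : ℝ) / p ≤ d0 * Real.log L := by
      calc ∑ p ∈ pz z, (rho F 0 p : ℝ) / p ≤ ∑ p ∈ pz z, d0 * (1 / (p : ℝ)) := by
            refine sum_le_sum fun p hp => ?_
            rw [mul_one_div]
            apply div_le_div_of_nonneg_right _ (Nat.cast_nonneg _)
            exact_mod_cast hrho p hp
        _ = d0 * ∑ p ∈ pz z, 1 / (p : ℝ) := by rw [mul_sum]
        _ ≤ d0 * Real.log L := by
            apply mul_le_mul_of_nonneg_left _ (Nat.cast_nonneg _)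
            exact (sum_inv_le z).trans (Real.log_le_log (inv_pos.2 (Vz_pos z)) hV)
    have h6 : 3 * ∑ p ∈ pz z, (rho F 0 p : ℝ) / p - r ≤ -((U + 5 : ℕ) * Real.log L) := by
      rw [hc1] at hr1
      push_cast at hr1 ⊢
      nlinarith
    calc Real.exp (3 * ∑ p ∈ pz z, (rho F 0 p : ℝ) / p - r) ≤ Real.exp (-((U + 5 : ℕ) * Real.log L)) := Real.exp_le_exp.2 h6
      _ = 1 / L ^ (U + 5) := by
          rw [Real.exp_neg, Real.exp_nat_mul, hexpl, one_div]
  have herr : ∑ m ∈ Icc 1 y, L * ∑ S ∈ (pz z).powersetCard r, I S m ≤ L * (y * (1 / L ^ (U + 5)) + Kd * A) := by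
    rw [← mul_sum, sum_comm]
    apply mul_le_mul_of_nonneg_left _ hL0.le
    calc ∑ S ∈ (pz z).powersetCard r, ∑ m ∈ Icc 1 y, I S m ≤
        ∑ S ∈ (pz z).powersetCard r, (y * ∏ p ∈ S, ((rho F 0 p : ℝ) / p) + A) := by
          refine sum_le_sum fun S hS => ?_
          have hS' := mem_powersetCard.1 hS
          have h5 := hsumI S hS'.1 (fun _ => 1)
          simp only [one_mul] at h5
          rw [h5]
          have hd1 : 1 ≤ ∏ p ∈ S, p := Nat.pos_of_ne_zero (hsqf S hS'.1).ne_zero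
          calc ∑ s ∈ ZS F S, cs (fun _ => (1 : ℝ)) y (∏ p ∈ S, p) s ≤ ∑ _s ∈ ZS F S, ((y : ℝ) / ((∏ p ∈ S, p : ℕ) : ℝ) + 1) := by
                refine sum_le_sum fun s _ => ?_
                unfold cs
                rw [sum_const, nsmul_eq_mul, mul_one]
                exact card_mod y _ s hd1
            _ = #(ZS F S) * ((y : ℝ) / ((∏ p ∈ S, p : ℕ) : ℝ)) + #(ZS F S) := by
                rw [sum_const, nsmul_eq_mul]; ring
            _ ≤ y * ∏ p ∈ S, ((rho F 0 p : ℝ) / p) + A := by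
                apply add_le_add _ (hdr' r le_rfl S hS)
                rw [ZS_card F S (fun p hp => hTp p (hS'.1 hp)), prod_div_distrib]
                push_cast
                apply le_of_eq
                ring
      _ = y * es (fun p => (rho F 0 p : ℝ) / p) (pz z) r + #((pz z).powersetCard r) * A := by
          rw [sum_add_distrib, sum_const, nsmul_eq_mul, ← mul_sum]
          rfl
      _ ≤ y * (1 / L ^ (U + 5)) + Kd * A := by
          apply add_le_add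
          · exact mul_le_mul_of_nonneg_left hes (Nat.cast_nonneg _)
          · exact mul_le_mul_of_nonneg_right hcardr (by linarith)
  refine hdec.trans ((add_le_add hmain herr).trans ?_)
  -- numbers
  have n1 : A * y / L ^ (U + a0 + 2) ≤ (1 / 4) * (x / L ^ U) := by
    rw [hA]
    calc L ^ a0 * y / L ^ (U + a0 + 2) ≤ L ^ a0 * x / L ^ (U + a0 + 2) := by gcongr
      _ = (1 / L ^ 2) * (x / L ^ U) := by
          rw [show U + a0 + 2 = a0 + U + 2 by ring, pow_add, pow_add]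
          have := (hLp a0).ne'
          have := (hLp U).ne'
          field_simp
      _ ≤ (1 / 4) * (x / L ^ U) := by
          apply mul_le_mul_of_nonneg_right _ (by positivity)
          apply one_div_le_one_div_of_le (by norm_num)
          nlinarith
  have n2 : (Kd : ℝ) * (A * L) ≤ (1 / 4) * (x / L ^ U) := by
    have h5 : (Kd : ℝ) * (A * L) * (4 * L ^ U) ≤ x := by
      calc (Kd : ℝ) * (A * L) * (4 * L ^ U) ≤ (Kd : ℝ) ^ 2 * (L ^ a0 * L) * (L * L ^ U) := by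
            rw [hA]
            have h6 : (Kd : ℝ) ≤ (Kd : ℝ) ^ 2 := by nlinarith
            gcongr
            linarith
        _ = (Kd : ℝ) ^ 2 * L ^ (a0 + U + 2) := by rw [pow_add, pow_add]; ring
        _ ≤ (Kd : ℝ) ^ 2 * L ^ (U + B + a0 + 6) := mul_le_mul_of_nonneg_left (hLL (by omega)) (by positivity)
        _ ≤ x := hKx
    have h6 : (1 / 4) * (x / L ^ U) = x / (4 * L ^ U) := by field_simp
    rw [h6, le_div_iff₀ (by positivity)]
    exact h5
  have n3 : L * (y * (1 / L ^ (U + 5)) + Kd * A) ≤ (1 / 4) * (x / L ^ U) + (1 / 4) * (x / L ^ U) := by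
    have h5 : L * (y * (1 / L ^ (U + 5))) ≤ (1 / 4) * (x / L ^ U) := by
      calc L * (y * (1 / L ^ (U + 5))) ≤ L * (x * (1 / L ^ (U + 5))) := by gcongr
        _ = (1 / L ^ 4) * (x / L ^ U) := by
            rw [show U + 5 = U + 4 + 1 by ring, pow_succ, pow_add]
            have := (hLp U).ne'
            field_simp
        _ ≤ (1 / 4) * (x / L ^ U) := by
            apply mul_le_mul_of_nonneg_right _ (by positivity)
            apply one_div_le_one_div_of_le (by norm_num)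
            calc (4 : ℝ) ≤ L := by linarith
              _ ≤ L ^ 4 := le_self_pow₀ hL1 (by norm_num)
    have h6 : L * (Kd * A) = Kd * (A * L) := by ring
    rw [mul_add, h6]
    exact add_le_add h5 n2
  have hpos : 0 ≤ (x : ℝ) / L ^ U := by positivity
  linarith

end Pool.Agent.Y868.TC
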