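import Pool.Agent.Y868.TC.P1

/-! Systems of polynomials with prime arguments. -/

set_option autoImplicit false

namespace Pool.Agent.Y868.TC

open Finset Filter
open Polynomial (X C)
open scoped Polynomial
open Pool.Agent.H373R2.T7 (pz Vz lamz mem_pz Vz_inv_small ev_L' Vz_inv_le Vz_pos)
open Pool.Agent.TH204.WR (rho hh vN model rho_le hh_nonneg prod_le_one' prod_nonneg' V_low)
open Pool.Agent.Y868.TA

/-- the system with the argument added -/
noncomputable def fX {k : ℕ} (f : Fin k → ℤ[X]) : Fin (k + 1) → ℤ[X] := Fin.cons X f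

lemma prod_fX {k : ℕ} (f : Fin k → ℤ[X]) : ∏ i, fX f i = X * ∏ i, f i := by
  unfold fX
  rw [Fin.prod_univ_succ]
  simp only [Fin.cons_zero, Fin.cons_succ]

/-- **Systems with prime arguments, with weights.** -/
theorem sysP_theta (k d U K : ℕ) (hk : 1 ≤ k) (hd : 2 ≤ d) : ∃ C0 E1 : ℕ, ∀ E : ℕ, ∃ x0 : ℕ, ∀ x : ℕ, x0 ≤ x → ∀ z : ℕ,
    Real.log x ^ E1 ≤ z → (z : ℝ) ≤ Real.log x ^ E → ∀ D B : ℕ, Real.log x ^ C0 ≤ D → (D : ℝ) ≤ (x : ℝ) ^ K →
    (D : ℝ) * x ≤ B * Real.log x ^ K → (B : ℝ) ≤ D * x * Real.log x ^ K →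
    ∀ P : Fin k → ℤ[X], (∀ i, (P i).natDegree + 1 ≤ d) →
    (∀ i, ∀ m ∈ Icc 1 x, ((|(P i).eval (m : ℤ)| : ℤ) : ℝ) ≤ B * Real.log x ^ K) →
    ∀ c : Fin k → ℤ, (∀ i, c i ≠ 0) → (∀ i, ((|c i| : ℤ) : ℝ) ≤ B * x * Real.log x ^ K) →
    ∃ Bad ⊆ bx D B k, (#Bad : ℝ) ≤ ((D : ℝ) * B) ^ k / Real.log x ^ U ∧
      ∀ e ∈ bx D B k, e ∉ Bad → ∀ u v : ℕ, u ≤ v → v ≤ x → (∀ i, ∀ m ∈ Ioc u v, 0 ≤ (mem1 P c e i).eval (m : ℤ)) →
        |∑ m ∈ Ioc u v, (∏ i, th ((fX (mem1 P c e) i).eval (m : ℤ)).toNat - dsys z (fX (mem1 P c e)))| ≤ x / Real.log x ^ U := by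
  classical
  obtain ⟨C0, E1, hw⟩ := sys_windows k (U + 2) K hk
  obtain ⟨E2, hp⟩ := pa (k * d) (U + k + 1)
  refine ⟨C0, E1 + E2 + 1, fun E => ?_⟩
  obtain ⟨x1, h1⟩ := hw E
  obtain ⟨x2, z0, h2⟩ := model_gen (k * d + 1) (U + k + 1) E (by omega)
  obtain ⟨x3, h3⟩ := Vz_inv_small E
  obtain ⟨x4, h4⟩ := ev_L' (max (8 : ℝ) z0)
  obtain ⟨x5, h5⟩ := hp E
  refine ⟨max (max (max x1 x2) (max x3 x4)) (max x5 1), fun x hx z hz1 hz2 D B hD1 hD2 hDB hBD P hP hPB c hc0 hc => ?_⟩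
  have hx' := le_trans (le_max_left _ _) hx
  have b1 := h1 x (le_trans (le_trans (le_max_left _ _) (le_max_left _ _)) hx')
  have b2 := h2 x (le_trans (le_trans (le_max_right _ _) (le_max_left _ _)) hx')
  have b3 := h3 x (le_trans (le_trans (le_max_left _ _) (le_max_right _ _)) hx')
  have b4 := h4 x (le_trans (le_trans (le_max_right _ _) (le_max_right _ _)) hx')
  have b5 := h5 x (le_trans (le_trans (le_max_left _ _) (le_max_right _ _)) hx)
  have hx1 : 1 ≤ x := le_trans (le_trans (le_max_right _ _) (le_max_right _ _)) hx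
  set L := Real.log x with hL
  have hL4 : 8 ≤ L := (le_max_left _ _).trans b4
  have hLz : (z0 : ℝ) ≤ L := (le_max_right _ _).trans b4
  have hL1 : 1 ≤ L := by linarith
  have hL0 : 0 < L := by linarith
  have hLp : ∀ n : ℕ, 0 < L ^ n := fun n => by positivity
  have hLE : L ≤ L ^ (E1 + E2 + 1) := le_self_pow₀ hL1 (by omega)
  have hzz : z0 ≤ z := by
    have : (z0 : ℝ) ≤ z := hLz.trans (hLE.trans hz1)
    exact_mod_cast this
  have hz2' : 2 ≤ z := by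
    have : (2 : ℝ) ≤ z := by linarith
    exact_mod_cast this
  have hV := b3 z (by omega) hz2
  have hV0 : 0 < (Vz z)⁻¹ := inv_pos.2 (Vz_pos z)
  obtain ⟨w, hwdef⟩ : ∃ w : ℕ → ℝ, w = fun m => if m ≤ x then th m / L else 0 := ⟨_, rfl⟩
  have hw1 : ∀ m, |w m| ≤ 1 := by
    intro m
    rw [hwdef]
    simp only
    split_ifs with h
    · rw [abs_div, abs_of_pos hL0, div_le_one hL0, abs_of_nonneg (th_nonneg m)]
      exact th_le m x hx1 h
    · rw [abs_zero]; norm_num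
  obtain ⟨Bad, hB1, hB2, hB3⟩ := b1 z ((pow_le_pow_right₀ hL1 (by omega)).trans hz1) hz2 D B hD1 hD2 hDB hBD
    (fun i m => (P i).eval (m : ℤ)) hPB c hc0 hc w hw1
  have hUU : ∀ y : ℝ, 0 ≤ y → y / L ^ (U + 1) ≤ (1 / 8) * (y / L ^ U) := by
    intro y hy
    have h3 : y / L ^ (U + 1) = (1 / L) * (y / L ^ U) := by rw [pow_succ]; field_simp
    rw [h3]
    apply mul_le_mul_of_nonneg_right _ (by positivity)
    exact one_div_le_one_div_of_le (by norm_num) hL4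
  refine ⟨Bad, hB1, ?_, fun e he hbad u v huv hvx hpos => ?_⟩
  · have g1 : ((D : ℝ) * B) ^ k / L ^ (U + 2) ≤ ((D : ℝ) * B) ^ k / L ^ U :=
      div_le_div_of_nonneg_left (by positivity) (hLp _) (pow_le_pow_right₀ hL1 (by omega))
    exact hB2.trans g1
  · have g1 := hB3 e he hbad u v huv hvx
    have hdeg : (∏ i, mem1 P c e i).natDegree ≤ k * d := by
      refine (Polynomial.natDegree_prod_le _ _).trans ?_
      calc ∑ i, (mem1 P c e i).natDegree ≤ ∑ _i : Fin k, d := sum_le_sum fun i _ => mem1_deg hd P hP c e i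
        _ = k * d := by rw [sum_const, card_univ, Fintype.card_fin, smul_eq_mul]
    have hdeg' : (∏ i, fX (mem1 P c e) i).natDegree ≤ k * d + 1 := by
      rw [prod_fX]
      refine Polynomial.natDegree_mul_le.trans ?_
      rw [Polynomial.natDegree_X]
      omega
    have g2 := b2 z hzz hz2' hz2 (∏ i, fX (mem1 P c e) i) 0 hdeg' u v huv hvx
    have g3 := b5 z ((pow_le_pow_right₀ hL1 (by omega)).trans hz1) hz2 (∏ i, mem1 P c e i) hdeg
    have g3u := g3 u (huv.trans hvx)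
    have g3v := g3 v hvx
    have hfv : ∀ i m, fv (fun i m => (P i).eval (m : ℤ)) c e i m = ((mem1 P c e i).eval (m : ℤ)).toNat := by
      intro i m
      rw [mem1_eval]
      rfl
    simp only [hfv] at g1
    have hnat : ∀ m ∈ Ioc u v, ∏ i, ((mem1 P c e i).eval (m : ℤ)).toNat = (∏ i, (mem1 P c e i).eval (m : ℤ)).natAbs := by
      intro m hm
      rw [← Int.natAbsHom_apply, map_prod]
      refine prod_congr rfl fun i _ => ?_
      rw [Int.natAbsHom_apply]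
      have := hpos i m hm
      omega
    -- the two evaluations of the models
    have hm1 : ∀ m ∈ Ioc u v, FF z m * ∏ i, lamz z ((mem1 P c e i).eval (m : ℤ)).toNat =
        (Vz z)⁻¹ ^ k * (FF z m * (if ∀ p ∈ pz z, ¬ (p : ℤ) ∣ (∏ i, mem1 P c e i).eval (m : ℤ) then (1 : ℝ) else 0)) := by
      intro m hm
      rw [lamz_prod z hk, hnat m hm]
      have e1 : lamz z (∏ i, (mem1 P c e i).eval (m : ℤ)).natAbs = (Vz z)⁻¹ *
          (if ∀ p ∈ pz z, ¬ (p : ℤ) ∣ (∏ i, mem1 P c e i).eval (m : ℤ) then (1 : ℝ) else 0) := by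
        unfold lamz
        rw [Polynomial.eval_prod]
        simp only [Int.natCast_dvd]
        split_ifs
        · rw [mul_one]
        · rw [mul_zero]
      rw [e1]
      obtain ⟨k', rfl⟩ : ∃ k', k = k' + 1 := ⟨k - 1, by omega⟩
      rw [Nat.add_sub_cancel, pow_succ]
      ring
    have hm2 : ∀ m ∈ Ioc u v, lamz z m * ∏ i, lamz z ((mem1 P c e i).eval (m : ℤ)).toNat =
        (Vz z)⁻¹ ^ k * lamz z (vN (∏ i, fX (mem1 P c e) i) 0 m) := by
      intro m hm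
      have e1 := lamz_prod z (show 1 ≤ k + 1 by omega) (Fin.cons m (fun i => ((mem1 P c e i).eval (m : ℤ)).toNat) : Fin (k + 1) → ℕ)
      rw [Fin.prod_univ_succ, Fin.prod_univ_succ] at e1
      simp only [Fin.cons_zero, Fin.cons_succ, Nat.add_sub_cancel] at e1
      rw [e1, hnat m hm]
      congr 2
      unfold vN
      rw [prod_fX, add_zero, Polynomial.eval_mul, Polynomial.eval_X, Polynomial.eval_prod, Int.natAbs_mul, Int.natAbs_natCast]
    have hthX : ∀ m : ℕ, ∏ i, th ((fX (mem1 P c e) i).eval (m : ℤ)).toNat = th m * ∏ i, th ((mem1 P c e i).eval (m : ℤ)).toNat := by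
      intro m
      unfold fX
      rw [Fin.prod_univ_succ]
      simp only [Fin.cons_zero, Fin.cons_succ, Polynomial.eval_X, Int.toNat_natCast]
    have e0 : ∑ m ∈ Ioc u v, (∏ i, th ((fX (mem1 P c e) i).eval (m : ℤ)).toNat - dsys z (fX (mem1 P c e))) =
        L * ∑ m ∈ Ioc u v, w m * (∏ i, th ((mem1 P c e i).eval (m : ℤ)).toNat - ∏ i, lamz z ((mem1 P c e i).eval (m : ℤ)).toNat) +
        (Vz z)⁻¹ ^ k * ∑ m ∈ Ioc u v, (FF z m * (if ∀ p ∈ pz z, ¬ (p : ℤ) ∣ (∏ i, mem1 P c e i).eval (m : ℤ) then (1 : ℝ) else 0)) +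
        (Vz z)⁻¹ ^ k * (∑ m ∈ Ioc u v, lamz z (vN (∏ i, fX (mem1 P c e) i) 0 m) - ((v : ℝ) - u) * hh (∏ i, fX (mem1 P c e) i) 0 z) := by
      rw [mul_sub ((Vz z)⁻¹ ^ k), mul_sum, mul_sum, mul_sum, ← add_sub_assoc, ← sum_add_distrib, ← sum_add_distrib, sum_sub_distrib]
      congr 1
      · refine sum_congr rfl fun m hm => ?_
        rw [← hm1 m hm, ← hm2 m hm, hthX]
        have hmx : m ≤ x := (mem_Ioc.1 hm).2.trans hvx
        rw [hwdef]
        simp only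
        rw [if_pos hmx]
        unfold FF
        field_simp
        ring
      · rw [sum_const, Nat.card_Ioc, nsmul_eq_mul, Nat.cast_sub huv]
        unfold dsys
        rw [Nat.add_sub_cancel]
        ring
    rw [e0]
    have hVk : (Vz z)⁻¹ ^ k ≤ L ^ k := pow_le_pow_left₀ hV0.le hV _
    have t1 : |L * ∑ m ∈ Ioc u v, w m * (∏ i, th ((mem1 P c e i).eval (m : ℤ)).toNat - ∏ i, lamz z ((mem1 P c e i).eval (m : ℤ)).toNat)| ≤
        (1 / 8) * (x / L ^ U) := by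
      rw [abs_mul, abs_of_pos hL0]
      calc _ ≤ L * (x / L ^ (U + 2)) := mul_le_mul_of_nonneg_left g1 hL0.le
        _ = x / L ^ (U + 1) := by rw [show U + 2 = U + 1 + 1 by ring, pow_succ L (U + 1)]; field_simp
        _ ≤ _ := hUU x (Nat.cast_nonneg _)
    have hsub : ∀ h : ℕ → ℝ, ∑ m ∈ Ioc u v, h m = ∑ m ∈ Icc 1 v, h m - ∑ m ∈ Icc 1 u, h m := by
      intro h
      have e1 : ∀ n : ℕ, Icc 1 n = Ioc 0 n := fun n => by ext a; rw [mem_Icc, mem_Ioc]; omega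
      rw [e1, e1, ← sum_Ioc_consecutive h (Nat.zero_le u) huv]
      ring
    have hLk1 : L ^ k * (x / L ^ (U + k + 1)) = x / L ^ (U + 1) := by
      rw [show U + k + 1 = k + (U + 1) by ring, pow_add L k (U + 1)]
      have := (hLp k).ne'
      field_simp
    have t2 : |(Vz z)⁻¹ ^ k * ∑ m ∈ Ioc u v, (FF z m * (if ∀ p ∈ pz z, ¬ (p : ℤ) ∣ (∏ i, mem1 P c e i).eval (m : ℤ) then (1 : ℝ) else 0))| ≤
        2 * ((1 / 8) * (x / L ^ U)) := by
      rw [abs_mul, abs_of_pos (by positivity : 0 < (Vz z)⁻¹ ^ k), hsub]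
      calc _ ≤ L ^ k * (x / L ^ (U + k + 1) + x / L ^ (U + k + 1)) := by
            apply mul_le_mul hVk _ (abs_nonneg _) (hLp _).le
            exact (abs_sub _ _).trans (add_le_add g3v g3u)
        _ = 2 * (x / L ^ (U + 1)) := by rw [mul_add, hLk1]; ring
        _ ≤ _ := by
          have := hUU x (Nat.cast_nonneg _)
          linarith
    have t3 : |(Vz z)⁻¹ ^ k * (∑ m ∈ Ioc u v, lamz z (vN (∏ i, fX (mem1 P c e) i) 0 m) - ((v : ℝ) - u) * hh (∏ i, fX (mem1 P c e) i) 0 z)| ≤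
        (1 / 8) * (x / L ^ U) := by
      rw [abs_mul, abs_of_pos (by positivity : 0 < (Vz z)⁻¹ ^ k)]
      calc _ ≤ L ^ k * (x / L ^ (U + k + 1)) := mul_le_mul hVk g2 (abs_nonneg _) (hLp _).le
        _ = x / L ^ (U + 1) := hLk1
        _ ≤ _ := hUU x (Nat.cast_nonneg _)
    refine (abs_add_three _ _ _).trans ?_
    have h7 : 0 ≤ (x : ℝ) / L ^ U := by positivity
    linarith

/-- **Systems with prime arguments: the asymptotic formula.** -/
theorem sysP_final (k d U K : ℕ) (hk : 1 ≤ k) (hd : 2 ≤ d) : ∃ C0 E1 : ℕ, ∀ E : ℕ, ∃ x0 : ℕ, ∀ x : ℕ, x0 ≤ x → ∀ z : ℕ,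
    Real.log x ^ E1 ≤ z → (z : ℝ) ≤ Real.log x ^ E → ∀ D B : ℕ, Real.log x ^ C0 ≤ D → (D : ℝ) ≤ (x : ℝ) ^ K →
    (D : ℝ) * x ≤ B * Real.log x ^ K → (B : ℝ) ≤ D * x * Real.log x ^ K →
    ∀ P : Fin k → ℤ[X], (∀ i, (P i).natDegree + 1 ≤ d) →
    (∀ i, ∀ m ∈ Icc 1 x, ((|(P i).eval (m : ℤ)| : ℤ) : ℝ) ≤ B * Real.log x ^ K) →
    ∀ c : Fin k → ℤ, (∀ i, c i ≠ 0) → (∀ i, ((|c i| : ℤ) : ℝ) ≤ B * x * Real.log x ^ K) →
    ∃ Bad ⊆ bx D B k, (#Bad : ℝ) ≤ ((D : ℝ) * B) ^ k / Real.log x ^ U ∧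
      ∀ e ∈ bx D B k, e ∉ Bad → ∀ u v : ℕ, u < v → v ≤ x → 2 ≤ u → (∀ i, ∀ m ∈ Ioc u v, 3 ≤ (mem1 P c e i).eval (m : ℤ)) →
        (∀ p ∈ pz z, rho (∏ i, fX (mem1 P c e) i) 0 p < p) →
          |(cnt (fX (mem1 P c e)) (Ioc u v) : ℝ) - dsys z (fX (mem1 P c e)) * ∑ m ∈ Ioc u v, lw (fX (mem1 P c e)) m| ≤
          dsys z (fX (mem1 P c e)) * x / Real.log x ^ U := by
  classical
  obtain ⟨Q, hQ⟩ : ∃ Q, Q = (k + 1) * d := ⟨_, rfl⟩
  obtain ⟨U1, hU1⟩ : ∃ U1, U1 = U + 2 * Q + 2 := ⟨_, rfl⟩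
  obtain ⟨C2, E2, ht⟩ := sysP_theta k d U1 K hk hd
  refine ⟨C2, E2, fun E => ?_⟩
  obtain ⟨x2, h2⟩ := ht E
  obtain ⟨x3, h3⟩ := Vz_inv_small E
  obtain ⟨x4, h4⟩ := ev_L' ((2 * ((Q : ℕ) : ℝ)) ^ (2 * Q) * (1 + Q) + 2)
  refine ⟨max x2 (max (max x3 x4) 1), fun x hx z hz1 hz2 D B hD1 hD2 hDB hBD P hP hPB c hc0 hc => ?_⟩
  have b2 := h2 x (le_trans (le_max_left _ _) hx)
  have b3 := h3 x (le_trans (le_trans (le_trans (le_max_left _ _) (le_max_left _ _)) (le_max_right _ _)) hx)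
  have b4 := h4 x (le_trans (le_trans (le_trans (le_max_right _ _) (le_max_left _ _)) (le_max_right _ _)) hx)
  have hx1 : 1 ≤ x := le_trans (le_trans (le_max_right _ _) (le_max_right _ _)) hx
  set L := Real.log x with hL
  have hG0 : (0 : ℝ) ≤ (2 * ((Q : ℕ) : ℝ)) ^ (2 * Q) * (1 + Q) := by positivity
  have hL2 : 2 ≤ L := by linarith
  have hLG : (2 * ((Q : ℕ) : ℝ)) ^ (2 * Q) * (1 + Q) ≤ L := by linarith
  have hL1 : 1 ≤ L := by linarith
  have hL0 : 0 < L := by linarith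
  have hLp : ∀ n : ℕ, 0 < L ^ n := fun n => by positivity
  have hx0 : (0 : ℝ) < x := by exact_mod_cast hx1
  have hLL : ∀ {i j : ℕ}, i ≤ j → L ^ i ≤ L ^ j := fun h => pow_le_pow_right₀ hL1 h
  have hz1' : 1 ≤ z := by
    have : (1 : ℝ) ≤ z := (one_le_pow₀ hL1).trans hz1
    exact_mod_cast this
  have hV := b3 z hz1' hz2
  obtain ⟨Bad2, hB2s, hB2c, hB2⟩ := b2 z hz1 hz2 D B hD1 hD2 hDB hBD P hP hPB c hc0 hc
  refine ⟨Bad2, hB2s, ?_, fun e he hbad u v huv hvx hu2 h3v hrho => ?_⟩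
  · exact hB2c.trans (div_le_div_of_nonneg_left (by positivity) (hLp _) (hLL (by omega)))
  · have hdegX : ∀ i, (fX (mem1 P c e) i).natDegree ≤ d := by
      intro i
      refine Fin.cases ?_ (fun j => ?_) i
      · unfold fX
        simp only [Fin.cons_zero, Polynomial.natDegree_X]
        omega
      · unfold fX
        simp only [Fin.cons_succ]
        exact mem1_deg hd P hP c e j
    have h3X : ∀ i, ∀ m ∈ Ioc u v, 3 ≤ (fX (mem1 P c e) i).eval (m : ℤ) := by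
      intro i m hm
      refine Fin.cases ?_ (fun j => ?_) i
      · unfold fX
        simp only [Fin.cons_zero, Polynomial.eval_X]
        rw [mem_Ioc] at hm
        exact_mod_cast (by omega : 3 ≤ m)
      · unfold fX
        simp only [Fin.cons_succ]
        exact h3v j m hm
    have g1 := abel_tv (lw (fX (mem1 P c e))) (fun m => ∏ i, th ((fX (mem1 P c e) i).eval (m : ℤ)).toNat - dsys z (fX (mem1 P c e))) u v huv
      (x / L ^ U1) (((k + 1 : ℕ) : ℝ) * d) (lw_abs _ v (fun i => h3X i v (mem_Ioc.2 ⟨huv, le_rfl⟩))).1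
      (fun n hn1 hn2 => hB2 e he hbad u n hn1 (hn2.trans hvx) (fun i m hm => by
        have := h3v i m (by rw [mem_Ioc] at hm ⊢; omega)
        omega))
      (lw_tv _ hdegX u v h3X)
    have g2 : ∑ m ∈ Ioc u v, lw (fX (mem1 P c e)) m * (∏ i, th ((fX (mem1 P c e) i).eval (m : ℤ)).toNat - dsys z (fX (mem1 P c e))) =
        (cnt (fX (mem1 P c e)) (Ioc u v) : ℝ) - dsys z (fX (mem1 P c e)) * ∑ m ∈ Ioc u v, lw (fX (mem1 P c e)) m := by
      unfold cnt
      rw [card_filter]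
      push_cast
      rw [mul_sum, ← sum_sub_distrib]
      refine sum_congr rfl fun m hm => ?_
      rw [mul_sub, th_lw _ m (fun i => h3X i m hm)]
      ring
    rw [← g2]
    refine g1.trans ?_
    have hkQ : (((k + 1 : ℕ) : ℝ)) * d = Q := by rw [hQ]; push_cast; ring
    rw [hkQ]
    have hlow := dsys_low z (k + 1) d (by omega) (by omega) (fX (mem1 P c e)) hdegX hrho L hV hL1
    rw [← hQ] at hlow
    set G : ℝ := (2 * ((Q : ℕ) : ℝ)) ^ (2 * Q) with hG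
    have hkd1 : 1 ≤ Q := by rw [hQ]; nlinarith
    have hGpos : 0 < G := by
      have : (1 : ℝ) ≤ ((Q : ℕ) : ℝ) := by exact_mod_cast hkd1
      positivity
    have h5 : 1 ≤ (G * L ^ (2 * Q)) * dsys z (fX (mem1 P c e)) := by
      rw [div_le_iff₀ (by positivity)] at hlow
      linarith
    calc (x : ℝ) / L ^ U1 * (1 + Q) = 1 * (x / L ^ U1 * (1 + Q)) := (one_mul _).symm
      _ ≤ ((G * L ^ (2 * Q)) * dsys z (fX (mem1 P c e))) * (x / L ^ U1 * (1 + Q)) :=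
          mul_le_mul_of_nonneg_right h5 (by positivity)
      _ = (G * (1 + Q) / L ^ 2) * (dsys z (fX (mem1 P c e)) * x / L ^ U) := by
          rw [hU1, pow_add, pow_add]
          have := (hLp (2 * Q)).ne'
          have := (hLp U).ne'
          field_simp
      _ ≤ 1 * (dsys z (fX (mem1 P c e)) * x / L ^ U) := by
          have h6 : 0 ≤ dsys z (fX (mem1 P c e)) := by
            unfold dsys
            have := hh_nonneg (∏ i, fX (mem1 P c e) i) 0 z hz1'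
            have h7 : 0 < (Vz z)⁻¹ := inv_pos.2 (Vz_pos z)
            positivity
          apply mul_le_mul_of_nonneg_right _ (by positivity)
          rw [div_le_one (hLp 2)]
          have : L ≤ L ^ 2 := le_self_pow₀ hL1 (by norm_num)
          linarith
      _ = _ := one_mul _

end Pool.Agent.Y868.TC
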