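import Pool.Agent.Y868.TC.P2

/-! Systems of polynomials with prime arguments: absolute values of the members, all windows. -/

set_option autoImplicit false

namespace Pool.Agent.Y868.TC

open Finset Filter
open Polynomial (X C)
open scoped Polynomial
open Pool.Agent.H373R2.T7 (pz Vz lamz mem_pz Vz_inv_small ev_L' Vz_inv_le Vz_pos)
open Pool.Agent.TH204.WR (rho hh vN model rho_le hh_nonneg prod_le_one' prod_nonneg' V_low)
open Pool.Agent.Y868.TA

/-- **All windows from the windows with a given sign pattern.** -/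
theorem abs_of_sign (k d U E : ℕ) (hk : 1 ≤ k) (hd : 1 ≤ d) : ∃ x0 : ℕ, ∀ x : ℕ, x0 ≤ x → ∀ z : ℕ, 1 ≤ z →
    (z : ℝ) ≤ Real.log x ^ E → ∀ f : Fin k → ℤ[X], (∀ i, (f i).natDegree ≤ d) → (∀ i, 1 ≤ (f i).natDegree) →
    (∀ p ∈ pz z, rho (∏ i, f i) 0 p < p) →
    (∀ (σ : Fin k → Bool) (u v : ℕ), u < v → v ≤ x → (∀ i, ∀ m ∈ Ioc u v, 3 ≤ sg (σ i) * (f i).eval (m : ℤ)) →
      |(cntA f (Ioc u v) : ℝ) - dsys z f * ∑ m ∈ Ioc u v, lw f m| ≤ dsys z f * x / Real.log x ^ (U + 1)) →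
    ∀ (u v : ℕ), u ≤ v → v ≤ x →
      |(cntA f (Ioc u v) : ℝ) - dsys z f * lsum f u v| ≤ dsys z f * x / Real.log x ^ U := by
  classical
  obtain ⟨Q, hQ⟩ : ∃ Q, Q = 2 * (k * d) := ⟨_, rfl⟩
  obtain ⟨x2, h2⟩ := Vz_inv_small E
  obtain ⟨x3, h3⟩ := ev_L' ((2 * ((k * d : ℕ) : ℝ)) ^ Q + 2 * (6 * (k * d) + 1) + 24 * (k * d) * 2 ^ k)
  obtain ⟨x4, h4⟩ := evt_polylog (U + Q + 4)
  refine ⟨max x2 (max (max x3 x4) 3), fun x hx z hz1' hz2 f hdeg hdeg1 hrho key u v huv hvx => ?_⟩
  have b2 := h2 x (le_trans (le_max_left _ _) hx)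
  have b3 := h3 x (le_trans (le_trans (le_trans (le_max_left _ _) (le_max_left _ _)) (le_max_right _ _)) hx)
  have b4 := h4 x (le_trans (le_trans (le_trans (le_max_right _ _) (le_max_left _ _)) (le_max_right _ _)) hx)
  have hx3 : 3 ≤ x := le_trans (le_trans (le_max_right _ _) (le_max_right _ _)) hx
  set L := Real.log x with hL
  have hkd1 : 1 ≤ k * d := by nlinarith
  have hkdr : (1 : ℝ) ≤ (k : ℝ) * d := by exact_mod_cast hkd1
  have h2k : (1 : ℝ) ≤ 2 ^ k := one_le_pow₀ (by norm_num)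
  have q1 : (0 : ℝ) ≤ (2 * ((k * d : ℕ) : ℝ)) ^ Q := by positivity
  have q2 : (24 : ℝ) ≤ 24 * (k * d) * 2 ^ k := by nlinarith
  have hLQ : (2 * ((k * d : ℕ) : ℝ)) ^ Q ≤ L := by nlinarith
  have hLS : 2 * (6 * ((k : ℝ) * d) + 1) ≤ L := by linarith
  have hLT : 24 * ((k : ℝ) * d) * 2 ^ k ≤ L := by nlinarith
  have hL1 : 1 ≤ L := by linarith
  have hL0 : 0 < L := by linarith
  have hLp : ∀ n : ℕ, 0 < L ^ n := fun n => by positivity
  have hLp1 : ∀ n : ℕ, 1 ≤ L ^ n := fun n => one_le_pow₀ hL1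
  have hLL : ∀ {i j : ℕ}, i ≤ j → L ^ i ≤ L ^ j := fun h => pow_le_pow_right₀ hL1 h
  have hx0 : (0 : ℝ) < x := by exact_mod_cast (by omega : 0 < x)
  have hV := b2 z hz1' hz2
  have hSlow := dsys_low z k d hk hd f hdeg hrho L hV hL1
  rw [← hQ] at hSlow
  set S := dsys z f with hS
  have hSl : 1 / L ^ (Q + 1) ≤ S := by
    refine le_trans ?_ hSlow
    have hGd : (0 : ℝ) < (2 * ((k * d : ℕ) : ℝ)) ^ Q := by
      have : (1 : ℝ) ≤ ((k * d : ℕ) : ℝ) := by exact_mod_cast hkd1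
      positivity
    apply one_div_le_one_div_of_le (by positivity)
    rw [pow_succ, mul_comm (L ^ Q)]
    exact mul_le_mul_of_nonneg_right hLQ (hLp _).le
  have hS0 : 0 < S := lt_of_lt_of_le (by positivity) hSl
  -- the summand
  set h : ℕ → ℝ := fun m => (if (∀ i, ((f i).eval (m : ℤ)).natAbs.Prime) then (1 : ℝ) else 0) -
    S * (if (∀ i, 2 ≤ |(f i).eval (m : ℤ)|) then ∏ i, 1 / Real.log (((|(f i).eval (m : ℤ)| : ℤ)) : ℝ) else 0) with hh'
  have hsum : ∀ u v : ℕ, ∑ m ∈ Ioc u v, h m = (cntA f (Ioc u v) : ℝ) - S * lsum f u v := by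
    intro u v
    rw [hh']
    simp only
    rw [sum_sub_distrib, ← mul_sum, ← sum_filter]
    unfold cntA lsum
    rw [← sum_filter, card_eq_sum_ones]
    push_cast
    rfl
  have hlwabs : ∀ m : ℕ, ∏ i, 1 / Real.log (((|(f i).eval (m : ℤ)| : ℤ)) : ℝ) = lw f m := by
    intro m
    unfold lw
    refine prod_congr rfl fun i _ => ?_
    push_cast
    rw [Real.log_abs]
  have hwin : ∀ u v, u < v → v ≤ x → (∀ m ∈ Ioc u v, m ∉ BP f 0 x) → |∑ m ∈ Ioc u v, h m| ≤ S * x / L ^ (U + 1) := by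
    intro u v huv hvx hno
    have hno' : ∀ m ∈ Ioc u v, ∀ i, 3 ≤ |(f i).eval (m : ℤ)| ∧ 0 ≤ (f i).eval ((m : ℤ) - 1) * (f i).eval (m : ℤ) := by
      intro m hm i
      have h1 := hno m hm
      unfold BP at h1
      rw [mem_filter, mem_Ioc] at h1
      rw [mem_Ioc] at hm
      push Not at h1
      have h2 := h1 ⟨by omega, by omega⟩ i
      exact ⟨by omega, h2.2⟩
    obtain ⟨σ, hσ⟩ : ∃ σ : Fin k → Bool, σ = fun i => decide (0 < (f i).eval ((u + 1 : ℕ) : ℤ)) := ⟨_, rfl⟩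
    have hpos : ∀ i, ∀ m ∈ Ioc u v, 3 ≤ sg (σ i) * (f i).eval (m : ℤ) := by
      intro i m hm
      rw [mem_Ioc] at hm
      obtain ⟨hm1, hm2⟩ := hm
      induction m, (show u + 1 ≤ m by omega) using Nat.le_induction with
      | base =>
        have h1 := (hno' (u + 1) (mem_Ioc.2 ⟨by omega, by omega⟩) i).1
        rw [hσ]
        unfold sg
        by_cases h2 : 0 < (f i).eval ((u + 1 : ℕ) : ℤ)
        · simp only [h2, decide_true, if_true, one_mul]
          rw [abs_of_pos h2] at h1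
          exact h1
        · simp only [h2, decide_false, Bool.false_eq_true, if_false]
          rw [abs_of_nonpos (not_lt.1 h2)] at h1
          linarith
      | succ m hm3 ih =>
        have h1 := ih (by omega) (by omega)
        have h2 := hno' (m + 1) (mem_Ioc.2 ⟨by omega, by omega⟩) i
        have h3 : (((m + 1 : ℕ) : ℤ) - 1) = (m : ℤ) := by push_cast; ring
        rw [h3] at h2
        obtain ⟨h4, h5⟩ := h2
        rcases sg_sq (σ i) with h6 | h6
        · rw [h6] at h1 ⊢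
          rcases abs_cases ((f i).eval ((m + 1 : ℕ) : ℤ)) with ⟨h7, h8⟩ | ⟨h7, h8⟩
          · rw [h7] at h4; linarith
          · exfalso
            have : (f i).eval (m : ℤ) * (f i).eval ((m + 1 : ℕ) : ℤ) < 0 := mul_neg_of_pos_of_neg (by linarith) h8
            linarith
        · rw [h6] at h1 ⊢
          rcases abs_cases ((f i).eval ((m + 1 : ℕ) : ℤ)) with ⟨h7, h8⟩ | ⟨h7, h8⟩
          · exfalso
            rw [h7] at h4
            have : (f i).eval (m : ℤ) * (f i).eval ((m + 1 : ℕ) : ℤ) < 0 := mul_neg_of_neg_of_pos (by linarith) (by linarith)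
            linarith
          · rw [h7] at h4; linarith
    have h1 := key σ u v huv hvx hpos
    rw [hsum]
    have h2 : lsum f u v = ∑ m ∈ Ioc u v, lw f m := by
      unfold lsum
      rw [filter_true_of_mem]
      · exact sum_congr rfl fun m _ => hlwabs m
      · intro m hm i
        have := (hno' m hm i).1
        omega
    rw [h2]
    exact h1
  have hpt : ∀ m, 1 ≤ m → m ≤ x → |h m| ≤ 1 + S * 2 ^ k := by
    intro m _ _
    rw [hh']
    simp only
    have g1 : |(if (∀ i, ((f i).eval (m : ℤ)).natAbs.Prime) then (1 : ℝ) else 0)| ≤ 1 := by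
      split_ifs <;> norm_num
    have g2 : |S * (if (∀ i, 2 ≤ |(f i).eval (m : ℤ)|) then ∏ i, 1 / Real.log (((|(f i).eval (m : ℤ)| : ℤ)) : ℝ) else 0)| ≤ S * 2 ^ k := by
      rw [abs_mul, abs_of_pos hS0]
      apply mul_le_mul_of_nonneg_left _ hS0.le
      split_ifs with h5
      · rw [abs_prod]
        calc ∏ i, |1 / Real.log (((|(f i).eval (m : ℤ)| : ℤ)) : ℝ)| ≤ ∏ _i : Fin k, (2 : ℝ) := by
              apply Finset.prod_le_prod
              · intro i _; exact abs_nonneg _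
              · intro i _
                have h6 : (2 : ℝ) ≤ ((|(f i).eval (m : ℤ)| : ℤ) : ℝ) := by exact_mod_cast h5 i
                have h7 : Real.log 2 ≤ Real.log ((|(f i).eval (m : ℤ)| : ℤ) : ℝ) := Real.log_le_log (by norm_num) h6
                have h8 := Real.log_two_gt_d9
                rw [abs_of_nonneg (by positivity), div_le_iff₀ (by linarith)]
                linarith
          _ = 2 ^ k := by rw [prod_const, card_univ, Fintype.card_fin]
      · rw [abs_zero]; positivity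
    calc _ ≤ |(if (∀ i, ((f i).eval (m : ℤ)).natAbs.Prime) then (1 : ℝ) else 0)| +
        |S * (if (∀ i, 2 ≤ |(f i).eval (m : ℤ)|) then ∏ i, 1 / Real.log (((|(f i).eval (m : ℤ)| : ℤ)) : ℝ) else 0)| := abs_sub _ _
      _ ≤ _ := add_le_add g1 g2
  have hBP := BP_card f hdeg1 hdeg 0 x
  have key2 := windows_union h (BP f 0 x) (S * x / L ^ (U + 1)) (1 + S * 2 ^ k) (by positivity) (by positivity) x hwin hpt
    (6 * (k * d)) u v huv hvx ((card_le_card inter_subset_left).trans hBP)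
  rw [hsum] at key2
  refine key2.trans ?_
  push_cast
  have g1 : (6 * ((k : ℝ) * d) + 1) * (S * x / L ^ (U + 1)) ≤ (1 / 2) * (S * x / L ^ U) := by
    have e1 : (6 * ((k : ℝ) * d) + 1) * (S * x / L ^ (U + 1)) = ((6 * ((k : ℝ) * d) + 1) / L) * (S * x / L ^ U) := by
      rw [pow_succ]; field_simp
    rw [e1]
    apply mul_le_mul_of_nonneg_right _ (by positivity)
    rw [div_le_iff₀ hL0]
    linarith
  have g2 : 6 * ((k : ℝ) * d) * (1 + S * 2 ^ k) ≤ (1 / 2) * (S * x / L ^ U) := by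
    have h5 : 1 ≤ S * L ^ (Q + 1) := by
      rw [div_le_iff₀ (hLp _)] at hSl
      exact hSl
    have h6 : L ^ (Q + 3) ≤ x / L ^ U := by
      rw [le_div_iff₀ (hLp _), ← pow_add]
      exact (hLL (by omega)).trans b4
    have h7 : S * L ^ (Q + 3) ≤ S * x / L ^ U := by
      rw [mul_div_assoc]
      exact mul_le_mul_of_nonneg_left h6 hS0.le
    refine le_trans ?_ (mul_le_mul_of_nonneg_left h7 (by norm_num))
    have h8 : (12 * ((k : ℝ) * d)) ≤ L := by
      have : 12 * ((k : ℝ) * d) * 1 ≤ 24 * ((k : ℝ) * d) * 2 ^ k := by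
        apply mul_le_mul (by linarith) h2k (by norm_num) (by positivity)
      linarith
    have h9 : 12 * ((k : ℝ) * d) * 1 ≤ L * (S * L ^ (Q + 1)) := mul_le_mul h8 h5 (by norm_num) hL0.le
    have h10 : 24 * ((k : ℝ) * d) * 2 ^ k * S ≤ L * S := mul_le_mul_of_nonneg_right hLT hS0.le
    have h11 : L * S ≤ S * L ^ (Q + 2) := by
      rw [mul_comm]
      apply mul_le_mul_of_nonneg_left _ hS0.le
      exact le_self_pow₀ hL1 (by omega)
    have h12 : L * (S * L ^ (Q + 1)) = S * L ^ (Q + 2) := by ring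
    have h13 : 4 * (S * L ^ (Q + 2)) ≤ S * L ^ (Q + 3) := by
      have : S * L ^ (Q + 3) = L * (S * L ^ (Q + 2)) := by ring
      rw [this]
      apply mul_le_mul_of_nonneg_right _ (by positivity)
      linarith
    have e1 : 6 * ((k : ℝ) * d) * (1 + S * 2 ^ k) = (1 / 2) * (12 * ((k : ℝ) * d) * 1) + (1 / 4) * (24 * ((k : ℝ) * d) * 2 ^ k * S) := by ring
    rw [e1]
    have h14 : 0 < S * L ^ (Q + 2) := by positivity
    linarith
  linarith


lemma fX_sg {k : ℕ} (σ : Fin k → Bool) (f : Fin k → ℤ[X]) :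
    fX (fun i => C (sg (σ i)) * f i) = fun i => C (sg ((Fin.cons true σ : Fin (k + 1) → Bool) i)) * fX f i := by
  funext i
  refine Fin.cases ?_ (fun j => ?_) i
  · unfold fX sg
    simp only [Fin.cons_zero, if_true, Polynomial.C_1, one_mul]
  · unfold fX
    simp only [Fin.cons_succ]

/-- **Systems with prime arguments, windows with a given sign pattern.** -/
theorem sysP_sign (k d U K : ℕ) (hk : 1 ≤ k) (hd : 2 ≤ d) : ∃ C0 E1 : ℕ, ∀ E : ℕ, ∃ x0 : ℕ, ∀ x : ℕ, x0 ≤ x → ∀ z : ℕ,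
    Real.log x ^ E1 ≤ z → (z : ℝ) ≤ Real.log x ^ E → ∀ D B : ℕ, Real.log x ^ C0 ≤ D → (D : ℝ) ≤ (x : ℝ) ^ K →
    (D : ℝ) * x ≤ B * Real.log x ^ K → (B : ℝ) ≤ D * x * Real.log x ^ K →
    ∀ P : Fin k → ℤ[X], (∀ i, (P i).natDegree + 1 ≤ d) →
    (∀ i, ∀ m ∈ Icc 1 x, ((|(P i).eval (m : ℤ)| : ℤ) : ℝ) ≤ B * Real.log x ^ K) →
    ∀ c : Fin k → ℤ, (∀ i, c i ≠ 0) → (∀ i, ((|c i| : ℤ) : ℝ) ≤ B * x * Real.log x ^ K) →
    ∃ Bad ⊆ bx D B k, (#Bad : ℝ) ≤ ((D : ℝ) * B) ^ k / Real.log x ^ U ∧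
      ∀ e ∈ bx D B k, e ∉ Bad → (∀ p ∈ pz z, rho (∏ i, fX (mem1 P c e) i) 0 p < p) →
        ∀ (σ : Fin k → Bool) (u v : ℕ), u < v → v ≤ x → 2 ≤ u → (∀ i, ∀ m ∈ Ioc u v, 3 ≤ sg (σ i) * (mem1 P c e i).eval (m : ℤ)) →
          |(cntA (fX (mem1 P c e)) (Ioc u v) : ℝ) - dsys z (fX (mem1 P c e)) * ∑ m ∈ Ioc u v, lw (fX (mem1 P c e)) m| ≤
          dsys z (fX (mem1 P c e)) * x / Real.log x ^ U := by
  classical
  obtain ⟨C0, E1, h0⟩ := sysP_final k d (U + 1) (K + 1) hk hd
  refine ⟨C0 + K, E1, fun E => ?_⟩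
  obtain ⟨x1, h1⟩ := h0 E
  obtain ⟨x2, h2⟩ := ev_L' (4 + 2 ^ k : ℝ)
  refine ⟨max (max x1 x2) 3, fun x hx z hz1 hz2 D B hD1 hD2 hDB hBD P hP hPB c hc0 hc => ?_⟩
  have b1 := h1 x (le_trans (le_trans (le_max_left _ _) (le_max_left _ _)) hx)
  have b2 := h2 x (le_trans (le_trans (le_max_right _ _) (le_max_left _ _)) hx)
  have hx3 : 3 ≤ x := le_trans (le_max_right _ _) hx
  set L := Real.log x with hL
  have h2k : (0 : ℝ) < 2 ^ k := by positivity
  have hL4 : 4 ≤ L := by linarith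
  have hL2k : (2 : ℝ) ^ k ≤ L := by linarith
  have hL1 : 1 ≤ L := by linarith
  have hL0 : 0 < L := by linarith
  have hLp : ∀ n : ℕ, 0 < L ^ n := fun n => by positivity
  have hLp1 : ∀ n : ℕ, 1 ≤ L ^ n := fun n => one_le_pow₀ hL1
  have hLL : ∀ {i j : ℕ}, i ≤ j → L ^ i ≤ L ^ j := fun h => pow_le_pow_right₀ hL1 h
  have hx0 : (0 : ℝ) < x := by exact_mod_cast (by omega : 0 < x)
  have hx1r : (1 : ℝ) ≤ x := by exact_mod_cast (by omega : 1 ≤ x)
  have hD1C : L ^ C0 ≤ D := (hLL (by omega)).trans hD1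
  have hD1K : L ^ K ≤ D := (hLL (by omega)).trans hD1
  have hDr : (1 : ℝ) ≤ D := (hLp1 _).trans hD1K
  have hD0 : (0 : ℝ) < D := by linarith
  have hxB : (x : ℝ) ≤ B := by
    have h7 : (x : ℝ) * L ^ K ≤ B * L ^ K := by
      calc (x : ℝ) * L ^ K ≤ x * D := mul_le_mul_of_nonneg_left hD1K hx0.le
        _ = D * x := mul_comm _ _
        _ ≤ _ := hDB
    exact le_of_mul_le_mul_right h7 (hLp K)
  have hBr : (1 : ℝ) ≤ B := hx1r.trans hxB
  have hB0 : (0 : ℝ) < B := by linarith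
  have hBK : (B : ℝ) ≤ B * L ^ K := le_mul_of_one_le_right hB0.le (hLp1 K)
  have hmain : ∀ σ : Fin k → Bool, ∃ Bad ⊆ bx D B k, (#Bad : ℝ) ≤ ((D : ℝ) * B) ^ k / L ^ (U + 1) ∧
      ∀ e ∈ bx D B k, e ∉ Bad → (∀ p ∈ pz z, rho (∏ i, fX (mem1 P c e) i) 0 p < p) →
        ∀ (u v : ℕ), u < v → v ≤ x → 2 ≤ u → (∀ i, ∀ m ∈ Ioc u v, 3 ≤ sg (σ i) * (mem1 P c e i).eval (m : ℤ)) →
          |(cntA (fX (mem1 P c e)) (Ioc u v) : ℝ) - dsys z (fX (mem1 P c e)) * ∑ m ∈ Ioc u v, lw (fX (mem1 P c e)) m| ≤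
          dsys z (fX (mem1 P c e)) * x / L ^ (U + 1) := by
    intro σ
    obtain ⟨Bad, hB1, hB2, hB3⟩ := b1 z hz1 hz2 D B hD1C
      (hD2.trans (pow_le_pow_right₀ hx1r (Nat.le_succ _)))
      (hDB.trans (mul_le_mul_of_nonneg_left (hLL (Nat.le_succ _)) hB0.le))
      (hBD.trans (mul_le_mul_of_nonneg_left (hLL (Nat.le_succ _)) (by positivity)))
      (PS σ D B P) (by
        intro i
        unfold PS
        split_ifs
        · exact hP i
        · have h5 : (-(P i) - C ((D : ℤ) + 1) * X - C ((B : ℤ) + 1)).natDegree ≤ d - 1 := by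
            refine (Polynomial.natDegree_sub_le _ _).trans (max_le ?_ ?_)
            · refine (Polynomial.natDegree_sub_le _ _).trans (max_le ?_ ?_)
              · rw [Polynomial.natDegree_neg]
                have := hP i
                omega
              · refine (Polynomial.natDegree_C_mul_le _ _).trans ?_
                rw [Polynomial.natDegree_X]; omega
            · rw [Polynomial.natDegree_C]; omega
          omega) (by
        intro i m hm
        have h5 := hPB i m hm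
        unfold PS
        split_ifs
        · exact h5.trans (mul_le_mul_of_nonneg_left (hLL (Nat.le_succ _)) hB0.le)
        · rw [Polynomial.eval_sub, Polynomial.eval_sub, Polynomial.eval_neg, Polynomial.eval_mul, Polynomial.eval_C, Polynomial.eval_X,
            Polynomial.eval_C]
          rw [mem_Icc] at hm
          have hmr : (m : ℝ) ≤ x := by exact_mod_cast hm.2
          have h6 : |(-(P i).eval (m : ℤ) - ((D : ℤ) + 1) * m - ((B : ℤ) + 1))| ≤ |(P i).eval (m : ℤ)| + ((D : ℤ) + 1) * m + ((B : ℤ) + 1) := by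
            have h7 := abs_sub (-(P i).eval (m : ℤ) - ((D : ℤ) + 1) * m) ((B : ℤ) + 1)
            have h8 := abs_sub (-(P i).eval (m : ℤ)) (((D : ℤ) + 1) * m)
            rw [abs_neg] at h8
            rw [abs_of_nonneg (by positivity : (0 : ℤ) ≤ ((D : ℤ) + 1) * m)] at h8
            rw [abs_of_nonneg (by positivity : (0 : ℤ) ≤ (B : ℤ) + 1)] at h7
            linarith
          have h7 : (((|(-(P i).eval (m : ℤ) - ((D : ℤ) + 1) * m - ((B : ℤ) + 1))| : ℤ)) : ℝ) ≤
              ((|(P i).eval (m : ℤ)| : ℤ) : ℝ) + (D + 1) * m + (B + 1) := by exact_mod_cast h6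
          have h8 : (D : ℝ) * m ≤ B * L ^ K := (mul_le_mul_of_nonneg_left hmr hD0.le).trans hDB
          calc (((|(-(P i).eval (m : ℤ) - ((D : ℤ) + 1) * m - ((B : ℤ) + 1))| : ℤ)) : ℝ)
              ≤ ((|(P i).eval (m : ℤ)| : ℤ) : ℝ) + (D + 1) * m + (B + 1) := h7
            _ ≤ B * L ^ K + (B * L ^ K + x) + (B + 1) := by
                have : ((D : ℝ) + 1) * m = D * m + m := by ring
                linarith
            _ ≤ (4 + 1) * (B * L ^ K) := by linarith
            _ ≤ B * L ^ (K + 1) := by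
                rw [pow_succ]
                have h9 : (4 + 1 : ℝ) ≤ L := by
                  have : (1 : ℝ) ≤ 2 ^ k := one_le_pow₀ (by norm_num)
                  linarith
                calc (4 + 1 : ℝ) * (B * L ^ K) ≤ L * (B * L ^ K) := mul_le_mul_of_nonneg_right h9 (by positivity)
                  _ = B * (L ^ K * L) := by ring)
      (cS σ c) (by
        intro i
        unfold cS
        split_ifs
        · exact hc0 i
        · exact neg_ne_zero.2 (hc0 i)) (by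
        intro i
        have h5 : ((|c i| : ℤ) : ℝ) ≤ B * x * L ^ (K + 1) :=
          (hc i).trans (mul_le_mul_of_nonneg_left (hLL (Nat.le_succ _)) (by positivity))
        unfold cS
        split_ifs
        · exact h5
        · rw [abs_neg]; exact h5)
    refine ⟨Bad.image (reflS σ D B), ?_, ?_, ?_⟩
    · intro e he
      rw [mem_image] at he
      obtain ⟨e0, he0, rfl⟩ := he
      exact reflS_mem σ D B e0 (hB1 he0)
    · refine le_trans ?_ hB2
      exact_mod_cast card_image_le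
    · intro e he hbad hrho u v huv hvx hu2 h3
      have he' := reflS_mem σ D B e he
      have hn1 : reflS σ D B e ∉ Bad := by
        intro h
        apply hbad
        rw [mem_image]
        exact ⟨_, h, reflS_reflS σ D B e he⟩
      have key := hB3 (reflS σ D B e) he' hn1 u v huv hvx hu2
      rw [mem1_S σ D B P c e he, fX_sg] at key
      have key2 := (key (fun i m hm => by
        rw [Polynomial.eval_mul, Polynomial.eval_C]
        exact h3 i m hm)) (fun p hp => by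
        rw [rho_sg]
        exact hrho p hp)
      rw [dsys_sg, cnt_sg (Fin.cons true σ : Fin (k + 1) → Bool) _ _ (fun i m hm => by
        refine Fin.cases ?_ (fun j => ?_) i
        · unfold fX sg
          simp only [Fin.cons_zero, if_true, one_mul, Polynomial.eval_X]
          positivity
        · unfold fX
          simp only [Fin.cons_succ]
          have := h3 j m hm
          linarith)] at key2
      simp only [lw_sg] at key2
      exact key2
  choose Bad hB1 hB2 hB3 using hmain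
  refine ⟨univ.biUnion Bad, ?_, ?_, ?_⟩
  · intro e he
    rw [mem_biUnion] at he
    obtain ⟨σ, _, hσ⟩ := he
    exact hB1 σ hσ
  · calc (#(univ.biUnion Bad) : ℝ) ≤ ∑ σ, (#(Bad σ) : ℝ) := by exact_mod_cast card_biUnion_le
      _ ≤ ∑ _σ : Fin k → Bool, ((D : ℝ) * B) ^ k / L ^ (U + 1) := sum_le_sum fun σ _ => hB2 σ
      _ = 2 ^ k * (((D : ℝ) * B) ^ k / L ^ (U + 1)) := by
          rw [sum_const, card_univ, Fintype.card_fun, Fintype.card_bool, Fintype.card_fin, nsmul_eq_mul]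
          push_cast
          ring
      _ = (2 ^ k / L) * (((D : ℝ) * B) ^ k / L ^ U) := by
          rw [pow_succ]
          field_simp
      _ ≤ 1 * (((D : ℝ) * B) ^ k / L ^ U) := by
          apply mul_le_mul_of_nonneg_right _ (by positivity)
          rw [div_le_one hL0]
          exact hL2k
      _ = _ := one_mul _
  · intro e he hbad hrho σ u v huv hvx hu2 h3
    have hn : e ∉ Bad σ := by
      intro h
      apply hbad
      rw [mem_biUnion]
      exact ⟨σ, mem_univ _, h⟩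
    refine (hB3 σ e he hn hrho u v huv hvx hu2 h3).trans ?_
    have hz1' : 1 ≤ z := by
      have : (1 : ℝ) ≤ z := (hLp1 _).trans hz1
      exact_mod_cast this
    have hds : 0 ≤ dsys z (fX (mem1 P c e)) := by
      unfold dsys
      exact mul_nonneg (by have := Vz_pos z; positivity) (hh_nonneg _ _ _ hz1')
    exact div_le_div_of_nonneg_left (by positivity) (hLp _) (hLL (Nat.le_succ _))


/-- **Systems with prime arguments, all windows.** -/
theorem sysP_abs (k d U K : ℕ) (hk : 1 ≤ k) (hd : 2 ≤ d) : ∃ C0 E1 : ℕ, ∀ E : ℕ, ∃ x0 : ℕ, ∀ x : ℕ, x0 ≤ x → ∀ z : ℕ,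
    Real.log x ^ E1 ≤ z → (z : ℝ) ≤ Real.log x ^ E → ∀ D B : ℕ, Real.log x ^ C0 ≤ D → (D : ℝ) ≤ (x : ℝ) ^ K →
    (D : ℝ) * x ≤ B * Real.log x ^ K → (B : ℝ) ≤ D * x * Real.log x ^ K →
    ∀ P : Fin k → ℤ[X], (∀ i, (P i).natDegree + 1 ≤ d) →
    (∀ i, ∀ m ∈ Icc 1 x, ((|(P i).eval (m : ℤ)| : ℤ) : ℝ) ≤ B * Real.log x ^ K) →
    ∀ c : Fin k → ℤ, (∀ i, c i ≠ 0) → (∀ i, ((|c i| : ℤ) : ℝ) ≤ B * x * Real.log x ^ K) →
    ∃ Bad ⊆ bx D B k, (#Bad : ℝ) ≤ ((D : ℝ) * B) ^ k / Real.log x ^ U ∧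
      ∀ e ∈ bx D B k, e ∉ Bad → (∀ i, 1 ≤ (mem1 P c e i).natDegree) → (∀ p ∈ pz z, rho (∏ i, fX (mem1 P c e) i) 0 p < p) →
        ∀ (u v : ℕ), u ≤ v → v ≤ x →
          |(cntA (fX (mem1 P c e)) (Ioc u v) : ℝ) - dsys z (fX (mem1 P c e)) * lsum (fX (mem1 P c e)) u v| ≤
          dsys z (fX (mem1 P c e)) * x / Real.log x ^ U := by
  classical
  obtain ⟨C0, E1, h0⟩ := sysP_sign k d (U + 1) K hk hd
  refine ⟨C0, E1, fun E => ?_⟩
  obtain ⟨x1, h1⟩ := h0 E
  obtain ⟨x2, h2⟩ := abs_of_sign (k + 1) d U E (by omega) (by omega)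
  obtain ⟨x3, h3⟩ := ev_L' 1
  refine ⟨max (max x1 x2) x3, fun x hx z hz1 hz2 D B hD1 hD2 hDB hBD P hP hPB c hc0 hc => ?_⟩
  have b1 := h1 x (le_trans (le_trans (le_max_left _ _) (le_max_left _ _)) hx)
  have b2 := h2 x (le_trans (le_trans (le_max_right _ _) (le_max_left _ _)) hx)
  have b3 := h3 x (le_trans (le_max_right _ _) hx)
  have hz1' : 1 ≤ z := by
    have : (1 : ℝ) ≤ z := (one_le_pow₀ b3).trans hz1
    exact_mod_cast this
  obtain ⟨Bad, hB1, hB2, hB3⟩ := b1 z hz1 hz2 D B hD1 hD2 hDB hBD P hP hPB c hc0 hc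
  refine ⟨Bad, hB1, hB2.trans ?_, fun e he hbad hdeg1 hrho => ?_⟩
  · exact div_le_div_of_nonneg_left (by positivity) (by have := b3; positivity) (pow_le_pow_right₀ b3 (Nat.le_succ _))
  · refine b2 z hz1' hz2 (fX (mem1 P c e)) (fun i => ?_) (fun i => ?_) hrho (fun σ u v huv hvx h3' => ?_)
    · refine Fin.cases ?_ (fun j => ?_) i
      · unfold fX
        simp only [Fin.cons_zero, Polynomial.natDegree_X]
        omega
      · unfold fX
        simp only [Fin.cons_succ]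
        exact mem1_deg hd P hP c e j
    · refine Fin.cases ?_ (fun j => ?_) i
      · unfold fX
        simp only [Fin.cons_zero, Polynomial.natDegree_X]
        exact le_rfl
      · unfold fX
        simp only [Fin.cons_succ]
        exact hdeg1 j
    · have hu2 : 2 ≤ u := by
        have h5 := h3' 0 (u + 1) (mem_Ioc.2 ⟨by omega, by omega⟩)
        unfold fX at h5
        simp only [Fin.cons_zero, Polynomial.eval_X] at h5
        rcases sg_sq (σ 0) with h6 | h6
        · rw [h6] at h5; push_cast at h5; omega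
        · rw [h6] at h5; push_cast at h5; omega
      refine hB3 e he hbad hrho (fun i => σ i.succ) u v huv hvx hu2 (fun i m hm => ?_)
      have h5 := h3' i.succ m hm
      unfold fX at h5
      simp only [Fin.cons_succ] at h5
      exact h5

end Pool.Agent.Y868.TC
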