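import Pool.Agent.Y868.TC.P3
import Pool.Agent.Y868.TC.G1

/-! Every `N` as a sum of a prime and a value of a polynomial at a prime, for almost all polynomials. -/

set_option autoImplicit false

namespace Pool.Agent.Y868.TC

open Finset Filter
open Polynomial (X C)
open scoped Polynomial
open Pool.Agent.H373R2.T7 (pz Vz lamz mem_pz Vz_inv_small ev_L' Vz_inv_le Vz_pos)
open Pool.Agent.TH204.WR (rho hh vN model rho_le hh_nonneg prod_le_one' prod_nonneg' V_low)
open Pool.Agent.Y868.TA

/-- the number of primes `p` for which `N - G(p)` is a positive prime -/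
noncomputable def RG (N : ℕ) (G : ℤ[X]) : ℕ := {p : ℕ | p.Prime ∧ ((N : ℤ) - G.eval (p : ℤ)).toNat.Prime}.ncard

/-- the main sum -/
noncomputable def MG (x N : ℕ) (G : ℤ[X]) : ℝ :=
  ∑ m ∈ (Icc 2 x).filter (fun m : ℕ => 2 ≤ (N : ℤ) - G.eval (m : ℤ)),
    1 / (Real.log m * Real.log (((N : ℤ) - G.eval (m : ℤ) : ℤ) : ℝ))

/-- the reflected pair -/
def rq (D B : ℕ) (q : ℕ × ℕ) : Fin 1 → ℕ × ℕ := fun _ => (D + 1 - q.1, B + 1 - q.2)

lemma mem1_rq (D B N : ℕ) (P : ℤ[X]) (q : ℕ × ℕ) (hq : q ∈ Icc 1 D ×ˢ Icc 1 B) :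
    mem1 (fun _ : Fin 1 => -P - C ((D : ℤ) + 1) * X - C ((B : ℤ) + 1)) (fun _ => (N : ℤ)) (rq D B q) =
      fun _ => C (N : ℤ) - G0 P q := by
  rw [mem_product, mem_Icc, mem_Icc] at hq
  funext i
  unfold mem1 rq G0
  have e1 : ((D + 1 - q.1 : ℕ) : ℤ) = D + 1 - q.1 := by
    rw [Nat.cast_sub (by omega)]; push_cast; ring
  have e2 : ((B + 1 - q.2 : ℕ) : ℤ) = B + 1 - q.2 := by
    rw [Nat.cast_sub (by omega)]; push_cast; ring
  simp only [e1, e2]
  simp only [Polynomial.C_add, Polynomial.C_sub, Polynomial.C_1]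
  ring

/-- **Every `N`, almost all polynomials, prime arguments.** -/
theorem gold_prime (d U K : ℕ) (hd : 2 ≤ d) : ∃ C0 E1 : ℕ, ∀ E : ℕ, ∃ x0 : ℕ, ∀ x : ℕ, x0 ≤ x → ∀ z : ℕ,
    Real.log x ^ E1 ≤ z → (z : ℝ) ≤ Real.log x ^ E → ∀ D B N : ℕ, Real.log x ^ C0 ≤ D → (D : ℝ) ≤ (x : ℝ) ^ K →
    (D : ℝ) * x ≤ B * Real.log x ^ K → (B : ℝ) ≤ D * x * Real.log x ^ K →
    (B : ℝ) * x ≤ N * Real.log x ^ K → (N : ℝ) * Real.log x ^ (U + 2) ≤ B * x →
    ∀ P : ℤ[X], P.natDegree + 1 ≤ d → (∀ j, 0 ≤ P.coeff j) → ((P.eval (x : ℤ) : ℤ) : ℝ) ≤ B * Real.log x ^ K →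
    ∃ Bad ⊆ Icc 1 D ×ˢ Icc 1 B, (#Bad : ℝ) ≤ (D : ℝ) * B / Real.log x ^ U ∧
      ∀ q ∈ Icc 1 D ×ˢ Icc 1 B, q ∉ Bad → (∀ p ∈ pz z, rho (X * (C (N : ℤ) - G0 P q)) 0 p < p) →
        |(RG N (G0 P q) : ℝ) - dsys z (fX (fun _ : Fin 1 => C (N : ℤ) - G0 P q)) * MG x N (G0 P q)| ≤
          dsys z (fX (fun _ : Fin 1 => C (N : ℤ) - G0 P q)) * MG x N (G0 P q) / Real.log x ^ U := by
  classical
  obtain ⟨U1, hU1⟩ : ∃ U1, U1 = U + 2 * K + 3 := ⟨_, rfl⟩
  obtain ⟨C0, E1, hs⟩ := sysP_abs 1 d U1 (K + 1) le_rfl hd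
  refine ⟨C0 + K, E1, fun E => ?_⟩
  obtain ⟨x1, h1⟩ := hs E
  obtain ⟨x3, h3⟩ := ev_L' (64 * ((K : ℝ) + 5))
  obtain ⟨x4, h4⟩ := evt_polylog (U + 2 * K + 10)
  refine ⟨max x1 (max (max x3 x4) 3), fun x hx z hz1 hz2 D B N hD1 hD2 hDB hBD hNB hNU P hP hPc hPB => ?_⟩
  have b1 := h1 x (le_trans (le_max_left _ _) hx)
  have b3 := h3 x (le_trans (le_trans (le_trans (le_max_left _ _) (le_max_left _ _)) (le_max_right _ _)) hx)
  have b4 := h4 x (le_trans (le_trans (le_trans (le_max_right _ _) (le_max_left _ _)) (le_max_right _ _)) hx)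
  have hx3 : 3 ≤ x := le_trans (le_trans (le_max_right _ _) (le_max_right _ _)) hx
  set L := Real.log x with hL
  have hK0 : (0 : ℝ) ≤ K := Nat.cast_nonneg _
  have hL64 : 64 ≤ L := by linarith
  have hL1 : 1 ≤ L := by linarith
  have hL0 : 0 < L := by linarith
  have hLp : ∀ n : ℕ, 0 < L ^ n := fun n => by positivity
  have hLp1 : ∀ n : ℕ, 1 ≤ L ^ n := fun n => one_le_pow₀ hL1
  have hLL : ∀ {i j : ℕ}, i ≤ j → L ^ i ≤ L ^ j := fun h => pow_le_pow_right₀ hL1 h
  have hx0 : (0 : ℝ) < x := by exact_mod_cast (by omega : 0 < x)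
  have hx1r : (1 : ℝ) ≤ x := by exact_mod_cast (by omega : 1 ≤ x)
  have hz1' : 1 ≤ z := by
    have : (1 : ℝ) ≤ z := (hLp1 _).trans hz1
    exact_mod_cast this
  have hD1C : L ^ C0 ≤ D := (hLL (by omega)).trans hD1
  have hD1K : L ^ K ≤ D := (hLL (by omega)).trans hD1
  have hDr : (1 : ℝ) ≤ D := (hLp1 _).trans hD1K
  have hDn : 1 ≤ D := by exact_mod_cast hDr
  have hD0 : (0 : ℝ) < D := by linarith
  have hxB : (x : ℝ) ≤ B := by
    have h7 : (x : ℝ) * L ^ K ≤ B * L ^ K := by
      calc (x : ℝ) * L ^ K ≤ x * D := mul_le_mul_of_nonneg_left hD1K hx0.le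
        _ = D * x := mul_comm _ _
        _ ≤ _ := hDB
    exact le_of_mul_le_mul_right h7 (hLp K)
  have hBr : (1 : ℝ) ≤ B := hx1r.trans hxB
  have hBn : 1 ≤ B := by exact_mod_cast hBr
  have hB0 : (0 : ℝ) < B := by linarith
  have hN1 : 1 ≤ N := by
    rcases Nat.eq_zero_or_pos N with h | h
    · rw [h] at hNB
      push_cast at hNB
      have : 0 < (B : ℝ) * x := by positivity
      linarith
    · exact h
  have hNr : (0 : ℝ) < N := by exact_mod_cast hN1
  have hLK1 : L ^ (K + 1) = L ^ K * L := pow_succ _ _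
  have hN_le : (N : ℝ) ≤ B * x := by
    have : (N : ℝ) * 1 ≤ N * L ^ (U + 2) := mul_le_mul_of_nonneg_left (hLp1 _) hNr.le
    linarith
  -- sizes for the transformed system
  have hPx : ∀ m ∈ Icc 1 x, ((P.eval (m : ℤ) : ℤ) : ℝ) ≤ B * L ^ K := by
    intro m hm
    refine le_trans ?_ hPB
    exact_mod_cast eval_mono P hPc m x (mem_Icc.1 hm).2
  have hPx0 : ∀ m : ℕ, (0 : ℝ) ≤ ((P.eval (m : ℤ) : ℤ) : ℝ) := by
    intro m
    exact_mod_cast eval_nn P hPc m
  have hBK : (B : ℝ) ≤ B * L ^ K := le_mul_of_one_le_right hB0.le (hLp1 _)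
  have hBK1 : (B : ℝ) * L ^ K * 5 ≤ B * L ^ (K + 1) := by
    rw [hLK1]
    have : 0 < (B : ℝ) * L ^ K := by positivity
    nlinarith
  obtain ⟨Bad1, hB1s, hB1c, hB1⟩ := b1 z hz1 hz2 D B hD1C
    (hD2.trans (pow_le_pow_right₀ hx1r (Nat.le_succ _)))
    (hDB.trans (mul_le_mul_of_nonneg_left (hLL (Nat.le_succ _)) hB0.le))
    (hBD.trans (mul_le_mul_of_nonneg_left (hLL (Nat.le_succ _)) (by positivity)))
    (fun _ => -P - C ((D : ℤ) + 1) * X - C ((B : ℤ) + 1)) (fun _ => by
      have h5 : (-P - C ((D : ℤ) + 1) * X - C ((B : ℤ) + 1)).natDegree ≤ d - 1 := by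
        refine (Polynomial.natDegree_sub_le _ _).trans (max_le ?_ ?_)
        · refine (Polynomial.natDegree_sub_le _ _).trans (max_le ?_ ?_)
          · rw [Polynomial.natDegree_neg]
            omega
          · refine (Polynomial.natDegree_C_mul_le _ _).trans ?_
            rw [Polynomial.natDegree_X]; omega
        · rw [Polynomial.natDegree_C]; omega
      omega) (fun _ m hm => by
      refine le_trans ?_ hBK1
      have hmx : (m : ℝ) ≤ x := by exact_mod_cast (mem_Icc.1 hm).2
      simp only [Polynomial.eval_sub, Polynomial.eval_neg, Polynomial.eval_mul, Polynomial.eval_C, Polynomial.eval_X]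
      push_cast
      have h5 := hPx m hm
      have h6 := hPx0 m
      have h7 : (D : ℝ) * m ≤ B * L ^ K := (mul_le_mul_of_nonneg_left hmx hD0.le).trans hDB
      have h8 : (m : ℝ) ≤ B * L ^ K := by linarith
      have h9 : (0 : ℝ) ≤ m := Nat.cast_nonneg _
      have h10 : (0 : ℝ) ≤ D * m := by positivity
      rw [abs_le]
      constructor
      · linarith
      · linarith)
    (fun _ => (N : ℤ)) (fun _ => by exact_mod_cast (by omega : N ≠ 0)) (fun _ => by
      have h5 : (B : ℝ) * x ≤ B * x * L ^ (K + 1) := le_mul_of_one_le_right (by positivity) (hLp1 _)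
      rw [abs_of_nonneg (by positivity : (0 : ℤ) ≤ (N : ℤ))]
      push_cast
      linarith)
  -- the exceptional set
  obtain ⟨t0, ht0⟩ : ∃ t0 : ℕ, t0 = ⌊(N : ℝ) / x⌋₊ := ⟨_, rfl⟩
  refine ⟨(Icc 1 D ×ˢ Icc 1 B).filter (fun q => rq D B q ∈ Bad1 ∨ q.2 ≤ t0), filter_subset _ _, ?_, ?_⟩
  · rw [filter_or]
    have a1 : #((Icc 1 D ×ˢ Icc 1 B).filter (fun q => rq D B q ∈ Bad1)) ≤ #Bad1 := by
      apply card_le_card_of_injOn (rq D B)
      · intro q hq
        exact (mem_filter.1 (mem_coe.1 hq)).2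
      · intro q hq q' hq' h
        have g1 := mem_product.1 (mem_filter.1 (mem_coe.1 hq)).1
        have g2 := mem_product.1 (mem_filter.1 (mem_coe.1 hq')).1
        rw [mem_Icc, mem_Icc] at g1 g2
        have h5 := congrFun h 0
        unfold rq at h5
        rw [Prod.mk.injEq] at h5
        ext <;> omega
    have a2 : #((Icc 1 D ×ˢ Icc 1 B).filter (fun q => q.2 ≤ t0)) ≤ D * t0 := by
      calc #((Icc 1 D ×ˢ Icc 1 B).filter (fun q => q.2 ≤ t0)) ≤ #(Icc 1 D ×ˢ Icc 1 t0) := by
            apply card_le_card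
            intro q hq
            rw [mem_filter, mem_product] at hq
            rw [mem_product]
            exact ⟨hq.1.1, mem_Icc.2 ⟨(mem_Icc.1 hq.1.2).1, hq.2⟩⟩
        _ = D * t0 := by rw [card_product, Nat.card_Icc, Nat.card_Icc, Nat.add_sub_cancel, Nat.add_sub_cancel]
    have a3 := card_union_le ((Icc 1 D ×ˢ Icc 1 B).filter (fun q => rq D B q ∈ Bad1)) ((Icc 1 D ×ˢ Icc 1 B).filter (fun q => q.2 ≤ t0))
    have a4 : (#((Icc 1 D ×ˢ Icc 1 B).filter (fun q => rq D B q ∈ Bad1) ∪ (Icc 1 D ×ˢ Icc 1 B).filter (fun q => q.2 ≤ t0)) : ℝ) ≤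
        #Bad1 + D * t0 := by exact_mod_cast (by omega : _ ≤ #Bad1 + D * t0)
    rw [pow_one] at hB1c
    have h5 : (t0 : ℝ) ≤ N / x := by rw [ht0]; exact Nat.floor_le (by positivity)
    have h6 : (t0 : ℝ) ≤ B / L ^ (U + 2) := by
      refine h5.trans ?_
      rw [div_le_div_iff₀ hx0 (hLp _)]
      exact hNU
    have h7 : (D : ℝ) * t0 ≤ (D * B) / L ^ (U + 2) := by
      calc (D : ℝ) * t0 ≤ D * (B / L ^ (U + 2)) := mul_le_mul_of_nonneg_left h6 hD0.le
        _ = _ := by ring
    have h8 : ∀ n : ℕ, U + 2 ≤ n → ((D : ℝ) * B) / L ^ n ≤ (1 / 2) * (D * B / L ^ U) := by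
      intro n hn
      calc ((D : ℝ) * B) / L ^ n ≤ (D * B) / L ^ (U + 1) :=
            div_le_div_of_nonneg_left (by positivity) (hLp _) (hLL (by omega))
        _ = (1 / L) * (D * B / L ^ U) := by rw [pow_succ]; field_simp
        _ ≤ _ := by
            apply mul_le_mul_of_nonneg_right _ (by positivity)
            exact one_div_le_one_div_of_le (by norm_num) (by linarith)
    have h9 := h8 (U + 2) le_rfl
    have h10 := h8 U1 (by omega)
    linarith
  · intro q hq hbad hrho
    rw [mem_filter, not_and, not_or] at hbad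
    obtain ⟨hbad1, hbad2⟩ := hbad hq
    have hqbox := mem_product.1 hq
    have hq1 := mem_Icc.1 hqbox.1
    have hq2 := mem_Icc.1 hqbox.2
    have hrq : rq D B q ∈ bx D B 1 := by
      unfold bx rq
      rw [Fintype.mem_piFinset]
      intro _
      rw [mem_product, mem_Icc, mem_Icc]
      constructor <;> constructor <;> simp only <;> omega
    have key := hB1 (rq D B q) hrq hbad1
    rw [mem1_rq D B N P q hq] at key
    obtain ⟨f, hf⟩ : ∃ f : ℤ[X], f = C (N : ℤ) - G0 P q := ⟨_, rfl⟩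
    rw [← hf] at key hrho ⊢
    have hfe : ∀ m : ℕ, f.eval (m : ℤ) = N - (G0 P q).eval (m : ℤ) := by
      intro m
      rw [hf, Polynomial.eval_sub, Polynomial.eval_C]
    have hfe' : ∀ m : ℕ, f.eval (m : ℤ) = N - m * (P.eval (m : ℤ) + q.1 * m + q.2) := by
      intro m
      rw [hfe, G0_eval]
    have hdec : ∀ m : ℕ, f.eval ((m + 1 : ℕ) : ℤ) < f.eval (m : ℤ) := by
      intro m
      have := G0_strict P hPc q hq2.1 m
      rw [hfe, hfe]
      linarith
    have hdec' : ∀ m n : ℕ, m < n → f.eval (n : ℤ) < f.eval (m : ℤ) := by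
      intro m n hmn
      induction n, hmn using Nat.le_induction with
      | base => exact hdec m
      | succ n _ ih => exact (hdec n).trans ih
    have hdeg1 : 1 ≤ f.natDegree := by
      by_contra hcon
      have h5 := Polynomial.eq_C_of_natDegree_eq_zero (p := f) (by omega)
      have h6 := hdec 0
      rw [h5, Polynomial.eval_C, Polynomial.eval_C] at h6
      exact lt_irrefl _ h6
    -- beyond `x` the value is negative
    have hneg : f.eval (((x : ℕ) : ℤ)) < 0 := by
      rw [hfe']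
      have h6 : (N : ℝ) / x < q.2 := by
        have h7 := Nat.lt_floor_add_one ((N : ℝ) / x)
        rw [← ht0] at h7
        have h8 : ((t0 : ℕ) : ℝ) + 1 ≤ q.2 := by exact_mod_cast (by omega : t0 + 1 ≤ q.2)
        linarith
      rw [div_lt_iff₀ hx0] at h6
      have h7 : (N : ℤ) < q.2 * x := by exact_mod_cast h6
      have h8 := eval_nn P hPc x
      have h9 : (0 : ℤ) ≤ x * (P.eval (x : ℤ) + q.1 * x) := by positivity
      nlinarith
    obtain ⟨v, hv⟩ : ∃ v, v = #((Icc 1 x).filter (fun n : ℕ => 2 ≤ f.eval (n : ℤ))) := ⟨_, rfl⟩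
    have hvset : (Icc 1 x).filter (fun n : ℕ => 2 ≤ f.eval (n : ℤ)) = Ioc 0 v := by
      have hdown : ∀ m n : ℕ, m ≤ n → 2 ≤ f.eval (n : ℤ) → 2 ≤ f.eval (m : ℤ) := by
        intro m n hmn h
        rcases hmn.eq_or_lt with rfl | hlt
        · exact h
        · exact h.trans (hdec' m n hlt).le
      have h5 : Ioc 0 v ⊆ (Icc 1 x).filter (fun n : ℕ => 2 ≤ f.eval (n : ℤ)) := by
        intro n hn
        rw [mem_Ioc] at hn
        by_contra hcon
        have h6 : (Icc 1 x).filter (fun n : ℕ => 2 ≤ f.eval (n : ℤ)) ⊆ Ioo 0 n := by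
          intro m hm
          rw [mem_filter, mem_Icc] at hm
          rw [mem_Ioo]
          refine ⟨by omega, ?_⟩
          by_contra hmn
          push Not at hmn
          apply hcon
          rw [mem_filter, mem_Icc]
          exact ⟨⟨by omega, by omega⟩, hdown n m hmn hm.2⟩
        have h7 := card_le_card h6
        rw [← hv, Nat.card_Ioo] at h7
        omega
      exact (eq_of_subset_of_card_le h5 (by rw [← hv, Nat.card_Ioc]; omega)).symm
    have hv2 : ∀ m ∈ Ioc 0 v, 2 ≤ f.eval (m : ℤ) := by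
      intro m hm
      rw [← hvset] at hm
      exact (mem_filter.1 hm).2
    have hvmem : ∀ m : ℕ, 1 ≤ m → 2 ≤ f.eval (m : ℤ) → m ≤ v := by
      intro m hm h
      have h5 : m ≤ x := by
        by_contra hcon
        push Not at hcon
        have := hdec' x m hcon
        linarith
      have h6 : m ∈ Ioc 0 v := by
        rw [← hvset, mem_filter, mem_Icc]
        exact ⟨⟨hm, h5⟩, h⟩
      exact (mem_Ioc.1 h6).2
    have hvx : v < x := by
      by_contra hcon
      push Not at hcon
      have h5 := hv2 x (mem_Ioc.2 ⟨by omega, hcon⟩)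
      linarith
    -- `v` is large
    have hvlow : (x : ℝ) / (4 * L ^ (2 * K)) ≤ v := by
      obtain ⟨y, hy⟩ : ∃ y : ℕ, y = ⌊(x : ℝ) / (4 * L ^ (2 * K))⌋₊ + 1 := ⟨_, rfl⟩
      have hyr : (x : ℝ) / (4 * L ^ (2 * K)) ≤ y := by
        have := Nat.lt_floor_add_one ((x : ℝ) / (4 * L ^ (2 * K)))
        rw [hy]
        push_cast
        linarith
      have hy2 : (y : ℝ) ≤ x / (4 * L ^ (2 * K)) + 1 := by
        have := Nat.floor_le (show 0 ≤ (x : ℝ) / (4 * L ^ (2 * K)) by positivity)
        rw [hy]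
        push_cast
        linarith
      have hone : 1 ≤ (x : ℝ) / (64 * L ^ (2 * K)) := by
        rw [le_div_iff₀ (by positivity), one_mul]
        calc 64 * L ^ (2 * K) ≤ L * L ^ (2 * K) := mul_le_mul_of_nonneg_right hL64 (hLp _).le
          _ = L ^ (2 * K + 1) := by rw [pow_succ]; ring
          _ ≤ _ := (hLL (by omega)).trans b4
      have hy3 : (y : ℝ) ≤ (17 / 64) * (x / L ^ (2 * K)) := by
        have e1 : (x : ℝ) / (4 * L ^ (2 * K)) = (1 / 4) * (x / L ^ (2 * K)) := by field_simp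
        have e2 : (x : ℝ) / (64 * L ^ (2 * K)) = (1 / 64) * (x / L ^ (2 * K)) := by field_simp
        rw [e1] at hy2
        rw [e2] at hone
        linarith
      have hyx : y ≤ x := by
        have h5 : (x : ℝ) / L ^ (2 * K) ≤ x := div_le_self hx0.le (hLp1 _)
        have : (y : ℝ) ≤ x := by linarith
        exact_mod_cast this
      have hy1 : 1 ≤ y := by omega
      have h5 : 2 ≤ f.eval (y : ℤ) := by
        rw [hfe']
        have h6 := hPx y (mem_Icc.2 ⟨hy1, hyx⟩)
        have h7 : (q.1 : ℝ) * y ≤ B * L ^ K := by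
          calc (q.1 : ℝ) * y ≤ D * x := by
                apply mul_le_mul (by exact_mod_cast hq1.2) (by exact_mod_cast hyx) (by positivity) hD0.le
            _ ≤ _ := hDB
        have h8 : (q.2 : ℝ) ≤ B * L ^ K := by
          have : (q.2 : ℝ) ≤ B := by exact_mod_cast hq2.2
          linarith
        have h9 : (y : ℝ) * (((P.eval (y : ℤ) : ℤ) : ℝ) + q.1 * y + q.2) ≤ (51 / 64) * N := by
          calc (y : ℝ) * (((P.eval (y : ℤ) : ℤ) : ℝ) + q.1 * y + q.2) ≤
              ((17 / 64) * (x / L ^ (2 * K))) * (3 * (B * L ^ K)) := by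
                apply mul_le_mul hy3 (by linarith) _ (by positivity)
                have := hPx0 y
                positivity
            _ = (51 / 64) * ((B * x) / L ^ K) := by
                rw [two_mul, pow_add]
                have := (hLp K).ne'
                field_simp
                norm_num
            _ ≤ (51 / 64) * N := by
                apply mul_le_mul_of_nonneg_left _ (by norm_num)
                rw [div_le_iff₀ (hLp K)]
                exact hNB
        have h10 : (64 : ℝ) ≤ N := by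
          have h11 : (x : ℝ) * L ^ K ≤ N * L ^ K := by
            have h13 : L ^ K ≤ x := (hLL (by omega)).trans b4
            have h12 : (x : ℝ) * L ^ K ≤ x * B :=
              mul_le_mul_of_nonneg_left (h13.trans hxB) hx0.le
            linarith
          have h12 : (x : ℝ) ≤ N := le_of_mul_le_mul_right h11 (hLp K)
          have h13 : L ≤ x := by
            have := (hLL (show 1 ≤ U + 2 * K + 10 by omega)).trans b4
            rwa [pow_one] at this
          linarith
        have h11 : (2 : ℝ) ≤ ((N - y * (P.eval (y : ℤ) + q.1 * y + q.2) : ℤ) : ℝ) := by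
          push_cast
          linarith
        exact_mod_cast h11
      have h7 : (y : ℝ) ≤ v := by exact_mod_cast hvmem y hy1 h5
      linarith
    have hvpos : 0 < v := by
      have : (0 : ℝ) < v := lt_of_lt_of_le (by positivity) hvlow
      exact_mod_cast this
    have key2 := key (fun _ => hdeg1) (by
      intro p hp
      rw [prod_fX]
      simp only [Finset.univ_unique, prod_singleton]
      exact hrho p hp) 0 v (Nat.zero_le _) hvx.le
    set S := dsys z (fX (fun _ : Fin 1 => f)) with hS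
    have hS0 : 0 ≤ S := by
      rw [hS]
      unfold dsys
      exact mul_nonneg (by have := Vz_pos z; positivity) (hh_nonneg _ _ _ hz1')
    -- the count
    have hcount : (cntA (fX (fun _ : Fin 1 => f)) (Ioc 0 v) : ℝ) = RG N (G0 P q) := by
      have h5 : {p : ℕ | p.Prime ∧ ((N : ℤ) - (G0 P q).eval (p : ℤ)).toNat.Prime} =
          (((Ioc 0 v).filter (fun m : ℕ => ∀ i, ((fX (fun _ : Fin 1 => f) i).eval (m : ℤ)).natAbs.Prime) : Finset ℕ) : Set ℕ) := by
        ext p
        rw [Set.mem_setOf_eq, mem_coe, mem_filter, mem_Ioc, Fin.forall_fin_succ]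
        unfold fX
        simp only [Fin.cons_zero, Fin.cons_succ, Polynomial.eval_X, Int.natAbs_natCast, Fin.forall_fin_one]
        rw [← hfe]
        constructor
        · rintro ⟨hp1, hp2⟩
          have h6 := hp2.two_le
          have h7 : 2 ≤ f.eval (p : ℤ) := by omega
          have h8 : (f.eval (p : ℤ)).natAbs = (f.eval (p : ℤ)).toNat := by omega
          rw [h8]
          exact ⟨⟨hp1.pos, hvmem p hp1.one_le h7⟩, hp1, hp2⟩
        · rintro ⟨hp0, hp1, hp2⟩
          have h7 := hv2 p (mem_Ioc.2 hp0)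
          have h8 : (f.eval (p : ℤ)).natAbs = (f.eval (p : ℤ)).toNat := by omega
          rw [h8] at hp2
          exact ⟨hp1, hp2⟩
      unfold RG
      rw [h5, Set.ncard_coe_finset]
      unfold cntA
      rfl
    have hmain : lsum (fX (fun _ : Fin 1 => f)) 0 v = MG x N (G0 P q) := by
      unfold lsum MG
      have h5 : (Icc 2 x).filter (fun m : ℕ => 2 ≤ (N : ℤ) - (G0 P q).eval (m : ℤ)) =
          (Ioc 0 v).filter (fun m : ℕ => ∀ i, 2 ≤ |(fX (fun _ : Fin 1 => f) i).eval (m : ℤ)|) := by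
        ext m
        rw [mem_filter, mem_filter, mem_Icc, mem_Ioc, Fin.forall_fin_succ]
        unfold fX
        simp only [Fin.cons_zero, Fin.cons_succ, Polynomial.eval_X, Fin.forall_fin_one]
        rw [← hfe, abs_of_nonneg (by positivity : (0 : ℤ) ≤ (m : ℤ))]
        constructor
        · rintro ⟨h6, h7⟩
          refine ⟨⟨by omega, hvmem m (by omega) h7⟩, by exact_mod_cast h6.1, h7.trans (le_abs_self _)⟩
        · rintro ⟨h6, h7, h8⟩
          exact ⟨⟨by exact_mod_cast h7, by omega⟩, hv2 m (mem_Ioc.2 h6)⟩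
      rw [h5]
      refine sum_congr rfl fun m hm => ?_
      have hm1 := (mem_filter.1 hm).1
      have h7 := hv2 m hm1
      unfold fX
      rw [Fin.prod_univ_succ]
      simp only [Fin.cons_zero, Fin.cons_succ, Polynomial.eval_X, Finset.univ_unique, prod_singleton]
      rw [abs_of_nonneg (by positivity : (0 : ℤ) ≤ (m : ℤ)), abs_of_nonneg (by linarith : (0 : ℤ) ≤ f.eval (m : ℤ)), hfe,
        one_div_mul_one_div]
      push_cast
      rfl
    rw [hcount, hmain] at key2
    -- lower bound for the main sum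
    have hMlow : x / L ^ (2 * K + 3) ≤ MG x N (G0 P q) := by
      have hterm : ∀ m ∈ Ioc 1 v, 1 / (L * ((K + 5) * L)) ≤ 1 / (Real.log m * Real.log (((N : ℤ) - (G0 P q).eval (m : ℤ) : ℤ) : ℝ)) := by
        intro m hm
        rw [mem_Ioc] at hm
        have h5 := hv2 m (mem_Ioc.2 ⟨by omega, hm.2⟩)
        rw [← hfe]
        have h6 : (2 : ℝ) ≤ ((f.eval (m : ℤ) : ℤ) : ℝ) := by exact_mod_cast h5
        have h7 : ((f.eval (m : ℤ) : ℤ) : ℝ) ≤ N := by
          rw [hfe']
          have h8 : (0 : ℤ) ≤ m * (P.eval (m : ℤ) + q.1 * m + q.2) := by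
            have := eval_nn P hPc m
            positivity
          exact_mod_cast (by linarith : (N : ℤ) - m * (P.eval (m : ℤ) + q.1 * m + q.2) ≤ N)
        have h8 : (N : ℝ) ≤ (x : ℝ) ^ (K + 5) := by
          have h9 : L ^ K ≤ x := (hLL (by omega)).trans b4
          calc (N : ℝ) ≤ B * x := hN_le
            _ ≤ (D * x * L ^ K) * x := mul_le_mul_of_nonneg_right hBD hx0.le
            _ ≤ (x ^ K * x * x) * x := by
                apply mul_le_mul_of_nonneg_right _ hx0.le
                exact mul_le_mul (mul_le_mul_of_nonneg_right hD2 hx0.le) h9 (hLp _).le (by positivity)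
            _ = x ^ (K + 3) := by ring
            _ ≤ _ := pow_le_pow_right₀ hx1r (by omega)
        have h9 : Real.log ((f.eval (m : ℤ) : ℤ) : ℝ) ≤ (K + 5) * L := by
          have := Real.log_le_log (by linarith) (h7.trans h8)
          rw [Real.log_pow] at this
          push_cast at this
          exact this
        have h10 : 0 < Real.log ((f.eval (m : ℤ) : ℤ) : ℝ) := Real.log_pos (by linarith)
        have h11 : (2 : ℝ) ≤ m := by exact_mod_cast (by omega : 2 ≤ m)
        have h12 : 0 < Real.log (m : ℝ) := Real.log_pos (by linarith)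
        have h13 : Real.log (m : ℝ) ≤ L := Real.log_le_log (by linarith) (by exact_mod_cast (by omega : m ≤ x))
        apply one_div_le_one_div_of_le (by positivity)
        exact mul_le_mul h13 h9 h10.le hL0.le
      have hsub : Ioc 1 v ⊆ (Icc 2 x).filter (fun m : ℕ => 2 ≤ (N : ℤ) - (G0 P q).eval (m : ℤ)) := by
        intro m hm
        rw [mem_Ioc] at hm
        rw [mem_filter, mem_Icc]
        have h5 := hv2 m (mem_Ioc.2 ⟨by omega, hm.2⟩)
        rw [hfe] at h5
        exact ⟨⟨by omega, by omega⟩, h5⟩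
      have h5 : ((v : ℝ) - 1) * (1 / (L * ((K + 5) * L))) ≤ MG x N (G0 P q) := by
        calc ((v : ℝ) - 1) * (1 / (L * ((K + 5) * L))) = ∑ _m ∈ Ioc 1 v, 1 / (L * ((K + 5) * L)) := by
              rw [sum_const, Nat.card_Ioc, nsmul_eq_mul, Nat.cast_sub hvpos]
              push_cast
              rfl
          _ ≤ ∑ m ∈ Ioc 1 v, 1 / (Real.log m * Real.log (((N : ℤ) - (G0 P q).eval (m : ℤ) : ℤ) : ℝ)) := sum_le_sum hterm
          _ ≤ MG x N (G0 P q) := by
              unfold MG
              apply sum_le_sum_of_subset_of_nonneg hsub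
              intro m hm _
              rw [mem_filter, mem_Icc] at hm
              have h6 : (2 : ℝ) ≤ (((N : ℤ) - (G0 P q).eval (m : ℤ) : ℤ) : ℝ) := by exact_mod_cast hm.2
              have h7 : 0 < Real.log (((N : ℤ) - (G0 P q).eval (m : ℤ) : ℤ) : ℝ) := Real.log_pos (by linarith)
              have h8 : 0 ≤ Real.log (m : ℝ) := Real.log_nonneg (by exact_mod_cast (by omega : 1 ≤ m))
              positivity
      refine le_trans ?_ h5
      have h6 : (x : ℝ) / (8 * L ^ (2 * K)) ≤ (v : ℝ) - 1 := by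
        have h7 : 1 ≤ (x : ℝ) / (8 * L ^ (2 * K)) := by
          rw [le_div_iff₀ (by positivity), one_mul]
          calc 8 * L ^ (2 * K) ≤ L * L ^ (2 * K) := mul_le_mul_of_nonneg_right (by linarith) (hLp _).le
            _ = L ^ (2 * K + 1) := by rw [pow_succ]; ring
            _ ≤ _ := (hLL (by omega)).trans b4
        have h8 : (x : ℝ) / (4 * L ^ (2 * K)) = 2 * (x / (8 * L ^ (2 * K))) := by field_simp; ring
        rw [h8] at hvlow
        linarith
      calc (x : ℝ) / L ^ (2 * K + 3) = (x / (8 * L ^ (2 * K))) * (8 / L ^ 3) := by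
            rw [pow_add]; field_simp
        _ ≤ ((v : ℝ) - 1) * (1 / (L * ((K + 5) * L))) := by
            apply mul_le_mul h6 _ (by positivity) (le_trans (by positivity) h6)
            rw [div_le_div_iff₀ (hLp _) (by positivity), one_mul]
            have : 8 * ((K : ℝ) + 5) ≤ L := by linarith
            calc 8 * (L * (((K : ℝ) + 5) * L)) = (8 * ((K : ℝ) + 5)) * (L * L) := by ring
              _ ≤ L * (L * L) := mul_le_mul_of_nonneg_right this (by positivity)
              _ = L ^ 3 := by ring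
    refine key2.trans ?_
    have h5 : S * x / L ^ U1 = (S * (x / L ^ (2 * K + 3))) / L ^ U := by
      rw [hU1, show U + 2 * K + 3 = U + (2 * K + 3) by ring, pow_add L U]
      have := (hLp U).ne'
      have := (hLp (2 * K + 3)).ne'
      field_simp
    rw [h5]
    apply div_le_div_of_nonneg_right _ (hLp _).le
    exact mul_le_mul_of_nonneg_left hMlow hS0

end Pool.Agent.Y868.TC
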