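import Pool.Agent.Y868.TA.E2

/-! Systems of polynomials: replacing the primes by their sieve model, with arbitrary weights. -/

set_option autoImplicit false

namespace Pool.Agent.Y868.TC

open Finset Filter
open Pool.Agent.H373R2.T7 (pz Vz lamz mem_pz Vz_inv_small ev_L' Vz_inv_le Vz_pos)
open Pool.Agent.Y868.TA

/-- the values of the members of the system -/
noncomputable def fv {k : ℕ} (φ : Fin k → ℕ → ℤ) (c : Fin k → ℤ) (e : Fin k → ℕ × ℕ) (i : Fin k) (m : ℕ) : ℕ :=
  (c i + m * (φ i m + ((e i).1 : ℤ) * m + ((e i).2 : ℤ))).toNat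

/-- the hybrid factors -/
noncomputable def hyb (z : ℕ) {k : ℕ} (φ : Fin k → ℕ → ℤ) (c : Fin k → ℤ) (e : Fin k → ℕ × ℕ) (j : ℕ) (i : Fin k) (m : ℕ) : ℝ :=
  if (i : ℕ) < j then lamz z (fv φ c e i m) else th (fv φ c e i m)

lemma hyb_zero (z : ℕ) {k : ℕ} (φ : Fin k → ℕ → ℤ) (c : Fin k → ℤ) (e : Fin k → ℕ × ℕ) (m : ℕ) :
    ∏ i, hyb z φ c e 0 i m = ∏ i, th (fv φ c e i m) := by
  refine prod_congr rfl fun i _ => ?_
  unfold hyb
  rw [if_neg (by omega)]

lemma hyb_last (z : ℕ) {k : ℕ} (φ : Fin k → ℕ → ℤ) (c : Fin k → ℤ) (e : Fin k → ℕ × ℕ) (m : ℕ) :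
    ∏ i, hyb z φ c e k i m = ∏ i, lamz z (fv φ c e i m) := by
  refine prod_congr rfl fun i _ => ?_
  unfold hyb
  rw [if_pos i.2]

/-- the weight attached to the `j`-th member -/
noncomputable def wgt (z : ℕ) {k : ℕ} (φ : Fin k → ℕ → ℤ) (c : Fin k → ℤ) (e : Fin k → ℕ × ℕ) (j : Fin k) (m : ℕ) : ℝ :=
  ∏ i ∈ univ.erase j, hyb z φ c e j i m

lemma hyb_step (z : ℕ) {k : ℕ} (φ : Fin k → ℕ → ℤ) (c : Fin k → ℤ) (e : Fin k → ℕ × ℕ) (j : Fin k) (m : ℕ) :
    ∏ i, hyb z φ c e j i m - ∏ i, hyb z φ c e (j + 1) i m = wgt z φ c e j m * FF z (fv φ c e j m) := by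
  rw [← mul_prod_erase univ _ (mem_univ j), ← mul_prod_erase univ (fun i => hyb z φ c e (j + 1) i m) (mem_univ j)]
  have h1 : ∏ i ∈ univ.erase j, hyb z φ c e (j + 1) i m = wgt z φ c e j m := by
    unfold wgt
    refine prod_congr rfl fun i hi => ?_
    have hij : i ≠ j := (mem_erase.1 hi).1
    have hij' : (i : ℕ) ≠ j := fun h => hij (Fin.ext h)
    unfold hyb
    by_cases h : (i : ℕ) < j
    · rw [if_pos h, if_pos (by omega)]
    · rw [if_neg h, if_neg (by omega)]
  rw [h1]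
  have h2 : hyb z φ c e j j m = th (fv φ c e j m) := by
    unfold hyb; rw [if_neg (lt_irrefl _)]
  have h3 : hyb z φ c e (j + 1) j m = lamz z (fv φ c e j m) := by
    unfold hyb; rw [if_pos (Nat.lt_succ_self _)]
  rw [h3]
  unfold FF
  unfold wgt
  rw [h2]
  ring

lemma telescope (z : ℕ) {k : ℕ} (φ : Fin k → ℕ → ℤ) (c : Fin k → ℤ) (e : Fin k → ℕ × ℕ) (m : ℕ) :
    ∏ i, th (fv φ c e i m) - ∏ i, lamz z (fv φ c e i m) = ∑ j, wgt z φ c e j m * FF z (fv φ c e j m) := by
  rw [← hyb_zero z, ← hyb_last z]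
  have h1 : ∑ j : Fin k, wgt z φ c e j m * FF z (fv φ c e j m) =
      ∑ j : Fin k, (∏ i, hyb z φ c e (j : ℕ) i m - ∏ i, hyb z φ c e ((j : ℕ) + 1) i m) :=
    sum_congr rfl fun j _ => (hyb_step z φ c e j m).symm
  rw [h1, Fin.sum_univ_eq_sum_range (fun j => ∏ i, hyb z φ c e j i m - ∏ i, hyb z φ c e (j + 1) i m) k,
    sum_range_sub']

/-- the weight does not depend on the `j`-th coordinate -/
lemma wgt_update (z : ℕ) {k : ℕ} (φ : Fin k → ℕ → ℤ) (c : Fin k → ℤ) (e : Fin k → ℕ × ℕ) (j : Fin k) (q : ℕ × ℕ) (m : ℕ) :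
    wgt z φ c (Function.update e j q) j m = wgt z φ c e j m := by
  unfold wgt
  refine prod_congr rfl fun i hi => ?_
  have hij : i ≠ j := (mem_erase.1 hi).1
  unfold hyb fv
  rw [Function.update_of_ne hij]

/-- the box of coefficients -/
def bx (D B k : ℕ) : Finset (Fin k → ℕ × ℕ) := Fintype.piFinset (fun _ => Icc 1 D ×ˢ Icc 1 B)

lemma bx_card (D B k : ℕ) : #(bx D B k) = (D * B) ^ k := by
  unfold bx
  rw [Fintype.card_piFinset_const, card_product, Nat.card_Icc, Nat.card_Icc, Nat.add_sub_cancel, Nat.add_sub_cancel]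

open Classical in
/-- few bad vectors if there are few bad entries for given other entries -/
lemma fiber_count (D B k : ℕ) (hD : 1 ≤ D) (hB : 1 ≤ B) (j : Fin k) (S : Finset (Fin k → ℕ × ℕ)) (hS : S ⊆ bx D B k) (M : ℕ)
    (h : ∀ e ∈ bx D B k, #((Icc 1 D ×ˢ Icc 1 B).filter (fun q => Function.update e j q ∈ S)) ≤ M) :
    #S * (D * B) ≤ M * (D * B) ^ k := by
  set g : (Fin k → ℕ × ℕ) → (Fin k → ℕ × ℕ) := fun e => Function.update e j (1, 1) with hg
  have h1 : #S ≤ M * #(S.image g) := by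
    apply card_le_mul_card_image
    intro b hb
    rw [mem_image] at hb
    obtain ⟨e0, he0, rfl⟩ := hb
    refine le_trans ?_ (h e0 (hS he0))
    apply card_le_card_of_injOn (fun e => e j)
    · intro e he
      rw [mem_coe, mem_filter] at he
      rw [mem_coe, mem_filter]
      have h2 := Fintype.mem_piFinset.1 (hS he.1) j
      refine ⟨h2, ?_⟩
      have h3 : Function.update e0 j (e j) = e := by
        funext i
        by_cases hij : i = j
        · subst hij; rw [Function.update_self]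
        · rw [Function.update_of_ne hij]
          have h4 := congrFun he.2 i
          rw [hg] at h4
          simp only [Function.update_of_ne hij] at h4
          exact h4.symm
      rw [h3]
      exact he.1
    · intro e he e' he' hee
      rw [mem_coe, mem_filter] at he he'
      funext i
      by_cases hij : i = j
      · subst hij; exact hee
      · have h4 := congrFun (he.2.trans he'.2.symm) i
        rw [hg] at h4
        simp only [Function.update_of_ne hij] at h4
        exact h4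
  have h2 : #(S.image g) * (D * B) ≤ (D * B) ^ k := by
    have h3 : S.image g ⊆ Fintype.piFinset (Function.update (fun _ => Icc 1 D ×ˢ Icc 1 B) j {((1 : ℕ), (1 : ℕ))}) := by
      intro e he
      rw [mem_image] at he
      obtain ⟨e0, he0, rfl⟩ := he
      rw [Fintype.mem_piFinset]
      intro i
      by_cases hij : i = j
      · subst hij
        rw [Function.update_self, hg]
        simp only [Function.update_self]
        exact mem_singleton_self _
      · rw [Function.update_of_ne hij, hg]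
        simp only [Function.update_of_ne hij]
        exact Fintype.mem_piFinset.1 (hS he0) i
    have h4 := card_le_card h3
    rw [Fintype.card_piFinset] at h4
    have h5 : (∏ i, #(Function.update (fun _ : Fin k => Icc 1 D ×ˢ Icc 1 B) j {((1 : ℕ), (1 : ℕ))} i)) * (D * B) = (D * B) ^ k := by
      rw [← mul_prod_erase univ _ (mem_univ j), Function.update_self, card_singleton, one_mul]
      have h6 : ∏ i ∈ univ.erase j, #(Function.update (fun _ : Fin k => Icc 1 D ×ˢ Icc 1 B) j {((1 : ℕ), (1 : ℕ))} i) =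
          ∏ i ∈ univ.erase j, (D * B) := by
        refine prod_congr rfl fun i hi => ?_
        rw [Function.update_of_ne (mem_erase.1 hi).1, card_product, Nat.card_Icc, Nat.card_Icc, Nat.add_sub_cancel, Nat.add_sub_cancel]
      rw [h6, prod_erase_mul univ (fun _ => D * B) (mem_univ j), prod_const, card_univ, Fintype.card_fin]
    calc #(S.image g) * (D * B) ≤ (∏ i, #(Function.update (fun _ : Fin k => Icc 1 D ×ˢ Icc 1 B) j {((1 : ℕ), (1 : ℕ))} i)) * (D * B) :=
          Nat.mul_le_mul_right _ h4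
      _ = _ := h5
  calc #S * (D * B) ≤ (M * #(S.image g)) * (D * B) := Nat.mul_le_mul_right _ h1
    _ = M * (#(S.image g) * (D * B)) := by ring
    _ ≤ M * (D * B) ^ k := Nat.mul_le_mul_left _ h2

/-- **Systems: the primes and their sieve model.** -/
theorem sys_windows (k U K : ℕ) (hk : 1 ≤ k) : ∃ C E1 : ℕ, ∀ E : ℕ, ∃ x0 : ℕ, ∀ x : ℕ, x0 ≤ x → ∀ z : ℕ,
    Real.log x ^ E1 ≤ z → (z : ℝ) ≤ Real.log x ^ E → ∀ D B : ℕ, Real.log x ^ C ≤ D → (D : ℝ) ≤ (x : ℝ) ^ K →
    (D : ℝ) * x ≤ B * Real.log x ^ K → (B : ℝ) ≤ D * x * Real.log x ^ K →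
    ∀ φ : Fin k → ℕ → ℤ, (∀ i, ∀ m ∈ Icc 1 x, ((|φ i m| : ℤ) : ℝ) ≤ B * Real.log x ^ K) →
    ∀ c : Fin k → ℤ, (∀ i, c i ≠ 0) → (∀ i, ((|c i| : ℤ) : ℝ) ≤ B * x * Real.log x ^ K) → ∀ w : ℕ → ℝ, (∀ m, |w m| ≤ 1) →
    ∃ Bad ⊆ bx D B k, (#Bad : ℝ) ≤ ((D : ℝ) * B) ^ k / Real.log x ^ U ∧
      ∀ e ∈ bx D B k, e ∉ Bad → ∀ u v : ℕ, u ≤ v → v ≤ x →
        |∑ m ∈ Ioc u v, w m * (∏ i, th (fv φ c e i m) - ∏ i, lamz z (fv φ c e i m))| ≤ x / Real.log x ^ U := by
  classical
  obtain ⟨U', hU'⟩ : ∃ U', U' = U + k := ⟨_, rfl⟩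
  obtain ⟨C, E1, hwin⟩ := windows U' K
  refine ⟨C, E1, fun E => ?_⟩
  obtain ⟨x1, h1⟩ := hwin E
  obtain ⟨x2, h2⟩ := size_FF K E
  obtain ⟨x3, h3⟩ := Vz_inv_small E
  obtain ⟨x4, h4⟩ := ev_L' ((k : ℝ) * ((K : ℝ) + 5) ^ (k - 1) + 2)
  refine ⟨max (max x1 x2) (max (max x3 x4) 1), fun x hx z hz1 hz2 D B hD1 hD2 hDB hBD φ hφ c hc0 hc w hw => ?_⟩
  have b1 := h1 x (le_trans (le_trans (le_max_left _ _) (le_max_left _ _)) hx)
  have b2 := h2 x (le_trans (le_trans (le_max_right _ _) (le_max_left _ _)) hx)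
  have b3 := h3 x (le_trans (le_trans (le_trans (le_max_left _ _) (le_max_left _ _)) (le_max_right _ _)) hx)
  have b4 := h4 x (le_trans (le_trans (le_trans (le_max_right _ _) (le_max_left _ _)) (le_max_right _ _)) hx)
  have hx1 : 1 ≤ x := le_trans (le_trans (le_max_right _ _) (le_max_right _ _)) hx
  set L := Real.log x with hL
  have hK0 : (0 : ℝ) ≤ K := Nat.cast_nonneg _
  have hk0 : (0 : ℝ) ≤ k := Nat.cast_nonneg _
  have hkr : (1 : ℝ) ≤ k := by exact_mod_cast hk
  have hkk : (0 : ℝ) ≤ k * ((K : ℝ) + 5) ^ (k - 1) := by positivity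
  have hL1 : 1 ≤ L := by linarith
  have hL0 : 0 < L := by linarith
  have hLp : ∀ n : ℕ, 0 < L ^ n := fun n => by positivity
  have hLp1 : ∀ n : ℕ, 1 ≤ L ^ n := fun n => one_le_pow₀ hL1
  have hx0 : (0 : ℝ) < x := by exact_mod_cast hx1
  have hzr : (1 : ℝ) ≤ z := (hLp1 _).trans hz1
  have hz1' : 1 ≤ z := by exact_mod_cast hzr
  have hV := b3 z hz1' hz2
  have hDr : (1 : ℝ) ≤ D := (hLp1 _).trans hD1
  have hDn : 1 ≤ D := by exact_mod_cast hDr
  have hBn : 1 ≤ B := by
    rcases Nat.eq_zero_or_pos B with h | h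
    · rw [h] at hDB
      push_cast at hDB
      have : 0 < (D : ℝ) * x := by positivity
      linarith
    · exact h
  have hBr : (1 : ℝ) ≤ B := by exact_mod_cast hBn
  have hsize := fun i : Fin k => b2 z hz1' hz2 D B hDn hBn hD2 hDB hBD (φ i) (hφ i) (c i) (hc i)
  obtain ⟨W, hW⟩ : ∃ W : ℝ, W = ((K : ℝ) + 5) * L := ⟨_, rfl⟩
  have hW1 : 1 ≤ W := by rw [hW]; nlinarith
  have hW0 : 0 < W := by linarith
  -- the size of the factors
  have hlam : ∀ n : ℕ, 0 ≤ lamz z n ∧ lamz z n ≤ L := by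
    intro n
    have h5 : 0 < (Vz z)⁻¹ := inv_pos.2 (Vz_pos z)
    unfold lamz
    split_ifs
    · exact ⟨h5.le, hV⟩
    · exact ⟨le_rfl, hL0.le⟩
  have hfac : ∀ e ∈ bx D B k, ∀ j : ℕ, ∀ i : Fin k, ∀ m ∈ Icc 1 x, |hyb z φ c e j i m| ≤ W := by
    intro e he j i m hm
    have h5 := Fintype.mem_piFinset.1 he i
    rw [mem_product] at h5
    have h6 := hsize i m hm (e i).1 h5.1 (e i).2 h5.2
    have h7 := hlam (fv φ c e i m)
    unfold hyb
    split_ifs
    · rw [abs_of_nonneg h7.1, hW]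
      nlinarith
    · have h8 : th (fv φ c e i m) = FF z (fv φ c e i m) + lamz z (fv φ c e i m) := by unfold FF; ring
      rw [h8]
      refine (abs_add_le _ _).trans ?_
      rw [abs_of_nonneg h7.1, hW]
      have h9 : |FF z (fv φ c e i m)| ≤ (K + 4) * L := h6
      linarith
  have hwgt : ∀ e ∈ bx D B k, ∀ j : Fin k, ∀ m ∈ Icc 1 x, |wgt z φ c e j m| ≤ W ^ (k - 1) := by
    intro e he j m hm
    unfold wgt
    rw [abs_prod]
    calc ∏ i ∈ univ.erase j, |hyb z φ c e j i m| ≤ ∏ i ∈ univ.erase j, W :=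
          Finset.prod_le_prod (fun _ _ => abs_nonneg _) (fun i _ => hfac e he j i m hm)
      _ = W ^ (k - 1) := by
          rw [prod_const, card_erase_of_mem (mem_univ _), card_univ, Fintype.card_fin]
  -- the bad vectors for the `j`-th member
  set G : (Fin k → ℕ × ℕ) → Fin k → Prop := fun e j => ∀ u v : ℕ, u ≤ v → v ≤ x →
      |∑ m ∈ Ioc u v, w m * (wgt z φ c e j m * FF z (fv φ c e j m))| ≤ W ^ (k - 1) * (x / L ^ U') with hG
  set BadJ : Fin k → Finset (Fin k → ℕ × ℕ) := fun j => (bx D B k).filter (fun e => ¬ G e j) with hBadJ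
  have hDB0 : (0 : ℝ) < D * B := by positivity
  have hcount : ∀ j : Fin k, (#(BadJ j) : ℝ) ≤ ((D : ℝ) * B) ^ k / L ^ U' := by
    intro j
    obtain ⟨M, hM⟩ : ∃ M : ℕ, M = ⌊(D : ℝ) * B / L ^ U'⌋₊ := ⟨_, rfl⟩
    have hM1 : (M : ℝ) ≤ D * B / L ^ U' := by rw [hM]; exact Nat.floor_le (by positivity)
    have h5 := fiber_count D B k hDn hBn j (BadJ j) (filter_subset _ _) M ?_
    · have h6 : (#(BadJ j) : ℝ) * (D * B) ≤ M * ((D : ℝ) * B) ^ k := by exact_mod_cast h5
      have h7 : (#(BadJ j) : ℝ) * (D * B) ≤ (((D : ℝ) * B) ^ k / L ^ U') * (D * B) := by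
        calc (#(BadJ j) : ℝ) * (D * B) ≤ M * ((D : ℝ) * B) ^ k := h6
          _ ≤ (D * B / L ^ U') * ((D : ℝ) * B) ^ k := mul_le_mul_of_nonneg_right hM1 (by positivity)
          _ = _ := by ring
      exact le_of_mul_le_mul_right h7 hDB0
    · intro e he
      obtain ⟨Bd, hBd1, hBd2, hBd3⟩ := b1 z hz1 hz2 D B hD1 hD2 hDB hBD (φ j) (hφ j) (c j) (hc0 j) (hc j)
        (fun m => if m ∈ Icc 1 x then w m * (wgt z φ c e j m / W ^ (k - 1)) else 0) (by
          intro m
          split_ifs with hm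
          · rw [abs_mul, abs_div, abs_of_pos (by positivity : 0 < W ^ (k - 1))]
            have h6 := hwgt e he j m hm
            have h7 : |wgt z φ c e j m| / W ^ (k - 1) ≤ 1 := by
              rw [div_le_one (by positivity)]; exact h6
            exact mul_le_one₀ (hw m) (by positivity) h7
          · rw [abs_zero]; exact zero_le_one)
      have h6 : (Icc 1 D ×ˢ Icc 1 B).filter (fun q => Function.update e j q ∈ BadJ j) ⊆ Bd := by
        intro q hq
        rw [mem_filter, mem_product] at hq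
        by_contra hcon
        have h7 := hq.2
        rw [hBadJ, mem_filter] at h7
        apply h7.2
        intro u v huv hvx
        have h8 := hBd3 q.1 hq.1.1 q.2 hq.1.2 hcon u v huv hvx
        have h9 : ∑ m ∈ Ioc u v, w m * (wgt z φ c (Function.update e j q) j m * FF z (fv φ c (Function.update e j q) j m)) =
            W ^ (k - 1) * ∑ m ∈ Ioc u v, (if m ∈ Icc 1 x then w m * (wgt z φ c e j m / W ^ (k - 1)) else 0) *
              FF z (c j + m * (φ j m + (q.1 : ℤ) * m + (q.2 : ℤ))).toNat := by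
          rw [mul_sum]
          refine sum_congr rfl fun m hm => ?_
          rw [mem_Ioc] at hm
          rw [if_pos (mem_Icc.2 ⟨by omega, by omega⟩), wgt_update]
          have h10 : fv φ c (Function.update e j q) j m = (c j + m * (φ j m + (q.1 : ℤ) * m + (q.2 : ℤ))).toNat := by
            unfold fv
            rw [Function.update_self]
          rw [h10]
          have h11 : W ^ (k - 1) ≠ 0 := by positivity
          field_simp
        rw [h9, abs_mul, abs_of_pos (by positivity : 0 < W ^ (k - 1))]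
        exact mul_le_mul_of_nonneg_left h8 (by positivity)
      have h7 : #((Icc 1 D ×ˢ Icc 1 B).filter (fun q => Function.update e j q ∈ BadJ j)) ≤ #Bd := card_le_card h6
      refine h7.trans ?_
      rw [hM]
      exact Nat.le_floor hBd2
  have hU'U : (k : ℝ) * (W ^ (k - 1) * (x / L ^ U')) ≤ x / L ^ U := by
    have e1 : (k : ℝ) * (W ^ (k - 1) * (x / L ^ U')) = (k * ((K : ℝ) + 5) ^ (k - 1)) / L * (x / L ^ U) := by
      have h5 : L ^ U' = L ^ U * (L ^ (k - 1) * L) := by
        rw [hU', pow_add, ← pow_succ, Nat.sub_add_cancel hk]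
      rw [h5, hW, mul_pow]
      have := (hLp U).ne'
      have := (hLp (k - 1)).ne'
      field_simp
    rw [e1]
    calc (k * ((K : ℝ) + 5) ^ (k - 1)) / L * (x / L ^ U) ≤ 1 * (x / L ^ U) := by
          apply mul_le_mul_of_nonneg_right _ (by positivity)
          rw [div_le_one hL0]
          linarith
      _ = _ := one_mul _
  refine ⟨univ.biUnion BadJ, ?_, ?_, ?_⟩
  · intro e he
    rw [mem_biUnion] at he
    obtain ⟨j, _, hj⟩ := he
    exact (mem_filter.1 hj).1
  · calc (#(univ.biUnion BadJ) : ℝ) ≤ ∑ j, (#(BadJ j) : ℝ) := by exact_mod_cast card_biUnion_le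
      _ ≤ ∑ _j : Fin k, ((D : ℝ) * B) ^ k / L ^ U' := sum_le_sum fun j _ => hcount j
      _ = k * (((D : ℝ) * B) ^ k / L ^ U') := by
          rw [sum_const, card_univ, Fintype.card_fin, nsmul_eq_mul]
      _ = k / L ^ k * (((D : ℝ) * B) ^ k / L ^ U) := by
          rw [hU', pow_add]
          have := (hLp U).ne'
          field_simp
      _ ≤ 1 * (((D : ℝ) * B) ^ k / L ^ U) := by
          apply mul_le_mul_of_nonneg_right _ (by positivity)
          rw [div_le_one (hLp k)]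
          have h5 : (k : ℝ) ≤ L := by
            have h6 : (1 : ℝ) ≤ ((K : ℝ) + 5) ^ (k - 1) := one_le_pow₀ (by linarith)
            have h7 : (k : ℝ) * 1 ≤ k * ((K : ℝ) + 5) ^ (k - 1) := mul_le_mul_of_nonneg_left h6 hk0
            linarith
          exact h5.trans (le_self_pow₀ hL1 (by omega))
      _ = _ := one_mul _
  · intro e he hbad u v huv hvx
    have hgood : ∀ j, G e j := by
      intro j
      by_contra hcon
      apply hbad
      rw [mem_biUnion]
      exact ⟨j, mem_univ j, mem_filter.2 ⟨he, hcon⟩⟩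
    have h5 : ∑ m ∈ Ioc u v, w m * (∏ i, th (fv φ c e i m) - ∏ i, lamz z (fv φ c e i m)) =
        ∑ j, ∑ m ∈ Ioc u v, w m * (wgt z φ c e j m * FF z (fv φ c e j m)) := by
      rw [sum_comm]
      refine sum_congr rfl fun m _ => ?_
      rw [telescope, mul_sum]
    rw [h5]
    refine (abs_sum_le_sum_abs _ _).trans ?_
    refine (sum_le_sum fun j _ => hgood j u v huv hvx).trans ?_
    rw [sum_const, card_univ, Fintype.card_fin, nsmul_eq_mul]
    exact hU'U

end Pool.Agent.Y868.TC
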