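import Mathlib

/-! The variation of `1 / log f(m)` along the integers, for a polynomial `f`. -/

set_option autoImplicit false

namespace Pool.Agent.Y868.TC

open Finset MeasureTheory
open scoped Polynomial

/-- intervals covering every point at most `d` times -/
lemma sum_len_le (S : Finset ℕ) (α β : ℕ → ℝ) (d : ℕ) (h0 : ∀ m ∈ S, α m ≤ β m)
    (h1 : ∀ m ∈ S, 0 ≤ α m ∧ β m ≤ 1) (h : ∀ t : ℝ, #(S.filter (fun m => α m < t ∧ t < β m)) ≤ d) :
    ∑ m ∈ S, (β m - α m) ≤ d := by
  classical
  have hvol : ∀ m ∈ S, ENNReal.ofReal (β m - α m) = ∫⁻ t, (Set.Ioo (α m) (β m)).indicator (fun _ => (1 : ENNReal)) t := by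
    intro m _
    rw [lintegral_indicator measurableSet_Ioo, setLIntegral_one, Real.volume_Ioo]
  have hsum : ENNReal.ofReal (∑ m ∈ S, (β m - α m)) = ∫⁻ t, ∑ m ∈ S, (Set.Ioo (α m) (β m)).indicator (fun _ => (1 : ENNReal)) t := by
    rw [ENNReal.ofReal_sum_of_nonneg (fun m hm => sub_nonneg.2 (h0 m hm)), lintegral_finsetSum]
    · exact sum_congr rfl hvol
    · intro m _
      exact measurable_const.indicator measurableSet_Ioo
  have hle : ∀ t : ℝ, ∑ m ∈ S, (Set.Ioo (α m) (β m)).indicator (fun _ => (1 : ENNReal)) t ≤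
      (Set.Icc (0 : ℝ) 1).indicator (fun _ => (d : ENNReal)) t := by
    intro t
    have e1 : ∑ m ∈ S, (Set.Ioo (α m) (β m)).indicator (fun _ => (1 : ENNReal)) t =
        (#(S.filter (fun m => α m < t ∧ t < β m)) : ENNReal) := by
      rw [card_filter]
      push_cast
      refine sum_congr rfl fun m _ => ?_
      by_cases hm : α m < t ∧ t < β m
      · rw [Set.indicator_of_mem (by exact hm), if_pos hm]
      · rw [Set.indicator_of_notMem (by exact hm), if_neg hm]
    rw [e1]
    by_cases ht : t ∈ Set.Icc (0 : ℝ) 1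
    · rw [Set.indicator_of_mem ht]
      exact_mod_cast h t
    · rw [Set.indicator_of_notMem ht]
      have : S.filter (fun m => α m < t ∧ t < β m) = ∅ := by
        rw [filter_eq_empty_iff]
        rintro m hm ⟨h2, h3⟩
        apply ht
        have := h1 m hm
        exact ⟨by linarith, by linarith⟩
      rw [this]
      simp
  have hfin : ENNReal.ofReal (∑ m ∈ S, (β m - α m)) ≤ (d : ENNReal) := by
    rw [hsum]
    refine (lintegral_mono hle).trans ?_
    rw [lintegral_indicator measurableSet_Icc, setLIntegral_const, Real.volume_Icc]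
    simp
  have h2 : 0 ≤ ∑ m ∈ S, (β m - α m) := sum_nonneg fun m hm => sub_nonneg.2 (h0 m hm)
  have h3 := ENNReal.toReal_mono (ENNReal.natCast_ne_top d) hfin
  rw [ENNReal.toReal_ofReal h2, ENNReal.toReal_natCast] at h3
  exact h3

/-- the variation of `1 / log f(m)` is at most the degree -/
theorem tv_poly (f : ℤ[X]) (u v : ℕ) (h : ∀ m ∈ Ioc u v, 3 ≤ f.eval (m : ℤ)) :
    ∑ m ∈ Ico (u + 1) v, |1 / Real.log ((f.eval ((m + 1 : ℕ) : ℤ) : ℤ) : ℝ) - 1 / Real.log ((f.eval (m : ℤ) : ℤ) : ℝ)| ≤ f.natDegree := by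
  classical
  set s : ℕ → ℝ := fun m => 1 / Real.log ((f.eval (m : ℤ) : ℤ) : ℝ) with hs
  have hval : ∀ m ∈ Ioc u v, (3 : ℝ) ≤ ((f.eval (m : ℤ) : ℤ) : ℝ) := by
    intro m hm
    exact_mod_cast h m hm
  have hlog : ∀ m ∈ Ioc u v, 1 ≤ Real.log ((f.eval (m : ℤ) : ℤ) : ℝ) := by
    intro m hm
    rw [← Real.log_exp 1]
    apply Real.log_le_log (Real.exp_pos _)
    have := Real.exp_one_lt_d9
    have := hval m hm
    linarith
  have hs1 : ∀ m ∈ Ioc u v, 0 ≤ s m ∧ s m ≤ 1 := by
    intro m hm
    have := hlog m hm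
    exact ⟨by rw [hs]; positivity, by rw [hs]; simp only; rw [div_le_one (by linarith)]; exact this⟩
  rcases Nat.eq_zero_or_pos f.natDegree with hd | hd
  · -- constant polynomials
    rw [hd]
    push_cast
    apply le_of_eq
    apply sum_eq_zero
    intro m _
    have e : f = Polynomial.C (f.coeff 0) := Polynomial.eq_C_of_natDegree_eq_zero hd
    rw [e, Polynomial.eval_C, Polynomial.eval_C, sub_self, abs_zero]
  set F : ℝ[X] := f.map (Int.castRingHom ℝ) with hF
  have hFeval : ∀ m : ℕ, F.eval (m : ℝ) = ((f.eval (m : ℤ) : ℤ) : ℝ) := by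
    intro m
    rw [hF]
    have := Polynomial.eval_intCast_map (Int.castRingHom ℝ) f (m : ℤ)
    simp
  have key := sum_len_le (Ico (u + 1) v) (fun m => min (s (m + 1)) (s m)) (fun m => max (s (m + 1)) (s m)) f.natDegree
    (fun m _ => min_le_max) (fun m hm => by
      rw [mem_Ico] at hm
      have h1 := hs1 m (mem_Ioc.2 ⟨by omega, by omega⟩)
      have h2 := hs1 (m + 1) (mem_Ioc.2 ⟨by omega, by omega⟩)
      exact ⟨le_min h2.1 h1.1, max_le h2.2 h1.2⟩) ?_
  · refine le_trans (le_of_eq ?_) key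
    refine sum_congr rfl fun m _ => ?_
    rw [max_sub_min_eq_abs']
  · intro t
    by_cases ht : ∃ m ∈ Ico (u + 1) v, min (s (m + 1)) (s m) < t ∧ t < max (s (m + 1)) (s m)
    swap
    · have h2 : (Ico (u + 1) v).filter (fun m => min (s (m + 1)) (s m) < t ∧ t < max (s (m + 1)) (s m)) = ∅ := by
        rw [filter_eq_empty_iff]
        intro m hm hmt
        exact ht ⟨m, hm, hmt⟩
      rw [h2, card_empty]
      exact Nat.zero_le _
    have ht0 : 0 < t := by
      obtain ⟨m, hm, h1, h2⟩ := ht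
      rw [mem_Ico] at hm
      have h3 := hs1 m (mem_Ioc.2 ⟨by omega, by omega⟩)
      have h4 := hs1 (m + 1) (mem_Ioc.2 ⟨by omega, by omega⟩)
      exact lt_of_le_of_lt (le_min h4.1 h3.1) h1
    set τ : ℝ := Real.exp (1 / t) with hτ
    have hτ0 : 0 < τ := Real.exp_pos _
    -- comparison
    have hlt : ∀ m ∈ Ioc u v, (s m < t ↔ τ < F.eval (m : ℝ)) ∧ (t < s m ↔ F.eval (m : ℝ) < τ) := by
      intro m hm
      have h1 := hlog m hm
      have h2 := hval m hm
      rw [hFeval]
      set y : ℝ := ((f.eval (m : ℤ) : ℤ) : ℝ) with hy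
      have hsm : s m = 1 / Real.log y := rfl
      rw [hsm, hτ]
      have hl0 : 0 < Real.log y := by linarith
      have hy0 : 0 < y := by linarith
      constructor
      · rw [← Real.lt_log_iff_exp_lt hy0, one_div_lt hl0 ht0]
      · rw [← Real.log_lt_iff_lt_exp hy0, lt_one_div ht0 hl0]
    have hne : F - Polynomial.C τ ≠ 0 := by
      intro h0
      have h1 : F = Polynomial.C τ := by linear_combination h0
      have h2 : F.natDegree = 0 := by rw [h1, Polynomial.natDegree_C]
      have h3 : F.natDegree = f.natDegree := by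
        rw [hF]
        exact Polynomial.natDegree_map_eq_of_injective Int.cast_injective f
      omega
    have hroot : ∀ m ∈ (Ico (u + 1) v).filter (fun m => min (s (m + 1)) (s m) < t ∧ t < max (s (m + 1)) (s m)),
        ∃ y : ℝ, (m : ℝ) < y ∧ y < (m : ℝ) + 1 ∧ y ∈ (F - Polynomial.C τ).roots.toFinset := by
      intro m hm
      rw [mem_filter, mem_Ico] at hm
      obtain ⟨hm1, hm2, hm3⟩ := hm
      have h1 := hlt m (mem_Ioc.2 ⟨by omega, by omega⟩)
      have h2 := hlt (m + 1) (mem_Ioc.2 ⟨by omega, by omega⟩)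
      have hcont : ContinuousOn (fun y : ℝ => F.eval y) (Set.Icc (m : ℝ) ((m : ℝ) + 1)) := F.continuous.continuousOn
      have hmem : ∃ y ∈ Set.Ioo (m : ℝ) ((m : ℝ) + 1), F.eval y = τ := by
        rw [min_lt_iff] at hm2
        rw [lt_max_iff] at hm3
        rcases hm2 with ha | ha
        · have hb : t < s m := by
            rcases hm3 with hb | hb
            · linarith
            · exact hb
          have g1 := h1.2.1 hb
          have g2 := h2.1.1 ha
          push_cast at g2
          have h3 := intermediate_value_Ioo (by linarith : (m : ℝ) ≤ m + 1) hcont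
          obtain ⟨y, hy1, hy2⟩ := h3 ⟨g1, g2⟩
          exact ⟨y, hy1, hy2⟩
        · have hb : t < s (m + 1) := by
            rcases hm3 with hb | hb
            · exact hb
            · linarith
          have g1 := h1.1.1 ha
          have g2 := h2.2.1 hb
          push_cast at g2
          have h3 := intermediate_value_Ioo' (by linarith : (m : ℝ) ≤ m + 1) hcont
          obtain ⟨y, hy1, hy2⟩ := h3 ⟨g2, g1⟩
          exact ⟨y, hy1, hy2⟩
      obtain ⟨y, hy, hyτ⟩ := hmem
      refine ⟨y, hy.1, hy.2, ?_⟩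
      rw [Multiset.mem_toFinset, Polynomial.mem_roots hne, Polynomial.IsRoot.def, Polynomial.eval_sub, Polynomial.eval_C, hyτ, sub_self]
    choose! y hy1 hy2 hy3 using hroot
    have hcard : #((Ico (u + 1) v).filter (fun m => min (s (m + 1)) (s m) < t ∧ t < max (s (m + 1)) (s m))) ≤
        #((F - Polynomial.C τ).roots.toFinset) := by
      apply card_le_card_of_injOn y
      · intro m hm
        exact hy3 m hm
      · intro m hm m' hm' hyy
        have a1 := hy1 m hm
        have a2 := hy2 m hm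
        have a3 := hy1 m' hm'
        have a4 := hy2 m' hm'
        rw [hyy] at a1 a2
        have g1 : (m : ℝ) < m' + 1 := by linarith
        have g2 : (m' : ℝ) < m + 1 := by linarith
        have g3 : m < m' + 1 := by exact_mod_cast g1
        have g4 : m' < m + 1 := by exact_mod_cast g2
        omega
    refine hcard.trans ((Multiset.toFinset_card_le _).trans ?_)
    refine (Polynomial.card_roots' _).trans ?_
    have h3 : (F - Polynomial.C τ).natDegree ≤ F.natDegree := le_of_eq Polynomial.natDegree_sub_C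
    have h4 : F.natDegree = f.natDegree := by
      rw [hF]
      exact Polynomial.natDegree_map_eq_of_injective Int.cast_injective f
    omega

/-- the variation of a product -/
theorem tv_prod {k : ℕ} (w : Fin k → ℕ → ℝ) (u v : ℕ) (h : ∀ i, ∀ m ∈ Ioc u v, |w i m| ≤ 1) :
    ∑ m ∈ Ico (u + 1) v, |∏ i, w i (m + 1) - ∏ i, w i m| ≤ ∑ i, ∑ m ∈ Ico (u + 1) v, |w i (m + 1) - w i m| := by
  rw [sum_comm]
  refine sum_le_sum fun m hm => ?_
  rw [mem_Ico] at hm
  have h1 : ∀ i, |w i m| ≤ 1 := fun i => h i m (mem_Ioc.2 ⟨by omega, by omega⟩)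
  have h2 : ∀ i, |w i (m + 1)| ≤ 1 := fun i => h i (m + 1) (mem_Ioc.2 ⟨by omega, by omega⟩)
  have gen : ∀ (s : Finset (Fin k)), |∏ i ∈ s, w i (m + 1) - ∏ i ∈ s, w i m| ≤ ∑ i ∈ s, |w i (m + 1) - w i m| := by
    intro s
    induction s using Finset.induction_on with
    | empty => simp
    | insert j s hj ih =>
      rw [prod_insert hj, prod_insert hj, sum_insert hj]
      have e : w j (m + 1) * ∏ i ∈ s, w i (m + 1) - w j m * ∏ i ∈ s, w i m =
          (w j (m + 1) - w j m) * ∏ i ∈ s, w i (m + 1) + w j m * (∏ i ∈ s, w i (m + 1) - ∏ i ∈ s, w i m) := by ring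
      rw [e]
      refine (abs_add_le _ _).trans ?_
      rw [abs_mul, abs_mul]
      have h3 : |∏ i ∈ s, w i (m + 1)| ≤ 1 := by
        rw [abs_prod]
        exact prod_le_one (fun _ _ => abs_nonneg _) (fun i _ => h2 i)
      have h4 := mul_le_mul_of_nonneg_left h3 (abs_nonneg (w j (m + 1) - w j m))
      have h5 := mul_le_mul (h1 j) ih (abs_nonneg _) zero_le_one
      linarith
  exact gen univ

/-- partial summation -/
theorem abel_tv (w b : ℕ → ℝ) (u v : ℕ) (huv : u < v) (R T : ℝ)
    (hw : |w v| ≤ 1) (hb : ∀ n, u ≤ n → n ≤ v → |∑ i ∈ Ioc u n, b i| ≤ R)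
    (hT : ∑ m ∈ Ico (u + 1) v, |w (m + 1) - w m| ≤ T) :
    |∑ i ∈ Ioc u v, w i * b i| ≤ R * (1 + T) := by
  have hR : 0 ≤ R := (abs_nonneg _).trans (hb u le_rfl huv.le)
  have key : ∀ n, u + 1 ≤ n → n ≤ v → ∑ i ∈ Ioc u n, w i * b i =
      w n * ∑ i ∈ Ioc u n, b i - ∑ m ∈ Ico (u + 1) n, (w (m + 1) - w m) * ∑ i ∈ Ioc u m, b i := by
    intro n hn
    induction n, hn using Nat.le_induction with
    | base =>
      intro _
      rw [Nat.Ioc_succ_singleton, sum_singleton, sum_singleton, Ico_self, sum_empty, sub_zero]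
    | succ n hn ih =>
      intro hnv
      rw [sum_Ioc_succ_top (by omega), ih (by omega), sum_Ico_succ_top hn, sum_Ioc_succ_top (by omega)]
      ring
  rw [key v huv le_rfl]
  refine (abs_sub _ _).trans ?_
  have h1 : |w v * ∑ i ∈ Ioc u v, b i| ≤ R := by
    rw [abs_mul]
    calc |w v| * |∑ i ∈ Ioc u v, b i| ≤ 1 * R := mul_le_mul hw (hb v huv.le le_rfl) (abs_nonneg _) zero_le_one
      _ = R := one_mul R
  have h2 : |∑ m ∈ Ico (u + 1) v, (w (m + 1) - w m) * ∑ i ∈ Ioc u m, b i| ≤ R * T := by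
    refine (abs_sum_le_sum_abs _ _).trans ?_
    calc ∑ m ∈ Ico (u + 1) v, |(w (m + 1) - w m) * ∑ i ∈ Ioc u m, b i| ≤ ∑ m ∈ Ico (u + 1) v, |w (m + 1) - w m| * R := by
          refine sum_le_sum fun m hm => ?_
          rw [mem_Ico] at hm
          rw [abs_mul]
          exact mul_le_mul_of_nonneg_left (hb m (by omega) (by omega)) (abs_nonneg _)
      _ = (∑ m ∈ Ico (u + 1) v, |w (m + 1) - w m|) * R := by rw [sum_mul]
      _ ≤ T * R := mul_le_mul_of_nonneg_right hT hR
      _ = R * T := mul_comm _ _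
  linarith

end Pool.Agent.Y868.TC
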