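import Pool.Agent.Y868.TC.S1
import Pool.Agent.Y868.TC.V1

/-! Systems of polynomials: evaluation of the model. -/

set_option autoImplicit false

namespace Pool.Agent.Y868.TC

open Finset Filter
open Polynomial (X C)
open scoped Polynomial
open Pool.Agent.H373R2.T7 (pz Vz lamz mem_pz Vz_inv_small ev_L' Vz_inv_le Vz_pos)
open Pool.Agent.TH204.WR (rho hh vN model rho_le hh_nonneg prod_le_one' prod_nonneg' V_low)
open Pool.Agent.Y868.TA

lemma hh_le (F : ℤ[X]) (t : ℤ) (z : ℕ) : hh F t z ≤ (Vz z)⁻¹ := by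
  unfold hh
  have h1 := prod_le_one' F t z
  have h2 : 0 < (Vz z)⁻¹ := inv_pos.2 (Vz_pos z)
  calc _ ≤ (Vz z)⁻¹ * 1 := mul_le_mul_of_nonneg_left h1 h2.le
    _ = _ := mul_one _

/-- the model on a window, for any polynomial -/
theorem model_gen (d U E : ℕ) (hd : 1 ≤ d) : ∃ x0 z0 : ℕ, ∀ x : ℕ, x0 ≤ x → ∀ z : ℕ, z0 ≤ z → 2 ≤ z → (z : ℝ) ≤ Real.log x ^ E →
    ∀ (F : ℤ[X]) (t : ℤ), F.natDegree ≤ d → ∀ u v : ℕ, u ≤ v → v ≤ x →
    |∑ m ∈ Ioc u v, lamz z (vN F t m) - ((v : ℝ) - u) * hh F t z| ≤ x / Real.log x ^ U := by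
  obtain ⟨C1, y0, hC1, hy0, hmod⟩ := model d hd
  obtain ⟨x1, hpb⟩ := pickb C1 E U
  obtain ⟨x2, hv⟩ := Vz_inv_small E
  refine ⟨max (max x1 x2) 1, y0, fun x hx z hzy hz2 hzE F t hF u v huv hvx => ?_⟩
  have hx1 : x1 ≤ x := le_trans (le_trans (le_max_left _ _) (le_max_left _ _)) hx
  have hx2 : x2 ≤ x := le_trans (le_trans (le_max_right _ _) (le_max_left _ _)) hx
  have hx1' : 1 ≤ x := le_trans (le_max_right _ _) hx
  have hx0 : (0 : ℝ) < x := by exact_mod_cast hx1'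
  obtain ⟨b', hb1, hb2, hb3⟩ := hpb x hx1
  have hVz := hv x hx2 z (by omega) hzE
  have hL0 : 0 < Real.log x := (inv_pos.2 (Vz_pos z)).trans_le hVz
  have hdens0 := hh_nonneg F t z (by omega)
  have hdens := (hh_le F t z).trans hVz
  by_cases hrho : ∀ p ∈ pz z, rho F t p < p
  · have h2 := hmod F t hF b' hb1 z hzy hrho u v huv
    rw [sum_sub_distrib, sum_const, Nat.card_Ioc, nsmul_eq_mul, Nat.cast_sub huv] at h2
    refine h2.trans ?_
    have h3 : (v : ℝ) - u ≤ x := by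
      have h4 : (v : ℝ) ≤ x := by exact_mod_cast hvx
      have h5 : (0 : ℝ) ≤ u := Nat.cast_nonneg _
      linarith
    have h3' : 0 ≤ (v : ℝ) - u := by
      have : (u : ℝ) ≤ v := by exact_mod_cast huv
      linarith
    have h6 : 2 * (1 / 2 : ℝ) ^ b' * hh F t z * ((v : ℝ) - u) ≤ 2 * (1 / 2 : ℝ) ^ b' * Real.log x * x := by gcongr
    have h7 : 3 * (z : ℝ) ^ (C1 * b') * hh F t z ≤ 3 * (z : ℝ) ^ (C1 * b') * Real.log x := by gcongr
    have h8 := hb3 z (by omega) hzE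
    have h9 : (x : ℝ) / (2 * Real.log x ^ U) + x / (2 * Real.log x ^ U) = x / Real.log x ^ U := by
      field_simp; ring
    linarith
  · push Not at hrho
    obtain ⟨p, hp, hpr⟩ := hrho
    have hpp := (mem_pz.1 hp).2
    have hre : rho F t p = p := le_antisymm (rho_le _ _ _) hpr
    have h2 : hh F t z = 0 := by
      unfold hh
      have h3 : ∏ p ∈ pz z, (1 - (rho F t p : ℝ) / p) = 0 := by
        apply prod_eq_zero hp
        rw [hre, div_self (by exact_mod_cast hpp.ne_zero), sub_self]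
      rw [h3, mul_zero]
    have hall : ∀ m : ℕ, (p : ℤ) ∣ F.eval (m : ℤ) + t := by
      intro m
      have h3 : (range p).filter (fun a' : ℕ => (p : ℤ) ∣ F.eval (a' : ℤ) + t) = range p := by
        apply eq_of_subset_of_card_le (filter_subset _ _)
        rw [card_range]
        exact hpr
      have h4 : m % p ∈ (range p).filter (fun a' : ℕ => (p : ℤ) ∣ F.eval (a' : ℤ) + t) := by
        rw [h3, mem_range]; exact Nat.mod_lt _ hpp.pos
      have h5 := (mem_filter.1 h4).2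
      have h6 : ((m : ℤ) - ((m % p : ℕ) : ℤ)) ∣ F.eval (m : ℤ) - F.eval ((m % p : ℕ) : ℤ) :=
        Polynomial.sub_dvd_eval_sub _ _ _
      have h7 : (p : ℤ) ∣ (m : ℤ) - ((m % p : ℕ) : ℤ) := by
        have := Nat.div_add_mod m p
        refine ⟨((m / p : ℕ) : ℤ), ?_⟩
        have h8 : ((p * (m / p) + m % p : ℕ) : ℤ) = m := by exact_mod_cast this
        push_cast at h8 ⊢
        linarith
      have h8 := dvd_add (h7.trans h6) h5
      have e : F.eval (m : ℤ) - F.eval ((m % p : ℕ) : ℤ) + (F.eval ((m % p : ℕ) : ℤ) + t) =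
          F.eval (m : ℤ) + t := by ring
      rwa [e] at h8
    have h3 : ∑ m ∈ Ioc u v, lamz z (vN F t m) = 0 := by
      apply sum_eq_zero
      intro m _
      unfold lamz
      rw [if_neg]
      intro h
      apply h p hp
      have h4 := hall m
      unfold vN
      exact Int.natCast_dvd.1 h4
    rw [h2, h3, mul_zero, sub_zero, abs_zero]
    positivity

/-- a product of models -/
lemma lamz_prod (z : ℕ) {k : ℕ} (hk : 1 ≤ k) (n : Fin k → ℕ) :
    ∏ i, lamz z (n i) = (Vz z)⁻¹ ^ (k - 1) * lamz z (∏ i, n i) := by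
  classical
  by_cases h : ∀ p ∈ pz z, ¬ p ∣ ∏ i, n i
  · have h1 : ∀ i, lamz z (n i) = (Vz z)⁻¹ := by
      intro i
      unfold lamz
      rw [if_pos]
      intro p hp hd
      exact h p hp (hd.trans (dvd_prod_of_mem n (mem_univ i)))
    simp_rw [h1]
    rw [prod_const, card_univ, Fintype.card_fin]
    unfold lamz
    rw [if_pos h, ← pow_succ, Nat.sub_add_cancel hk]
  · have h2 : lamz z (∏ i, n i) = 0 := by unfold lamz; rw [if_neg h]
    rw [h2, mul_zero]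
    push Not at h
    obtain ⟨p, hp, hd⟩ := h
    have hpp := (mem_pz.1 hp).2
    obtain ⟨i, _, hi⟩ := (Prime.dvd_finset_prod_iff hpp.prime _).1 hd
    apply prod_eq_zero (mem_univ i)
    unfold lamz
    rw [if_neg]
    intro h3
    exact h3 p hp hi

/-- the members of the system -/
noncomputable def mem1 {k : ℕ} (P : Fin k → ℤ[X]) (c : Fin k → ℤ) (e : Fin k → ℕ × ℕ) (i : Fin k) : ℤ[X] :=
  X * (P i + C ((e i).1 : ℤ) * X + C ((e i).2 : ℤ)) + C (c i)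

lemma mem1_eval {k : ℕ} (P : Fin k → ℤ[X]) (c : Fin k → ℤ) (e : Fin k → ℕ × ℕ) (i : Fin k) (m : ℤ) :
    (mem1 P c e i).eval m = c i + m * ((P i).eval m + ((e i).1 : ℤ) * m + ((e i).2 : ℤ)) := by
  unfold mem1; simp; ring

lemma mem1_deg {k d : ℕ} (hd : 2 ≤ d) (P : Fin k → ℤ[X]) (hP : ∀ i, (P i).natDegree + 1 ≤ d) (c : Fin k → ℤ) (e : Fin k → ℕ × ℕ)
    (i : Fin k) : (mem1 P c e i).natDegree ≤ d := by
  have h1 := pol_deg (P i) ((e i).1 : ℤ) ((e i).2 : ℤ) d hd (hP i)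
  have h2 : mem1 P c e i = pol (P i) ((e i).1 : ℤ) ((e i).2 : ℤ) + C (c i) := by
    unfold mem1 pol; rfl
  rw [h2]
  refine (Polynomial.natDegree_add_le _ _).trans (max_le h1 ?_)
  rw [Polynomial.natDegree_C]; omega

/-- the truncated constant -/
noncomputable def dsys (z : ℕ) {k : ℕ} (f : Fin k → ℤ[X]) : ℝ := (Vz z)⁻¹ ^ (k - 1) * hh (∏ i, f i) 0 z

/-- **Systems of polynomials: primes with weights.** -/
theorem sys_theta (k d U K : ℕ) (hk : 1 ≤ k) (hd : 2 ≤ d) : ∃ C0 E1 : ℕ, ∀ E : ℕ, ∃ x0 : ℕ, ∀ x : ℕ, x0 ≤ x → ∀ z : ℕ,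
    Real.log x ^ E1 ≤ z → (z : ℝ) ≤ Real.log x ^ E → ∀ D B : ℕ, Real.log x ^ C0 ≤ D → (D : ℝ) ≤ (x : ℝ) ^ K →
    (D : ℝ) * x ≤ B * Real.log x ^ K → (B : ℝ) ≤ D * x * Real.log x ^ K →
    ∀ P : Fin k → ℤ[X], (∀ i, (P i).natDegree + 1 ≤ d) →
    (∀ i, ∀ m ∈ Icc 1 x, ((|(P i).eval (m : ℤ)| : ℤ) : ℝ) ≤ B * Real.log x ^ K) →
    ∀ c : Fin k → ℤ, (∀ i, c i ≠ 0) → (∀ i, ((|c i| : ℤ) : ℝ) ≤ B * x * Real.log x ^ K) →
    ∃ Bad ⊆ bx D B k, (#Bad : ℝ) ≤ ((D : ℝ) * B) ^ k / Real.log x ^ U ∧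
      ∀ e ∈ bx D B k, e ∉ Bad → ∀ u v : ℕ, u ≤ v → v ≤ x → (∀ i, ∀ m ∈ Ioc u v, 0 ≤ (mem1 P c e i).eval (m : ℤ)) →
        |∑ m ∈ Ioc u v, (∏ i, th ((mem1 P c e i).eval (m : ℤ)).toNat - dsys z (mem1 P c e))| ≤ x / Real.log x ^ U := by
  classical
  obtain ⟨C0, E1, hw⟩ := sys_windows k (U + 1) K hk
  refine ⟨C0, E1 + 1, fun E => ?_⟩
  obtain ⟨x1, h1⟩ := hw E
  obtain ⟨x2, z0, h2⟩ := model_gen (k * d) (U + k) E (by nlinarith)
  obtain ⟨x3, h3⟩ := Vz_inv_small E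
  obtain ⟨x4, h4⟩ := ev_L' (max (4 : ℝ) z0)
  refine ⟨max (max x1 x2) (max x3 x4), fun x hx z hz1 hz2 D B hD1 hD2 hDB hBD P hP hPB c hc0 hc => ?_⟩
  have b1 := h1 x (le_trans (le_trans (le_max_left _ _) (le_max_left _ _)) hx)
  have b2 := h2 x (le_trans (le_trans (le_max_right _ _) (le_max_left _ _)) hx)
  have b3 := h3 x (le_trans (le_trans (le_max_left _ _) (le_max_right _ _)) hx)
  have b4 := h4 x (le_trans (le_trans (le_max_right _ _) (le_max_right _ _)) hx)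
  set L := Real.log x with hL
  have hL4 : 4 ≤ L := (le_max_left _ _).trans b4
  have hLz : (z0 : ℝ) ≤ L := (le_max_right _ _).trans b4
  have hL1 : 1 ≤ L := by linarith
  have hL0 : 0 < L := by linarith
  have hLp : ∀ n : ℕ, 0 < L ^ n := fun n => by positivity
  have hLE : L ≤ L ^ (E1 + 1) := le_self_pow₀ hL1 (by omega)
  have hzz : z0 ≤ z := by
    have : (z0 : ℝ) ≤ z := hLz.trans (hLE.trans hz1)
    exact_mod_cast this
  have hz2' : 2 ≤ z := by
    have : (2 : ℝ) ≤ z := by linarith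
    exact_mod_cast this
  have hV := b3 z (by omega) hz2
  have hV0 : 0 < (Vz z)⁻¹ := inv_pos.2 (Vz_pos z)
  obtain ⟨Bad, hB1, hB2, hB3⟩ := b1 z ((pow_le_pow_right₀ hL1 (by omega)).trans hz1) hz2 D B hD1 hD2 hDB hBD
    (fun i m => (P i).eval (m : ℤ)) hPB c hc0 hc (fun _ => 1) (fun _ => by rw [abs_one])
  have hUU : ∀ y : ℝ, 0 ≤ y → y / L ^ (U + 1) ≤ (1 / 4) * (y / L ^ U) := by
    intro y hy
    have h3 : y / L ^ (U + 1) = (1 / L) * (y / L ^ U) := by rw [pow_succ]; field_simp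
    rw [h3]
    apply mul_le_mul_of_nonneg_right _ (by positivity)
    exact one_div_le_one_div_of_le (by norm_num) hL4
  refine ⟨Bad, hB1, ?_, fun e he hbad u v huv hvx hpos => ?_⟩
  · refine hB2.trans ((hUU _ (by positivity)).trans ?_)
    have : 0 ≤ ((D : ℝ) * B) ^ k / L ^ U := by positivity
    linarith
  · have g1 := hB3 e he hbad u v huv hvx
    have hdeg : (∏ i, mem1 P c e i).natDegree ≤ k * d := by
      refine (Polynomial.natDegree_prod_le _ _).trans ?_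
      calc ∑ i, (mem1 P c e i).natDegree ≤ ∑ _i : Fin k, d := sum_le_sum fun i _ => mem1_deg hd P hP c e i
        _ = k * d := by rw [sum_const, card_univ, Fintype.card_fin, smul_eq_mul]
    have g2 := b2 z hzz hz2' hz2 (∏ i, mem1 P c e i) 0 hdeg u v huv hvx
    have hfv : ∀ i m, fv (fun i m => (P i).eval (m : ℤ)) c e i m = ((mem1 P c e i).eval (m : ℤ)).toNat := by
      intro i m
      rw [mem1_eval]
      rfl
    have hmod : ∀ m ∈ Ioc u v, ∏ i, lamz z (fv (fun i m => (P i).eval (m : ℤ)) c e i m) =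
        (Vz z)⁻¹ ^ (k - 1) * lamz z (vN (∏ i, mem1 P c e i) 0 m) := by
      intro m hm
      rw [lamz_prod z hk]
      congr 2
      unfold vN
      rw [add_zero, Polynomial.eval_prod, ← Int.natAbsHom_apply, map_prod]
      refine prod_congr rfl fun i _ => ?_
      rw [hfv, Int.natAbsHom_apply]
      have := hpos i m hm
      omega
    have e1 : ∑ m ∈ Ioc u v, (∏ i, th ((mem1 P c e i).eval (m : ℤ)).toNat - dsys z (mem1 P c e)) =
        ∑ m ∈ Ioc u v, 1 * (∏ i, th (fv (fun i m => (P i).eval (m : ℤ)) c e i m) -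
          ∏ i, lamz z (fv (fun i m => (P i).eval (m : ℤ)) c e i m)) +
        (Vz z)⁻¹ ^ (k - 1) * (∑ m ∈ Ioc u v, lamz z (vN (∏ i, mem1 P c e i) 0 m) - ((v : ℝ) - u) * hh (∏ i, mem1 P c e i) 0 z) := by
      rw [mul_sub, mul_sum]
      have h5 : ∑ m ∈ Ioc u v, (Vz z)⁻¹ ^ (k - 1) * lamz z (vN (∏ i, mem1 P c e i) 0 m) =
          ∑ m ∈ Ioc u v, ∏ i, lamz z (fv (fun i m => (P i).eval (m : ℤ)) c e i m) :=
        sum_congr rfl fun m hm => (hmod m hm).symm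
      rw [h5]
      simp only [one_mul, sum_sub_distrib, hfv]
      rw [sum_const, Nat.card_Ioc, nsmul_eq_mul, Nat.cast_sub huv]
      unfold dsys
      ring
    rw [e1]
    refine (abs_add_le _ _).trans ?_
    have h5 : |(Vz z)⁻¹ ^ (k - 1) * (∑ m ∈ Ioc u v, lamz z (vN (∏ i, mem1 P c e i) 0 m) - ((v : ℝ) - u) * hh (∏ i, mem1 P c e i) 0 z)| ≤
        (1 / 4) * (x / L ^ U) := by
      rw [abs_mul, abs_of_pos (by positivity : 0 < (Vz z)⁻¹ ^ (k - 1))]
      calc (Vz z)⁻¹ ^ (k - 1) * |∑ m ∈ Ioc u v, lamz z (vN (∏ i, mem1 P c e i) 0 m) - ((v : ℝ) - u) * hh (∏ i, mem1 P c e i) 0 z|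
          ≤ L ^ (k - 1) * (x / L ^ (U + k)) :=
            mul_le_mul (pow_le_pow_left₀ hV0.le hV _) g2 (abs_nonneg _) (hLp _).le
        _ = (1 / L) * (x / L ^ U) := by
            have h6 : L ^ (U + k) = L ^ U * (L ^ (k - 1) * L) := by
              rw [pow_add, ← pow_succ, Nat.sub_add_cancel hk]
            rw [h6]
            have := (hLp (k - 1)).ne'
            field_simp
        _ ≤ (1 / 4) * (x / L ^ U) := by
            apply mul_le_mul_of_nonneg_right _ (by positivity)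
            exact one_div_le_one_div_of_le (by norm_num) hL4
    have h6 := hUU x (Nat.cast_nonneg _)
    have h7 : 0 ≤ (x : ℝ) / L ^ U := by positivity
    linarith

/-- lower bound for the truncated constant -/
lemma dsys_low (z k d : ℕ) (hk : 1 ≤ k) (hd : 1 ≤ d) (f : Fin k → ℤ[X]) (hf : ∀ i, (f i).natDegree ≤ d)
    (h : ∀ p ∈ pz z, rho (∏ i, f i) 0 p < p) (V : ℝ) (hV : (Vz z)⁻¹ ≤ V) (hV1 : 1 ≤ V) :
    1 / ((2 * (k * d : ℕ)) ^ (2 * (k * d)) * V ^ (2 * (k * d))) ≤ dsys z f := by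
  have hV0 := Vz_pos z
  have hVi : 0 < (Vz z)⁻¹ := inv_pos.2 hV0
  have hdeg : (∏ i, f i).natDegree ≤ k * d := by
    refine (Polynomial.natDegree_prod_le _ _).trans ?_
    calc ∑ i, (f i).natDegree ≤ ∑ _i : Fin k, d := sum_le_sum fun i _ => hf i
      _ = k * d := by rw [sum_const, card_univ, Fintype.card_fin, smul_eq_mul]
  have hkd : 1 ≤ k * d := by nlinarith
  have h1 := V_low (∏ i, f i) 0 z (k * d) hkd hdeg h
  have hVz1 : (1 : ℝ) ≤ (Vz z)⁻¹ := by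
    rw [one_le_inv₀ hV0]
    unfold Vz
    apply prod_le_one
    · intro p hp
      have hp2 : (2 : ℝ) ≤ p := by exact_mod_cast (mem_pz.1 hp).2.two_le
      rw [sub_nonneg, div_le_one (by linarith)]; linarith
    · intro p _
      have : (0 : ℝ) ≤ 1 / (p : ℝ) := by positivity
      linarith
  have hkd0 : (0 : ℝ) < 2 * ((k * d : ℕ) : ℝ) := by
    have : (1 : ℝ) ≤ ((k * d : ℕ) : ℝ) := by exact_mod_cast hkd
    linarith
  unfold dsys hh
  have h2 : 1 / ((2 * ((k * d : ℕ) : ℝ)) ^ (2 * (k * d)) * V ^ (2 * (k * d))) ≤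
      (1 / (2 * ((k * d : ℕ) : ℝ))) ^ (2 * (k * d)) * Vz z ^ (2 * (k * d)) := by
    rw [one_div_pow, one_div_mul_eq_div, div_le_div_iff₀ (by positivity) (by positivity), one_mul]
    have h3 : 1 ≤ Vz z ^ (2 * (k * d)) * V ^ (2 * (k * d)) := by
      rw [← mul_pow]
      apply one_le_pow₀
      have := mul_le_mul_of_nonneg_left hV hV0.le
      rwa [mul_inv_cancel₀ hV0.ne'] at this
    calc (2 * ((k * d : ℕ) : ℝ)) ^ (2 * (k * d)) = 1 * (2 * ((k * d : ℕ) : ℝ)) ^ (2 * (k * d)) := (one_mul _).symm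
      _ ≤ (Vz z ^ (2 * (k * d)) * V ^ (2 * (k * d))) * (2 * ((k * d : ℕ) : ℝ)) ^ (2 * (k * d)) :=
          mul_le_mul_of_nonneg_right h3 (by positivity)
      _ = _ := by ring
  refine h2.trans (h1.trans ?_)
  have h3 : (0 : ℝ) ≤ ∏ p ∈ pz z, (1 - (rho (∏ i, f i) 0 p : ℝ) / p) := prod_nonneg' _ _ _
  have h4 : (1 : ℝ) ≤ (Vz z)⁻¹ ^ (k - 1) := one_le_pow₀ hVz1
  calc ∏ p ∈ pz z, (1 - (rho (∏ i, f i) 0 p : ℝ) / p) = 1 * (1 * ∏ p ∈ pz z, (1 - (rho (∏ i, f i) 0 p : ℝ) / p)) := by ring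
    _ ≤ (Vz z)⁻¹ ^ (k - 1) * ((Vz z)⁻¹ * ∏ p ∈ pz z, (1 - (rho (∏ i, f i) 0 p : ℝ) / p)) := by
        apply mul_le_mul h4 (mul_le_mul_of_nonneg_right hVz1 h3) (by linarith) (by positivity)

end Pool.Agent.Y868.TC
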