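import Pool.Agent.Y868.TC.S2

/-! Systems of polynomials: the number of simultaneous prime values. -/

set_option autoImplicit false

namespace Pool.Agent.Y868.TC

open Finset Filter
open Polynomial (X C)
open scoped Polynomial
open Pool.Agent.H373R2.T7 (pz Vz lamz mem_pz Vz_inv_small ev_L' Vz_inv_le Vz_pos)
open Pool.Agent.TH204.WR (rho hh vN model rho_le hh_nonneg prod_le_one' prod_nonneg' V_low)
open Pool.Agent.Y868.TA

/-- the number of `m` in `T` for which all values are primes -/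
noncomputable def cnt {k : ℕ} (f : Fin k → ℤ[X]) (T : Finset ℕ) : ℕ :=
  #(T.filter (fun m : ℕ => ∀ i, ((f i).eval (m : ℤ)).toNat.Prime))

/-- the logarithmic weight -/
noncomputable def lw {k : ℕ} (f : Fin k → ℤ[X]) (m : ℕ) : ℝ := ∏ i, 1 / Real.log (((f i).eval (m : ℤ) : ℤ) : ℝ)

lemma th_lw {k : ℕ} (f : Fin k → ℤ[X]) (m : ℕ) (h : ∀ i, 3 ≤ (f i).eval (m : ℤ)) :
    lw f m * ∏ i, th ((f i).eval (m : ℤ)).toNat = if (∀ i, ((f i).eval (m : ℤ)).toNat.Prime) then 1 else 0 := by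
  unfold lw
  rw [← prod_mul_distrib]
  have h1 : ∀ i, 1 / Real.log (((f i).eval (m : ℤ) : ℤ) : ℝ) * th ((f i).eval (m : ℤ)).toNat =
      if ((f i).eval (m : ℤ)).toNat.Prime then 1 else 0 := by
    intro i
    have h2 : ((((f i).eval (m : ℤ)).toNat : ℕ) : ℝ) = (((f i).eval (m : ℤ) : ℤ) : ℝ) := by
      have : ((((f i).eval (m : ℤ)).toNat : ℕ) : ℤ) = (f i).eval (m : ℤ) := Int.toNat_of_nonneg (by have := h i; omega)
      exact_mod_cast congrArg (fun t : ℤ => (t : ℝ)) this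
    have h3 : (3 : ℝ) ≤ (((f i).eval (m : ℤ) : ℤ) : ℝ) := by exact_mod_cast h i
    have h4 : 0 < Real.log (((f i).eval (m : ℤ) : ℤ) : ℝ) := Real.log_pos (by linarith)
    unfold th
    split_ifs
    · rw [h2, one_div_mul_cancel h4.ne']
    · rw [mul_zero]
  simp_rw [h1]
  by_cases h5 : ∀ i, ((f i).eval (m : ℤ)).toNat.Prime
  · rw [if_pos h5]
    exact prod_eq_one fun i _ => if_pos (h5 i)
  · rw [if_neg h5]
    push Not at h5
    obtain ⟨i, hi⟩ := h5
    exact prod_eq_zero (mem_univ i) (if_neg hi)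

lemma lw_abs {k : ℕ} (f : Fin k → ℤ[X]) (m : ℕ) (h : ∀ i, 3 ≤ (f i).eval (m : ℤ)) : |lw f m| ≤ 1 ∧ 0 ≤ lw f m := by
  have h1 : ∀ i, 0 ≤ 1 / Real.log (((f i).eval (m : ℤ) : ℤ) : ℝ) ∧ 1 / Real.log (((f i).eval (m : ℤ) : ℤ) : ℝ) ≤ 1 := by
    intro i
    have h3 : (3 : ℝ) ≤ (((f i).eval (m : ℤ) : ℤ) : ℝ) := by exact_mod_cast h i
    have h4 : 1 ≤ Real.log (((f i).eval (m : ℤ) : ℤ) : ℝ) := by
      rw [← Real.log_exp 1]
      apply Real.log_le_log (Real.exp_pos _)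
      have := Real.exp_one_lt_d9
      linarith
    exact ⟨by positivity, by rw [div_le_one (by linarith)]; exact h4⟩
  have h2 : 0 ≤ lw f m := prod_nonneg fun i _ => (h1 i).1
  refine ⟨?_, h2⟩
  rw [abs_of_nonneg h2]
  exact prod_le_one (fun i _ => (h1 i).1) (fun i _ => (h1 i).2)

lemma lw_tv {k d : ℕ} (f : Fin k → ℤ[X]) (hf : ∀ i, (f i).natDegree ≤ d) (u v : ℕ) (h : ∀ i, ∀ m ∈ Ioc u v, 3 ≤ (f i).eval (m : ℤ)) :
    ∑ m ∈ Ico (u + 1) v, |lw f (m + 1) - lw f m| ≤ k * d := by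
  have h1 : ∀ i, ∀ m ∈ Ioc u v, |1 / Real.log (((f i).eval (m : ℤ) : ℤ) : ℝ)| ≤ 1 := by
    intro i m hm
    have h3 : (3 : ℝ) ≤ (((f i).eval (m : ℤ) : ℤ) : ℝ) := by exact_mod_cast h i m hm
    have h4 : 1 ≤ Real.log (((f i).eval (m : ℤ) : ℤ) : ℝ) := by
      rw [← Real.log_exp 1]
      apply Real.log_le_log (Real.exp_pos _)
      have := Real.exp_one_lt_d9
      linarith
    rw [abs_of_nonneg (by positivity), div_le_one (by linarith)]
    exact h4
  have h2 := tv_prod (fun (i : Fin k) (m : ℕ) => 1 / Real.log (((f i).eval (m : ℤ) : ℤ) : ℝ)) u v h1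
  refine h2.trans ?_
  calc _ ≤ ∑ i : Fin k, ((f i).natDegree : ℝ) := sum_le_sum fun i _ => tv_poly (f i) u v (h i)
    _ ≤ ∑ _i : Fin k, (d : ℝ) := sum_le_sum fun i _ => by exact_mod_cast hf i
    _ = k * d := by rw [sum_const, card_univ, Fintype.card_fin, nsmul_eq_mul]

/-- **Systems of polynomials: the asymptotic formula, and arbitrary sets of arguments.** -/
theorem sys_final (k d U K : ℕ) (hk : 1 ≤ k) (hd : 2 ≤ d) : ∃ C0 E1 : ℕ, ∀ E : ℕ, ∃ x0 : ℕ, ∀ x : ℕ, x0 ≤ x → ∀ z : ℕ,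
    Real.log x ^ E1 ≤ z → (z : ℝ) ≤ Real.log x ^ E → ∀ D B : ℕ, Real.log x ^ C0 ≤ D → (D : ℝ) ≤ (x : ℝ) ^ K →
    (D : ℝ) * x ≤ B * Real.log x ^ K → (B : ℝ) ≤ D * x * Real.log x ^ K →
    ∀ P : Fin k → ℤ[X], (∀ i, (P i).natDegree + 1 ≤ d) →
    (∀ i, ∀ m ∈ Icc 1 x, ((|(P i).eval (m : ℤ)| : ℤ) : ℝ) ≤ B * Real.log x ^ K) →
    ∀ c : Fin k → ℤ, (∀ i, c i ≠ 0) → (∀ i, ((|c i| : ℤ) : ℝ) ≤ B * x * Real.log x ^ K) → ∀ T : Finset ℕ,
    ∃ Bad ⊆ bx D B k, (#Bad : ℝ) ≤ ((D : ℝ) * B) ^ k / Real.log x ^ U ∧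
      ∀ e ∈ bx D B k, e ∉ Bad → ∀ u v : ℕ, u < v → v ≤ x → (∀ i, ∀ m ∈ Ioc u v, 3 ≤ (mem1 P c e i).eval (m : ℤ)) →
        |(cnt (mem1 P c e) (T ∩ Ioc u v) : ℝ) - (Vz z)⁻¹ ^ k *
          ∑ m ∈ (T ∩ Ioc u v).filter (fun m : ℕ => ∀ i, ∀ p ∈ pz z, ¬ p ∣ ((mem1 P c e i).eval (m : ℤ)).toNat), lw (mem1 P c e) m| ≤
          x / Real.log x ^ U ∧
        ((∀ p ∈ pz z, rho (∏ i, mem1 P c e i) 0 p < p) →
          |(cnt (mem1 P c e) (Ioc u v) : ℝ) - dsys z (mem1 P c e) * ∑ m ∈ Ioc u v, lw (mem1 P c e) m| ≤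
          dsys z (mem1 P c e) * x / Real.log x ^ U) := by
  classical
  obtain ⟨U1, hU1⟩ : ∃ U1, U1 = U + 2 * (k * d) + 2 := ⟨_, rfl⟩
  obtain ⟨C1, E1, hw⟩ := sys_windows k (U + 1) K hk
  obtain ⟨C2, E2, ht⟩ := sys_theta k d U1 K hk hd
  refine ⟨C1 + C2, E1 + E2, fun E => ?_⟩
  obtain ⟨x1, h1⟩ := hw E
  obtain ⟨x2, h2⟩ := ht E
  obtain ⟨x3, h3⟩ := Vz_inv_small E
  obtain ⟨x4, h4⟩ := ev_L' ((2 * ((k * d : ℕ) : ℝ)) ^ (2 * (k * d)) * (1 + k * d) + 2 * (1 + k * d) + 2)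
  refine ⟨max (max x1 x2) (max (max x3 x4) 1), fun x hx z hz1 hz2 D B hD1 hD2 hDB hBD P hP hPB c hc0 hc T => ?_⟩
  have b1 := h1 x (le_trans (le_trans (le_max_left _ _) (le_max_left _ _)) hx)
  have b2 := h2 x (le_trans (le_trans (le_max_right _ _) (le_max_left _ _)) hx)
  have b3 := h3 x (le_trans (le_trans (le_trans (le_max_left _ _) (le_max_left _ _)) (le_max_right _ _)) hx)
  have b4 := h4 x (le_trans (le_trans (le_trans (le_max_right _ _) (le_max_left _ _)) (le_max_right _ _)) hx)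
  have hx1 : 1 ≤ x := le_trans (le_trans (le_max_right _ _) (le_max_right _ _)) hx
  set L := Real.log x with hL
  have hkd0 : (0 : ℝ) ≤ (k : ℝ) * d := by positivity
  have hG0 : (0 : ℝ) ≤ (2 * ((k * d : ℕ) : ℝ)) ^ (2 * (k * d)) * (1 + k * d) := by positivity
  have hL2 : 2 ≤ L := by linarith
  have hLk : 2 * (1 + (k : ℝ) * d) ≤ L := by linarith
  have hLG : (2 * ((k * d : ℕ) : ℝ)) ^ (2 * (k * d)) * (1 + k * d) ≤ L := by linarith
  have hL1 : 1 ≤ L := by linarith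
  have hL0 : 0 < L := by linarith
  have hLp : ∀ n : ℕ, 0 < L ^ n := fun n => by positivity
  have hx0 : (0 : ℝ) < x := by exact_mod_cast hx1
  have hLL : ∀ {i j : ℕ}, i ≤ j → L ^ i ≤ L ^ j := fun h => pow_le_pow_right₀ hL1 h
  have hz1' : 1 ≤ z := by
    have : (1 : ℝ) ≤ z := (one_le_pow₀ hL1).trans hz1
    exact_mod_cast this
  have hV := b3 z hz1' hz2
  obtain ⟨Bad1, hB1s, hB1c, hB1⟩ := b1 z ((hLL (by omega)).trans hz1) hz2 D B ((hLL (by omega)).trans hD1) hD2 hDB hBD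
    (fun i m => (P i).eval (m : ℤ)) hPB c hc0 hc (fun m => if m ∈ T then 1 else 0) (fun m => by
      split_ifs <;> simp)
  obtain ⟨Bad2, hB2s, hB2c, hB2⟩ := b2 z ((hLL (by omega)).trans hz1) hz2 D B ((hLL (by omega)).trans hD1) hD2 hDB hBD
    P hP hPB c hc0 hc
  refine ⟨Bad1 ∪ Bad2, union_subset hB1s hB2s, ?_, fun e he hbad u v huv hvx h3v => ⟨?_, fun hrho => ?_⟩⟩
  · have g1 : (#(Bad1 ∪ Bad2) : ℝ) ≤ #Bad1 + #Bad2 := by exact_mod_cast card_union_le _ _
    have g2 : ((D : ℝ) * B) ^ k / L ^ (U + 1) ≤ (1 / 2) * (((D : ℝ) * B) ^ k / L ^ U) := by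
      rw [pow_succ]
      have e1 : ((D : ℝ) * B) ^ k / (L ^ U * L) = (1 / L) * (((D : ℝ) * B) ^ k / L ^ U) := by field_simp
      rw [e1]
      apply mul_le_mul_of_nonneg_right _ (by positivity)
      exact one_div_le_one_div_of_le (by norm_num) hL2
    have g3 : ((D : ℝ) * B) ^ k / L ^ U1 ≤ ((D : ℝ) * B) ^ k / L ^ (U + 1) :=
      div_le_div_of_nonneg_left (by positivity) (hLp _) (hLL (by omega))
    linarith
  · -- arbitrary sets of arguments
    rw [mem_union, not_or] at hbad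
    have hfv : ∀ i m, fv (fun i m => (P i).eval (m : ℤ)) c e i m = ((mem1 P c e i).eval (m : ℤ)).toNat := by
      intro i m
      rw [mem1_eval]
      rfl
    have g1 := abel_tv (lw (mem1 P c e)) (fun m => (if m ∈ T then (1 : ℝ) else 0) *
      (∏ i, th (fv (fun i m => (P i).eval (m : ℤ)) c e i m) - ∏ i, lamz z (fv (fun i m => (P i).eval (m : ℤ)) c e i m))) u v huv
      (x / L ^ (U + 1)) (k * d) (lw_abs _ v (fun i => h3v i v (mem_Ioc.2 ⟨huv, le_rfl⟩))).1
      (fun n hn1 hn2 => hB1 e he hbad.1 u n hn1 (hn2.trans hvx))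
      (lw_tv _ (fun i => mem1_deg hd P hP c e i) u v h3v)
    have g2 : ∑ m ∈ Ioc u v, lw (mem1 P c e) m * ((if m ∈ T then (1 : ℝ) else 0) *
        (∏ i, th (fv (fun i m => (P i).eval (m : ℤ)) c e i m) - ∏ i, lamz z (fv (fun i m => (P i).eval (m : ℤ)) c e i m))) =
        (cnt (mem1 P c e) (T ∩ Ioc u v) : ℝ) - (Vz z)⁻¹ ^ k *
          ∑ m ∈ (T ∩ Ioc u v).filter (fun m : ℕ => ∀ i, ∀ p ∈ pz z, ¬ p ∣ ((mem1 P c e i).eval (m : ℤ)).toNat), lw (mem1 P c e) m := by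
      unfold cnt
      rw [card_filter, sum_filter]
      push_cast
      rw [mul_sum, ← sum_sub_distrib, inter_comm, ← filter_mem_eq_inter, sum_filter]
      refine sum_congr rfl fun m hm => ?_
      by_cases hT : m ∈ T
      · rw [if_pos hT, if_pos hT, one_mul, mul_sub]
        have g3 : lw (mem1 P c e) m * ∏ i, th (fv (fun i m => (P i).eval (m : ℤ)) c e i m) =
            if (∀ i, ((mem1 P c e i).eval (m : ℤ)).toNat.Prime) then 1 else 0 := by
          simp only [hfv]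
          exact th_lw _ m (fun i => h3v i m hm)
        rw [g3]
        congr 1
        simp only [hfv]
        by_cases hr : ∀ i, ∀ p ∈ pz z, ¬ p ∣ ((mem1 P c e i).eval (m : ℤ)).toNat
        · rw [if_pos hr]
          have g4 : ∀ i, lamz z ((mem1 P c e i).eval (m : ℤ)).toNat = (Vz z)⁻¹ := fun i => by
            unfold lamz; rw [if_pos (hr i)]
          simp_rw [g4]
          rw [prod_const, card_univ, Fintype.card_fin, mul_comm]
        · rw [if_neg hr, mul_zero]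
          push Not at hr
          obtain ⟨i, p, hp, hpd⟩ := hr
          have g4 : ∏ i, lamz z ((mem1 P c e i).eval (m : ℤ)).toNat = 0 := by
            apply prod_eq_zero (mem_univ i)
            unfold lamz
            rw [if_neg]
            intro h
            exact h p hp hpd
          rw [g4, mul_zero]
      · rw [if_neg hT, if_neg hT, zero_mul, mul_zero]
    rw [← g2]
    refine g1.trans ?_
    rw [pow_succ]
    have e1 : (x : ℝ) / (L ^ U * L) * (1 + k * d) = ((1 + k * d) / L) * (x / L ^ U) := by field_simp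
    rw [e1]
    calc ((1 + (k : ℝ) * d) / L) * (x / L ^ U) ≤ 1 * (x / L ^ U) := by
          apply mul_le_mul_of_nonneg_right _ (by positivity)
          rw [div_le_one hL0]
          linarith
      _ = _ := one_mul _
  · rw [mem_union, not_or] at hbad
    have g1 := abel_tv (lw (mem1 P c e)) (fun m => ∏ i, th ((mem1 P c e i).eval (m : ℤ)).toNat - dsys z (mem1 P c e)) u v huv
      (x / L ^ U1) (k * d) (lw_abs _ v (fun i => h3v i v (mem_Ioc.2 ⟨huv, le_rfl⟩))).1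
      (fun n hn1 hn2 => hB2 e he hbad.2 u n hn1 (hn2.trans hvx) (fun i m hm => by
        have := h3v i m (by rw [mem_Ioc] at hm ⊢; omega)
        omega))
      (lw_tv _ (fun i => mem1_deg hd P hP c e i) u v h3v)
    have g2 : ∑ m ∈ Ioc u v, lw (mem1 P c e) m * (∏ i, th ((mem1 P c e i).eval (m : ℤ)).toNat - dsys z (mem1 P c e)) =
        (cnt (mem1 P c e) (Ioc u v) : ℝ) - dsys z (mem1 P c e) * ∑ m ∈ Ioc u v, lw (mem1 P c e) m := by
      unfold cnt
      rw [card_filter]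
      push_cast
      rw [mul_sum, ← sum_sub_distrib]
      refine sum_congr rfl fun m hm => ?_
      rw [mul_sub, th_lw _ m (fun i => h3v i m hm)]
      ring
    rw [← g2]
    refine g1.trans ?_
    have hlow := dsys_low z k d hk (by omega) (mem1 P c e) (fun i => mem1_deg hd P hP c e i) hrho L hV hL1
    set G : ℝ := (2 * ((k * d : ℕ) : ℝ)) ^ (2 * (k * d)) with hG
    have hkd1 : 1 ≤ k * d := by nlinarith
    have hGpos : 0 < G := by
      have : (1 : ℝ) ≤ ((k * d : ℕ) : ℝ) := by exact_mod_cast hkd1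
      positivity
    have h5 : 1 ≤ (G * L ^ (2 * (k * d))) * dsys z (mem1 P c e) := by
      rw [div_le_iff₀ (by positivity)] at hlow
      linarith
    calc (x : ℝ) / L ^ U1 * (1 + k * d) = 1 * (x / L ^ U1 * (1 + k * d)) := (one_mul _).symm
      _ ≤ ((G * L ^ (2 * (k * d))) * dsys z (mem1 P c e)) * (x / L ^ U1 * (1 + k * d)) :=
          mul_le_mul_of_nonneg_right h5 (by positivity)
      _ = (G * (1 + k * d) / L ^ 2) * (dsys z (mem1 P c e) * x / L ^ U) := by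
          rw [hU1, pow_add, pow_add]
          have := (hLp (2 * (k * d))).ne'
          have := (hLp U).ne'
          field_simp
      _ ≤ 1 * (dsys z (mem1 P c e) * x / L ^ U) := by
          have h6 : 0 ≤ dsys z (mem1 P c e) := by
            unfold dsys
            have := hh_nonneg (∏ i, mem1 P c e i) 0 z hz1'
            have h7 : 0 < (Vz z)⁻¹ := inv_pos.2 (Vz_pos z)
            positivity
          apply mul_le_mul_of_nonneg_right _ (by positivity)
          rw [div_le_one (hLp 2)]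
          have : L ≤ L ^ 2 := le_self_pow₀ hL1 (by norm_num)
          linarith
      _ = _ := one_mul _

end Pool.Agent.Y868.TC
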